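import Mathlib
import Pool.Agent.Y359.PE.Ent

/-!
# Entropic Ruzsa calculus, by counting
-/

set_option autoImplicit false

namespace Pool.Agent.W5h20.Pr

open Finset Pool.Agent.Y359.PE
open scoped Classical

variable {α β γ δ : Type*}

/-- sums along a map with fibres of constant size -/
theorem sum_comp_const {S : Finset α} {T : Finset β} (π : α → β) (c : ℕ)
    (hmap : ∀ x ∈ S, π x ∈ T) (hfib : ∀ t ∈ T, ∃ F : Finset α, F.card = c ∧ ∀ x, x ∈ F ↔ x ∈ S ∧ π x = t) (F : β → ℝ) :
    ∑ x ∈ S, F (π x) = c * ∑ t ∈ T, F t := by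
  rw [← sum_fiberwise_of_maps_to hmap, mul_sum]
  refine sum_congr rfl fun t ht => ?_
  have : ∑ x ∈ S.filter (fun x => π x = t), F (π x) = ∑ x ∈ S.filter (fun x => π x = t), F t := by
    refine sum_congr rfl fun x hx => ?_
    rw [(mem_filter.1 hx).2]
  obtain ⟨F', hF1, hF2⟩ := hfib t ht
  have h2 : S.filter (fun x => π x = t) = F' := by
    ext x
    rw [mem_filter, hF2]
  rw [this, sum_const, h2, hF1, nsmul_eq_mul]

theorem card_comp_const {S : Finset α} {T : Finset β} (π : α → β) (c : ℕ)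
    (hmap : ∀ x ∈ S, π x ∈ T) (hfib : ∀ t ∈ T, ∃ F : Finset α, F.card = c ∧ ∀ x, x ∈ F ↔ x ∈ S ∧ π x = t) :
    S.card = c * T.card := by
  have h1 := sum_comp_const π c hmap hfib (fun _ => (1 : ℝ))
  simp only [sum_const, nsmul_eq_mul, mul_one] at h1
  exact_mod_cast h1

/-- entropy is preserved by maps with fibres of constant size -/
theorem h_comp {S : Finset α} {T : Finset β} (π : α → β) (c : ℕ) (hc : 0 < c)
    (hmap : ∀ x ∈ S, π x ∈ T) (hfib : ∀ t ∈ T, ∃ F : Finset α, F.card = c ∧ ∀ x, x ∈ F ↔ x ∈ S ∧ π x = t) (f : β → γ) :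
    h S (fun x => f (π x)) = h T f := by
  have hcard := card_comp_const π c hmap hfib
  have hcR : (0 : ℝ) < c := by exact_mod_cast hc
  have hfc : ∀ x ∈ S, fc S (fun x => f (π x)) x = c * fc T f (π x) := by
    intro x hx
    have h1 : (cl S (fun x => f (π x)) x).card = c * (cl T f (π x)).card := by
      refine card_comp_const π c ?_ ?_
      · intro y hy
        rw [mem_cl] at hy ⊢
        exact ⟨hmap y hy.1, hy.2⟩
      · intro t ht
        rw [mem_cl] at ht
        obtain ⟨F', hF1, hF2⟩ := hfib t ht.1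
        refine ⟨F', hF1, fun y => ?_⟩
        rw [hF2, mem_cl]
        constructor
        · rintro ⟨h1, h2⟩
          exact ⟨⟨h1, by rw [h2]; exact ht.2⟩, h2⟩
        · rintro ⟨⟨h1, -⟩, h2⟩
          exact ⟨h1, h2⟩
    exact h1
  rcases T.eq_empty_or_nonempty with hT | hT
  · have hS : S = ∅ := by
      rw [← card_eq_zero, hcard, hT, card_empty, mul_zero]
    rw [hS, hT]
    unfold h
    simp
  · have hTR : (0 : ℝ) < T.card := by exact_mod_cast card_pos.2 hT
    unfold h
    have h2 : ∑ x ∈ S, (Real.log S.card - Real.log (fc S (fun x => f (π x)) x)) =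
        ∑ x ∈ S, (Real.log T.card - Real.log (fc T f (π x))) := by
      refine sum_congr rfl fun x hx => ?_
      rw [hfc x hx, hcard]
      push_cast
      rw [Real.log_mul hcR.ne' hTR.ne', Real.log_mul hcR.ne' (fc_posR (hmap x hx)).ne']
      ring
    have h3 := sum_comp_const π c hmap hfib (fun t => Real.log T.card - Real.log (fc T f t))
    rw [h2, h3, hcard]
    push_cast
    rw [mul_div_mul_left _ _ hcR.ne']

/-- the entropy of an injective function -/
theorem h_inj {S : Finset α} (f : α → β) (hf : ∀ x ∈ S, ∀ y ∈ S, f x = f y → x = y)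
    (hS : S.Nonempty) : h S f = Real.log S.card := by
  have hc : (0 : ℝ) < S.card := by exact_mod_cast card_pos.2 hS
  have h1 : ∀ x ∈ S, fc S f x = 1 := by
    intro x hx
    unfold fc
    rw [card_eq_one]
    refine ⟨x, ?_⟩
    ext y
    rw [mem_cl, mem_singleton]
    constructor
    · rintro ⟨h1, h2⟩
      exact hf y h1 x hx h2
    · rintro rfl
      exact ⟨hx, rfl⟩
  unfold h
  rw [sum_congr rfl (fun x hx => by rw [h1 x hx, Nat.cast_one, Real.log_one, sub_zero]), sum_const,
    nsmul_eq_mul]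
  field_simp

theorem h_empty (f : α → β) : h (∅ : Finset α) f = 0 := by
  unfold h
  simp

theorem h_fst {S : Finset α} {T : Finset β} (hT : T.Nonempty) (f : α → γ) :
    h (S ×ˢ T) (fun p => f p.1) = h S f := by
  refine h_comp Prod.fst T.card (card_pos.2 hT) (fun x hx => (mem_product.1 hx).1) ?_ f
  intro t ht
  refine ⟨{t} ×ˢ T, by rw [card_product, card_singleton, one_mul], ?_⟩
  rintro ⟨a, b⟩
  simp only [mem_product, mem_singleton]
  constructor
  · rintro ⟨rfl, h1⟩
    exact ⟨⟨ht, h1⟩, rfl⟩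
  · rintro ⟨⟨-, h1⟩, h2⟩
    exact ⟨h2, h1⟩

theorem h_swap {S : Finset α} {T : Finset β} (f : α → β → γ) :
    h (S ×ˢ T) (fun p => f p.1 p.2) = h (T ×ˢ S) (fun p => f p.2 p.1) := by
  refine h_comp (T := T ×ˢ S) (fun p : α × β => (p.2, p.1)) 1 one_pos ?_ ?_ (fun p => f p.2 p.1)
  · rintro ⟨a, b⟩ hp
    rw [mem_product] at hp ⊢
    exact ⟨hp.2, hp.1⟩
  · rintro ⟨b, a⟩ hp
    rw [mem_product] at hp
    refine ⟨{(a, b)}, card_singleton _, ?_⟩
    rintro ⟨x, y⟩
    simp only [mem_product, mem_singleton, Prod.mk.injEq]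
    constructor
    · rintro ⟨rfl, rfl⟩
      exact ⟨⟨hp.2, hp.1⟩, rfl, rfl⟩
    · rintro ⟨-, h1, h2⟩
      exact ⟨h2, h1⟩

theorem h_snd {S : Finset α} {T : Finset β} (hS : S.Nonempty) (f : β → γ) :
    h (S ×ˢ T) (fun p => f p.2) = h T f := by
  rw [h_swap (fun _ b => f b)]
  exact h_fst hS f

/-- additivity for independent variables -/
theorem h_prod {S : Finset α} {T : Finset β} (hS : S.Nonempty) (hT : T.Nonempty) (f : α → γ)
    (g : β → δ) : h (S ×ˢ T) (fun p => (f p.1, g p.2)) = h S f + h T g := by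
  have hcS : (0 : ℝ) < S.card := by exact_mod_cast card_pos.2 hS
  have hcT : (0 : ℝ) < T.card := by exact_mod_cast card_pos.2 hT
  have hfc : ∀ p ∈ S ×ˢ T, fc (S ×ˢ T) (fun p => (f p.1, g p.2)) p = fc S f p.1 * fc T g p.2 := by
    intro p _
    unfold fc
    rw [← card_product]
    congr 1
    ext ⟨a, b⟩
    simp only [mem_cl, mem_product, Prod.mk.injEq]
    tauto
  unfold h
  have h1 : ∑ x ∈ S ×ˢ T, (Real.log ((S ×ˢ T).card : ℝ) -
      Real.log (fc (S ×ˢ T) (fun p => (f p.1, g p.2)) x)) =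
      ∑ a ∈ S, ∑ b ∈ T, ((Real.log S.card - Real.log (fc S f a)) +
        (Real.log T.card - Real.log (fc T g b))) := by
    rw [sum_product]
    refine sum_congr rfl fun a ha => sum_congr rfl fun b hb => ?_
    rw [hfc (a, b) (mem_product.2 ⟨ha, hb⟩), card_product]
    push_cast
    rw [Real.log_mul hcS.ne' hcT.ne', Real.log_mul (fc_posR ha).ne' (fc_posR hb).ne']
    ring
  rw [h1]
  simp only [sum_add_distrib, sum_const, nsmul_eq_mul]
  rw [card_product, ← mul_sum]
  push_cast
  field_simp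

/-- conditional entropy decreases under finer conditioning, in the form of submodularity with a
trivial coarse function -/
theorem h_pair_le (S : Finset α) (f : α → β) (g : α → γ) :
    h S (fun x => (f x, g x)) ≤ h S f + h S g := by
  have h1 := submod S (fun _ => ()) f g (fun _ _ _ _ _ => rfl)
  have h2 : h S (fun _ : α => ()) = 0 := h_const S _ (fun _ _ _ _ => rfl)
  have h3 : h S (fun x => ((), g x)) = h S g := h_congr fun x _ y _ => by simp
  rw [h2, h3] at h1
  linarith

/-- monotonicity -/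
theorem h_mono {S : Finset α} {f : α → β} {g : α → γ}
    (hgf : ∀ x ∈ S, ∀ y ∈ S, g x = g y → f x = f y) : h S f ≤ h S g := by
  have h1 : h S g = h S (fun x => (f x, g x)) := h_congr fun x hx y hy => by
    rw [Prod.mk.injEq]
    exact ⟨fun h => ⟨hgf x hx y hy h, h⟩, fun h => h.2⟩
  have h2 := chain S f g
  have h3 : 0 ≤ (∑ x ∈ S, h (cl S f x) g) / S.card :=
    div_nonneg (sum_nonneg fun x _ => h_nonneg _ _) (Nat.cast_nonneg _)
  linarith

/-- data processing: `g` is a function of `u`. -/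
theorem h_data {S : Finset α} {ε : Type*} (u : α → β) (g : α → γ) (v : α → ε)
    (hg : ∀ x ∈ S, ∀ y ∈ S, u x = u y → g x = g y) :
    h S g + h S (fun x => (u x, v x)) ≤ h S u + h S (fun x => (g x, v x)) := by
  have := submod S g u v hg
  linarith

section group

variable {V : Type*} [AddCommGroup V]

/-- the entropy of the difference -/
noncomputable def hd (S : Finset α) (f : α → V) (T : Finset β) (g : β → V) : ℝ :=
  h (S ×ˢ T) (fun p => f p.1 - g p.2)

/-- the entropic Ruzsa distance -/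
noncomputable def dR (S : Finset α) (f : α → V) (T : Finset β) (g : β → V) : ℝ :=
  hd S f T g - (h S f + h T g) / 2

theorem hd_comm (S : Finset α) (f : α → V) (T : Finset β) (g : β → V) :
    hd S f T g = hd T g S f := by
  unfold hd
  rw [h_swap (fun a b => f a - g b)]
  refine h_congr fun x _ y _ => ?_
  constructor
  · intro h
    rw [← neg_sub, h, neg_sub]
  · intro h
    rw [← neg_sub, h, neg_sub]

theorem dR_comm (S : Finset α) (f : α → V) (T : Finset β) (g : β → V) :
    dR S f T g = dR T g S f := by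
  unfold dR
  rw [hd_comm, add_comm]

theorem h_le_hd_left {S : Finset α} (f : α → V) {T : Finset β} (hT : T.Nonempty) (g : β → V) :
    h S f ≤ hd S f T g := by
  rcases S.eq_empty_or_nonempty with hS | hS
  · rw [hS, h_empty]
    exact h_nonneg _ _
  · have h1 := h_pair_le (S ×ˢ T) (fun p => g p.2) (fun p => f p.1 - g p.2)
    have h2 : h (S ×ˢ T) (fun p => (g p.2, f p.1 - g p.2)) =
        h (S ×ˢ T) (fun p => (f p.1, g p.2)) := h_congr fun x _ y _ => by
      rw [Prod.mk.injEq, Prod.mk.injEq]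
      constructor
      · rintro ⟨h1, h2⟩
        rw [h1] at h2
        exact ⟨sub_left_injective h2, h1⟩
      · rintro ⟨h1, h2⟩
        exact ⟨h2, by rw [h1, h2]⟩
    rw [h2, h_prod hS hT, h_snd hS] at h1
    unfold hd
    linarith

theorem h_le_hd_right {S : Finset α} (hS : S.Nonempty) (f : α → V) {T : Finset β} (g : β → V) :
    h T g ≤ hd S f T g := by
  rw [hd_comm]
  exact h_le_hd_left g hS f

theorem dR_nonneg {S : Finset α} (hS : S.Nonempty) (f : α → V) {T : Finset β} (hT : T.Nonempty)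
    (g : β → V) : 0 ≤ dR S f T g := by
  have h1 := h_le_hd_left (S := S) f hT g
  have h2 := h_le_hd_right hS f (T := T) g
  unfold dR
  linarith

theorem h_diff_le {S : Finset α} (f : α → V) {T : Finset β} (hT : T.Nonempty)
    (g : β → V) : h S f - h T g ≤ 2 * dR S f T g := by
  have h1 := h_le_hd_left (S := S) f hT g
  unfold dR
  linarith

/-- **the triangle inequality** -/
theorem dR_tri {ε : Type*} {S : Finset α} (hS : S.Nonempty) (f : α → V) {T : Finset β}
    (hT : T.Nonempty) (g : β → V) {U : Finset ε} (hU : U.Nonempty) (k : ε → V) :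
    dR S f U k ≤ dR S f T g + dR T g U k := by
  have hTU : (T ×ˢ U).Nonempty := hT.product hU
  -- on the triple product
  have h1 := submod (S ×ˢ (T ×ˢ U)) (fun p => f p.1 - k p.2.2) (fun p => (f p.1, k p.2.2))
    (fun p => (f p.1 - g p.2.1, g p.2.1 - k p.2.2)) (by
      intro x _ y _ h
      rw [Prod.mk.injEq] at h
      rw [h.1, h.2])
  have e1 : h (S ×ˢ (T ×ˢ U)) (fun p => ((f p.1, k p.2.2), (f p.1 - g p.2.1, g p.2.1 - k p.2.2))) =
      h S f + (h T g + h U k) := by
    rw [← h_prod hT hU, ← h_prod hS hTU]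
    refine h_congr fun x _ y _ => ?_
    simp only [Prod.mk.injEq]
    constructor
    · rintro ⟨⟨a1, a2⟩, a3, a4⟩
      rw [a1] at a3
      exact ⟨a1, sub_right_injective a3, a2⟩
    · rintro ⟨a1, a2, a3⟩
      rw [a1, a2, a3]
      simp
  have m1 : h (S ×ˢ (T ×ˢ U)) (fun p => f p.1 - k p.2.2) = hd S f U k := by
    unfold hd
    refine h_comp (T := S ×ˢ U) (fun p : α × β × ε => (p.1, p.2.2)) T.card (card_pos.2 hT) ?_ ?_
      (fun p : α × ε => f p.1 - k p.2)
    · rintro ⟨a, b, c⟩ hp
      rw [mem_product, mem_product] at hp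
      exact mem_product.2 ⟨hp.1, hp.2.2⟩
    · rintro ⟨a, c⟩ hp
      rw [mem_product] at hp
      refine ⟨T.image (fun b => (a, b, c)), ?_, ?_⟩
      · rw [card_image_of_injective]
        intro b b' hb
        simpa using hb
      · rintro ⟨x, y, z⟩
        simp only [mem_product, mem_image, Prod.mk.injEq]
        constructor
        · rintro ⟨b, hb, rfl, rfl, rfl⟩
          exact ⟨⟨hp.1, hb, hp.2⟩, rfl, rfl⟩
        · rintro ⟨⟨-, h1, -⟩, rfl, rfl⟩
          exact ⟨y, h1, rfl, rfl, rfl⟩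
  have m2 : h (S ×ˢ (T ×ˢ U)) (fun p => (f p.1, k p.2.2)) = h S f + h U k := by
    rw [h_prod (f := f) (g := fun q : β × ε => k q.2) hS hTU, h_snd hT]
  have m3 : h (S ×ˢ (T ×ˢ U)) (fun p => f p.1 - g p.2.1) = hd S f T g := by
    unfold hd
    refine h_comp (T := S ×ˢ T) (fun p : α × β × ε => (p.1, p.2.1)) U.card (card_pos.2 hU) ?_ ?_
      (fun p : α × β => f p.1 - g p.2)
    · rintro ⟨a, b, c⟩ hp
      rw [mem_product, mem_product] at hp
      exact mem_product.2 ⟨hp.1, hp.2.1⟩
    · rintro ⟨a, b⟩ hp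
      rw [mem_product] at hp
      refine ⟨U.image (fun c => (a, b, c)), ?_, ?_⟩
      · rw [card_image_of_injective]
        intro b b' hb
        simpa using hb
      · rintro ⟨x, y, z⟩
        simp only [mem_product, mem_image, Prod.mk.injEq]
        constructor
        · rintro ⟨c, hc, rfl, rfl, rfl⟩
          exact ⟨⟨hp.1, hp.2, hc⟩, rfl, rfl⟩
        · rintro ⟨⟨-, -, h1⟩, rfl, rfl⟩
          exact ⟨z, h1, rfl, rfl, rfl⟩
  have m4 : h (S ×ˢ (T ×ˢ U)) (fun p => g p.2.1 - k p.2.2) = hd T g U k := by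
    unfold hd
    exact h_snd hS (fun q : β × ε => g q.1 - k q.2)
  have h2 : h (S ×ˢ (T ×ˢ U)) (fun p => (f p.1 - k p.2.2, (f p.1 - g p.2.1, g p.2.1 - k p.2.2))) =
      h (S ×ˢ (T ×ˢ U)) (fun p => (f p.1 - g p.2.1, g p.2.1 - k p.2.2)) := by
    refine h_congr fun x _ y _ => ?_
    simp only [Prod.mk.injEq]
    constructor
    · rintro ⟨-, a2, a3⟩
      exact ⟨a2, a3⟩
    · rintro ⟨a2, a3⟩
      refine ⟨?_, a2, a3⟩
      have := congrArg₂ (· + ·) a2 a3
      simpa using this
  have h3 := h_pair_le (S ×ˢ (T ×ˢ U)) (fun p => f p.1 - g p.2.1) (fun p => g p.2.1 - k p.2.2)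
  rw [e1, m2, h2, m1] at h1
  rw [m3, m4] at h3
  unfold dR
  linarith

theorem dR_self_le {S : Finset α} (hS : S.Nonempty) (f : α → V) {T : Finset β}
    (hT : T.Nonempty) (g : β → V) : dR S f S f ≤ 2 * dR S f T g := by
  have h1 := dR_tri hS f hT g hS f
  rw [dR_comm T g S f] at h1
  linarith

open scoped Pointwise in
/-- the entropy of the difference of uniform elements of two sets -/
theorem hd_sets {A B : Finset V} (hA : A.Nonempty) (hB : B.Nonempty) :
    hd A (fun a => a) B (fun b => b) ≤ Real.log (A - B).card := by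
  have h1 := h_le_log (hA.product hB) (fun p : V × V => p.1 - p.2)
  have h2 : (A ×ˢ B).image (fun p : V × V => p.1 - p.2) = A - B := by
    ext x
    simp only [mem_image, mem_product, mem_sub, Prod.exists]
    constructor
    · rintro ⟨a, b, ⟨ha, hb⟩, rfl⟩
      exact ⟨a, ha, b, hb, rfl⟩
    · rintro ⟨a, ha, b, hb, rfl⟩
      exact ⟨a, b, ⟨ha, hb⟩, rfl⟩
  rw [h2] at h1
  exact h1

end group

theorem fib_pi {ι : Type*} [Fintype ι] {Ω : ι → Type*} (S : ∀ i, Finset (Ω i)) (i : ι) :
    ∀ t ∈ S i, ∃ F : Finset (∀ i, Ω i), F.card = ∏ j ∈ univ.erase i, (S j).card ∧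
      ∀ w, w ∈ F ↔ w ∈ Fintype.piFinset S ∧ w i = t := by
  intro t ht
  exact ⟨(Fintype.piFinset S).filter fun w => w i = t,
    Fintype.card_filter_piFinset_eq_of_mem S i ht, fun w => mem_filter⟩

/-- **Additivity for product sets.** -/
theorem h_pi {ι : Type*} [Fintype ι] {Ω : ι → Type*} {γ : ι → Type*} (S : ∀ i, Finset (Ω i))
    (hS : ∀ i, (S i).Nonempty) (f : ∀ i, Ω i → γ i) :
    h (Fintype.piFinset S) (fun w i => f i (w i)) = ∑ i, h (S i) (f i) := by
  have hcS : ∀ i, (0 : ℝ) < (S i).card := fun i => by exact_mod_cast card_pos.2 (hS i)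
  have hne : (Fintype.piFinset S).Nonempty := Fintype.piFinset_nonempty.2 hS
  have hc : (0 : ℝ) < (Fintype.piFinset S).card := by exact_mod_cast card_pos.2 hne
  have hfc : ∀ w ∈ Fintype.piFinset S, fc (Fintype.piFinset S) (fun w i => f i (w i)) w =
      ∏ i, fc (S i) (f i) (w i) := by
    intro w _
    unfold fc
    rw [← Fintype.card_piFinset]
    congr 1
    ext v
    simp only [mem_cl, Fintype.mem_piFinset, funext_iff]
    constructor
    · rintro ⟨h1, h2⟩ i
      exact ⟨h1 i, h2 i⟩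
    · intro h1
      exact ⟨fun i => (h1 i).1, fun i => (h1 i).2⟩
  have hterm : ∀ w ∈ Fintype.piFinset S, Real.log (Fintype.piFinset S).card -
      Real.log (fc (Fintype.piFinset S) (fun w i => f i (w i)) w) =
      ∑ i, (Real.log (S i).card - Real.log (fc (S i) (f i) (w i))) := by
    intro w hw
    rw [hfc w hw, Fintype.card_piFinset]
    push_cast
    rw [Real.log_prod (fun i _ => (hcS i).ne'),
      Real.log_prod (fun i _ => (fc_posR (Fintype.mem_piFinset.1 hw i)).ne'), sum_sub_distrib]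
  have hone : ∀ i, (∑ w ∈ Fintype.piFinset S, (Real.log (S i).card -
      Real.log (fc (S i) (f i) (w i)))) / (Fintype.piFinset S).card = h (S i) (f i) := by
    intro i
    have hfib := fib_pi S i
    have h1 := sum_comp_const (S := Fintype.piFinset S) (T := S i) (fun w => w i)
      (∏ j ∈ univ.erase i, (S j).card) (fun w hw => Fintype.mem_piFinset.1 hw i) hfib
      (fun t => Real.log (S i).card - Real.log (fc (S i) (f i) t))
    have h2 := card_comp_const (S := Fintype.piFinset S) (T := S i) (fun w => w i)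
      (∏ j ∈ univ.erase i, (S j).card) (fun w hw => Fintype.mem_piFinset.1 hw i) hfib
    rw [h1, h2]
    unfold h
    push_cast
    rw [mul_div_mul_left]
    exact (prod_pos fun j _ => hcS j).ne'
  have hexp : h (Fintype.piFinset S) (fun w i => f i (w i)) =
      (∑ w ∈ Fintype.piFinset S, (Real.log (Fintype.piFinset S).card -
      Real.log (fc (Fintype.piFinset S) (fun w i => f i (w i)) w))) / (Fintype.piFinset S).card :=
    rfl
  rw [hexp, sum_congr rfl hterm, sum_comm, sum_div]
  exact sum_congr rfl fun i _ => hone i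

/-- marginals of product sets -/
theorem h_pi_marg {ι : Type*} [Fintype ι] {Ω : ι → Type*} (S : ∀ i, Finset (Ω i))
    (hS : ∀ i, (S i).Nonempty) (i : ι) {γ : Type*} (f : Ω i → γ) :
    h (Fintype.piFinset S) (fun w => f (w i)) = h (S i) f := by
  refine h_comp (fun w : ∀ i, Ω i => w i) (∏ j ∈ univ.erase i, (S j).card)
    (prod_pos fun j _ => card_pos.2 (hS j)) (fun w hw => Fintype.mem_piFinset.1 hw i)
    (fib_pi S i) f

/-- marginals of the product of a set and of a product set -/
theorem h_prod_pi_marg {ι : Type*} [Fintype ι] {Ω : ι → Type*} (A : Finset α)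
    (S : ∀ i, Finset (Ω i)) (hS : ∀ i, (S i).Nonempty) (i : ι) {γ : Type*} (f : α → Ω i → γ) :
    h (A ×ˢ Fintype.piFinset S) (fun p => f p.1 (p.2 i)) =
      h (A ×ˢ S i) (fun p => f p.1 p.2) := by
  refine h_comp (T := A ×ˢ S i) (fun p : α × (∀ i, Ω i) => (p.1, p.2 i))
    (∏ j ∈ univ.erase i, (S j).card)
    (prod_pos fun j _ => card_pos.2 (hS j)) ?_ ?_ (fun p : α × Ω i => f p.1 p.2)
  · rintro ⟨a, w⟩ hp
    rw [mem_product] at hp ⊢
    exact ⟨hp.1, Fintype.mem_piFinset.1 hp.2 i⟩
  · rintro ⟨a, t⟩ hp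
    rw [mem_product] at hp
    obtain ⟨F, hF1, hF2⟩ := fib_pi S i t hp.2
    refine ⟨{a} ×ˢ F, by rw [card_product, card_singleton, one_mul, hF1], ?_⟩
    rintro ⟨x, w⟩
    simp only [mem_product, mem_singleton, Prod.mk.injEq, hF2]
    constructor
    · rintro ⟨rfl, h1, h2⟩
      exact ⟨⟨hp.1, h1⟩, rfl, h2⟩
    · rintro ⟨⟨-, h1⟩, h2, h3⟩
      exact ⟨h2, h1, h3⟩

end Pool.Agent.W5h20.Pr
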