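import Mathlib
import Pool.Agent.W5h20.Pr.Ruz

/-!
# Total correlation, and a random set of coordinates
-/

set_option autoImplicit false

namespace Pool.Agent.W5h20.Pr

open Finset Pool.Agent.Y359.PE
open scoped Classical

variable {α γ δ ε ι : Type*}

/-- tuples -/
def tp (I : Finset ι) (s : ι → α → γ) (x : α) : {i // i ∈ I} → γ := fun i => s i x

theorem tp_eq {I : Finset ι} {s : ι → α → γ} {x y : α} :
    tp I s x = tp I s y ↔ ∀ i ∈ I, s i x = s i y := by
  unfold tp
  rw [funext_iff, Subtype.forall]

/-- conditional subadditivity -/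
theorem h_tp_le (S : Finset α) (c : α → ε) (s : ι → α → γ) (I : Finset ι) :
    h S (fun x => (c x, tp I s x)) - h S c ≤ ∑ i ∈ I, (h S (fun x => (c x, s i x)) - h S c) := by
  induction I using Finset.induction_on with
  | empty =>
    rw [sum_empty]
    have : h S (fun x => (c x, tp ∅ s x)) = h S c := h_congr fun x _ y _ => by
      rw [Prod.mk.injEq, tp_eq]
      simp
    rw [this, sub_self]
  | insert i I hi ih =>
    rw [sum_insert hi]
    have h1 := submod S c (fun x => (c x, tp I s x)) (s i) (fun x _ y _ hxy => (Prod.mk.inj hxy).1)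
    have h2 : h S (fun x => ((c x, tp I s x), s i x)) = h S (fun x => (c x, tp (insert i I) s x)) :=
      h_congr fun x _ y _ => by
        rw [Prod.mk.injEq, Prod.mk.injEq, Prod.mk.injEq, tp_eq, tp_eq]
        simp only [mem_insert, forall_eq_or_imp]
        tauto
    rw [h2] at h1
    linarith

/-- **The total correlation of functions of the variables is at most that of the variables.** -/
theorem tc_le (S : Finset α) (c : α → ε) (s : ι → α → γ) (w : ι → α → δ) (I : Finset ι)
    (hsw : ∀ i ∈ I, ∀ x ∈ S, ∀ y ∈ S, w i x = w i y → s i x = s i y) :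
    ∑ i ∈ I, (h S (fun x => (c x, s i x)) - h S c) - (h S (fun x => (c x, tp I s x)) - h S c) ≤
      ∑ i ∈ I, (h S (fun x => (c x, w i x)) - h S c) -
        (h S (fun x => (c x, tp I w x)) - h S c) := by
  induction I using Finset.induction_on with
  | empty =>
    rw [sum_empty, sum_empty]
    have h1 : h S (fun x => (c x, tp ∅ s x)) = h S c := h_congr fun x _ y _ => by
      rw [Prod.mk.injEq, tp_eq]
      simp
    have h2 : h S (fun x => (c x, tp ∅ w x)) = h S c := h_congr fun x _ y _ => by
      rw [Prod.mk.injEq, tp_eq]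
      simp
    rw [h1, h2]
  | insert i I hi ih =>
    rw [sum_insert hi, sum_insert hi]
    have ih' := ih (fun j hj => hsw j (mem_insert_of_mem hj))
    have hi' := hsw i (mem_insert_self i I)
    have hI' : ∀ x ∈ S, ∀ y ∈ S, tp I w x = tp I w y → tp I s x = tp I s y := by
      intro x hx y hy hxy
      rw [tp_eq] at hxy ⊢
      exact fun j hj => hsw j (mem_insert_of_mem hj) x hx y hy (hxy j hj)
    have a := submod S (fun x => (c x, tp I s x)) (fun x => (c x, tp I w x)) (s i)
      (fun x hx y hy hxy => by
        rw [Prod.mk.injEq] at hxy ⊢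
        exact ⟨hxy.1, hI' x hx y hy hxy.2⟩)
    have b := submod S (fun x => (c x, s i x)) (fun x => (c x, w i x)) (tp I w)
      (fun x hx y hy hxy => by
        rw [Prod.mk.injEq] at hxy ⊢
        exact ⟨hxy.1, hi' x hx y hy hxy.2⟩)
    have e1 : h S (fun x => ((c x, tp I s x), s i x)) = h S (fun x => (c x, tp (insert i I) s x)) :=
      h_congr fun x _ y _ => by
        rw [Prod.mk.injEq, Prod.mk.injEq, Prod.mk.injEq, tp_eq, tp_eq]
        simp only [mem_insert, forall_eq_or_imp]
        tauto
    have e2 : h S (fun x => ((c x, tp I w x), s i x)) = h S (fun x => ((c x, s i x), tp I w x)) :=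
      h_congr fun x _ y _ => by
        rw [Prod.mk.injEq, Prod.mk.injEq, Prod.mk.injEq, Prod.mk.injEq]
        tauto
    have e3 : h S (fun x => ((c x, w i x), tp I w x)) = h S (fun x => (c x, tp (insert i I) w x)) :=
      h_congr fun x _ y _ => by
        rw [Prod.mk.injEq, Prod.mk.injEq, Prod.mk.injEq, tp_eq, tp_eq]
        simp only [mem_insert, forall_eq_or_imp]
        tauto
    rw [e1, e2] at a
    rw [e3] at b
    linarith

section setfun

variable [Fintype ι]

/-- the total correlation of the coordinates outside `J`, given those in `J` -/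
noncomputable def tau (F : Finset ι → ℝ) (J : Finset ι) : ℝ :=
  ∑ i ∈ Jᶜ, (F (insert i J) - F J) - (F univ - F J)

theorem sum_erase_le (F : Finset ι → ℝ)
    (hsub : ∀ (I J : Finset ι) (i : ι), I ⊆ J → i ∉ J →
      F (insert i J) - F J ≤ F (insert i I) - F I) (J : Finset ι) :
    ∑ i ∈ J, (F J - F (J.erase i)) ≤ F J - F ∅ := by
  have key : ∀ I : Finset ι, I ⊆ J → ∑ i ∈ I, (F J - F (J.erase i)) ≤ F I - F ∅ := by
    intro I
    induction I using Finset.induction_on with
    | empty =>
      intro _
      rw [sum_empty, sub_self]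
    | insert i I hi ih =>
      intro hIJ
      rw [sum_insert hi]
      have hiJ : i ∈ J := hIJ (mem_insert_self i I)
      have hsubI : I ⊆ J.erase i := fun x hx => mem_erase.2
        ⟨fun h => hi (h ▸ hx), hIJ (mem_insert_of_mem hx)⟩
      have h1 := hsub I (J.erase i) i hsubI (notMem_erase i J)
      rw [insert_erase hiJ] at h1
      have h2 := ih (fun x hx => hIJ (mem_insert_of_mem hx))
      linarith
  exact key J subset_rfl

/-- **A set of coordinates with small total correlations.** -/
theorem exists_split (F : Finset ι → ℝ) (hF0 : F ∅ = 0)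
    (hsub : ∀ (I J : Finset ι) (i : ι), I ⊆ J → i ∉ J →
      F (insert i J) - F J ≤ F (insert i I) - F I) {L : ℝ}
    (hsplit : ∀ I : Finset ι, F I + F Iᶜ ≤ F univ + L) :
    ∃ J : Finset ι, tau F J + tau F Jᶜ ≤ 2 * L := by
  have hcompl : ∀ G : Finset ι → ℝ, ∑ J : Finset ι, G Jᶜ = ∑ J : Finset ι, G J := by
    intro G
    exact Equiv.sum_comp (Function.Involutive.toPerm _ compl_involutive) G
  have hswap : ∑ J : Finset ι, ∑ i ∈ Jᶜ, (F (insert i J) - F J) =
      ∑ J : Finset ι, ∑ i ∈ J, (F J - F (J.erase i)) := by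
    have e1 : ∀ J : Finset ι, ∑ i ∈ Jᶜ, (F (insert i J) - F J) =
        ∑ i, if i ∉ J then (F (insert i J) - F J) else 0 := by
      intro J
      rw [← sum_filter]
      congr 1
      ext i
      simp
    have e2 : ∀ J : Finset ι, ∑ i ∈ J, (F J - F (J.erase i)) =
        ∑ i, if i ∈ J then (F J - F (J.erase i)) else 0 := by
      intro J
      rw [← sum_filter]
      congr 1
      ext i
      simp
    simp_rw [e1, e2]
    rw [sum_comm, sum_comm (s := univ (α := Finset ι))]
    refine sum_congr rfl fun i _ => ?_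
    rw [← sum_filter, ← sum_filter]
    refine sum_bij' (fun J _ => insert i J) (fun J _ => J.erase i) ?_ ?_ ?_ ?_ ?_
    · intro J hJ
      simp
    · intro J hJ
      simp
    · intro J hJ
      exact erase_insert (mem_filter.1 hJ).2
    · intro J hJ
      exact insert_erase (mem_filter.1 hJ).2
    · intro J hJ
      rw [erase_insert (mem_filter.1 hJ).2]
  have hsum : ∑ J : Finset ι, tau F J ≤ ∑ _J : Finset ι, L := by
    unfold tau
    rw [sum_sub_distrib, hswap]
    have h1 : ∑ J : Finset ι, ∑ i ∈ J, (F J - F (J.erase i)) ≤ ∑ J : Finset ι, F J := by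
      refine sum_le_sum fun J _ => ?_
      have := sum_erase_le F hsub J
      rw [hF0, sub_zero] at this
      exact this
    have h2 : ∑ J : Finset ι, (F J + F Jᶜ) ≤ ∑ _J : Finset ι, (F univ + L) :=
      sum_le_sum fun J _ => hsplit J
    rw [sum_add_distrib, hcompl F, sum_add_distrib] at h2
    rw [sum_sub_distrib]
    linarith
  have hfin : ∑ J : Finset ι, (tau F J + tau F Jᶜ) ≤ ∑ _J : Finset ι, 2 * L := by
    rw [sum_add_distrib, hcompl (tau F), ← mul_sum]
    linarith
  obtain ⟨J, -, hJ⟩ := exists_le_of_sum_le (univ_nonempty (α := Finset ι)) hfin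
  exact ⟨J, hJ⟩

end setfun

end Pool.Agent.W5h20.Pr
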