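import Mathlib
import Pool.Agent.W5h20.Pr.Tc

/-!
# Independent coordinates close to a given set
-/

set_option autoImplicit false

namespace Pool.Agent.W5h20.Pr

open Finset Pool.Agent.Y359.PE
open scoped Classical

variable {ι Γ : Type*} [AddCommGroup Γ]

/-- the coordinates -/
def co (i : ι) (a : ι → Γ) : Γ := a i

/-- the entropy of the coordinates in `I` -/
noncomputable def HH (A : Finset (ι → Γ)) (I : Finset ι) : ℝ := h A (tp I co)

theorem HH_empty (A : Finset (ι → Γ)) : HH A ∅ = 0 :=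
  h_const A _ fun x _ y _ => tp_eq.2 (by simp)

theorem HH_pair (A : Finset (ι → Γ)) (J : Finset ι) (i : ι) :
    h A (fun a => (tp J co a, co i a)) = HH A (insert i J) := by
  refine h_congr fun x _ y _ => ?_
  rw [Prod.mk.injEq, tp_eq, tp_eq]
  simp only [mem_insert, forall_eq_or_imp]
  tauto

theorem HH_submod (A : Finset (ι → Γ)) (I J : Finset ι) (i : ι) (hIJ : I ⊆ J) :
    HH A (insert i J) - HH A J ≤ HH A (insert i I) - HH A I := by
  have h1 := submod A (tp I co) (tp J co) (co i) (fun x _ y _ hxy => by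
    rw [tp_eq] at hxy ⊢
    exact fun j hj => hxy j (hIJ hj))
  rw [HH_pair, HH_pair] at h1
  exact h1

theorem HH_mono (A : Finset (ι → Γ)) {I J : Finset ι} (hIJ : I ⊆ J) : HH A I ≤ HH A J :=
  h_mono fun x _ y _ hxy => by
    rw [tp_eq] at hxy ⊢
    exact fun j hj => hxy j (hIJ hj)

variable [Fintype ι]

theorem HH_univ (A : Finset (ι → Γ)) : h A (fun a => a) = HH A univ := by
  refine h_congr fun x _ y _ => ?_
  rw [tp_eq]
  simp only [mem_univ, forall_const]
  exact funext_iff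

theorem HH_subadd (A : Finset (ι → Γ)) (J : Finset ι) : HH A univ ≤ HH A J + HH A Jᶜ := by
  have h1 := h_pair_le A (tp J co) (tp Jᶜ co)
  have h2 : HH A univ = h A (fun a => (tp J co a, tp Jᶜ co a)) := by
    refine h_congr fun x _ y _ => ?_
    rw [Prod.mk.injEq, tp_eq, tp_eq, tp_eq]
    constructor
    · intro h
      exact ⟨fun i _ => h i (mem_univ i), fun i _ => h i (mem_univ i)⟩
    · rintro ⟨h1, h2⟩ i _
      by_cases hi : i ∈ J
      · exact h1 i hi
      · exact h2 i (mem_compl.2 hi)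
  rw [h2]
  exact h1

/-- the mean distance of the conditional laws of the coordinate `i`, given those in `J` -/
noncomputable def eta (A : Finset (ι → Γ)) (J : Finset ι) (i : ι) : ℝ :=
  h (A ×ˢ A) (fun p => ((tp J co p.1, tp J co p.2), p.1 i - p.2 i)) - 2 * HH A J -
    (HH A (insert i J) - HH A J)

theorem eta_sum {A : Finset (ι → Γ)} (hA : A.Nonempty) {L : ℝ}
    (hL : hd A (fun a => a) A (fun a => a) ≤ HH A univ + 2 * L) (J : Finset ι) :
    ∑ i ∈ Jᶜ, eta A J i ≤ 2 * L + tau (HH A) J := by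
  set C : (ι → Γ) × (ι → Γ) → _ := fun p => (tp J co p.1, tp J co p.2) with hC
  set s : ι → (ι → Γ) × (ι → Γ) → Γ := fun i p => p.1 i - p.2 i with hs
  set w : ι → (ι → Γ) × (ι → Γ) → Γ × Γ := fun i p => (p.1 i, p.2 i) with hw
  have h0 := tc_le (A ×ˢ A) C s w Jᶜ (fun i _ x _ y _ hxy => by
    simp only [hw, Prod.mk.injEq] at hxy
    simp only [hs, hxy.1, hxy.2])
  have hCe : h (A ×ˢ A) C = 2 * HH A J := by
    have := h_prod hA hA (tp J co) (tp J co)
    rw [hC, this]
    unfold HH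
    ring
  have hCw : ∀ i, h (A ×ˢ A) (fun p => (C p, w i p)) = 2 * HH A (insert i J) := by
    intro i
    have h1 := h_prod hA hA (fun a => (tp J co a, co i a)) (fun a => (tp J co a, co i a))
    rw [HH_pair] at h1
    have h2 : h (A ×ˢ A) (fun p => (C p, w i p)) = h (A ×ˢ A) (fun p => ((tp J co p.1, co i p.1),
        (tp J co p.2, co i p.2))) := by
      refine h_congr fun x _ y _ => ?_
      simp only [hC, hw, Prod.mk.injEq, co]
      tauto
    rw [h2, h1]
    ring
  have hCW : h (A ×ˢ A) (fun p => (C p, tp Jᶜ w p)) = 2 * HH A univ := by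
    have h1 := h_prod hA hA (tp univ co) (tp univ co)
    have h2 : h (A ×ˢ A) (fun p => (C p, tp Jᶜ w p)) =
        h (A ×ˢ A) (fun p => (tp univ co p.1, tp univ co p.2)) := by
      refine h_congr fun x _ y _ => ?_
      simp only [hC, Prod.mk.injEq, tp_eq]
      constructor
      · rintro ⟨⟨h1, h2⟩, h3⟩
        constructor
        · intro i _
          by_cases hi : i ∈ J
          · exact h1 i hi
          · have := h3 i (mem_compl.2 hi)
            simp only [hw, Prod.mk.injEq] at this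
            exact this.1
        · intro i _
          by_cases hi : i ∈ J
          · exact h2 i hi
          · have := h3 i (mem_compl.2 hi)
            simp only [hw, Prod.mk.injEq] at this
            exact this.2
      · rintro ⟨h1, h2⟩
        refine ⟨⟨fun i _ => h1 i (mem_univ i), fun i _ => h2 i (mem_univ i)⟩, fun i _ => ?_⟩
        simp only [hw, Prod.mk.injEq]
        exact ⟨h1 i (mem_univ i), h2 i (mem_univ i)⟩
    rw [h2, h1]
    unfold HH
    ring
  have hCs : h (A ×ˢ A) (fun p => (C p, tp Jᶜ s p)) - 2 * HH A J ≤ HH A univ + 2 * L - HH A J := by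
    have h1 := submod (A ×ˢ A) (tp J s) C (fun p => p.1 - p.2) (fun x _ y _ hxy => by
      simp only [hC, Prod.mk.injEq, tp_eq] at hxy
      rw [tp_eq]
      intro i hi
      have e1 := hxy.1 i hi
      have e2 := hxy.2 i hi
      simp only [co] at e1 e2
      simp only [hs, e1, e2])
    have h2 : h (A ×ˢ A) (fun p => (C p, tp Jᶜ s p)) = h (A ×ˢ A) (fun p => (C p, p.1 - p.2)) := by
      refine h_congr fun x _ y _ => ?_
      simp only [hC, Prod.mk.injEq, tp_eq]
      constructor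
      · rintro ⟨⟨h1, h2⟩, h3⟩
        refine ⟨⟨h1, h2⟩, ?_⟩
        funext i
        by_cases hi : i ∈ J
        · have e1 := h1 i hi
          have e2 := h2 i hi
          simp only [co] at e1 e2
          rw [Pi.sub_apply, Pi.sub_apply, e1, e2]
        · exact h3 i (mem_compl.2 hi)
      · rintro ⟨h1, h2⟩
        exact ⟨h1, fun i _ => congrFun h2 i⟩
    have h3 : h (A ×ˢ A) (fun p => (tp J s p, p.1 - p.2)) = hd A (fun a => a) A (fun a => a) := by
      unfold hd
      refine h_congr fun x _ y _ => ?_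
      rw [Prod.mk.injEq, tp_eq]
      exact ⟨fun h => h.2, fun h => ⟨fun i _ => congrFun h i, h⟩⟩
    have h4 : HH A J ≤ h (A ×ˢ A) (tp J s) :=
      h_le_hd_left (S := A) (tp J co) hA (tp J co)
    rw [hCe, h3] at h1
    rw [h2]
    linarith
  rw [hCe, hCW] at h0
  simp_rw [hCw] at h0
  have hsum : ∑ i ∈ Jᶜ, eta A J i = ∑ i ∈ Jᶜ, (h (A ×ˢ A) (fun p => (C p, s i p)) - 2 * HH A J) -
      ∑ i ∈ Jᶜ, (HH A (insert i J) - HH A J) := by
    rw [← sum_sub_distrib]
    rfl
  have hsum2 : ∑ i ∈ Jᶜ, (2 * HH A (insert i J) - 2 * HH A J) =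
      2 * ∑ i ∈ Jᶜ, (HH A (insert i J) - HH A J) := by
    rw [mul_sum]
    exact sum_congr rfl fun i _ => by ring
  rw [hsum]
  rw [hsum2] at h0
  unfold tau
  linarith

theorem cl_prod {α β γ δ : Type*} (S : Finset α) (T : Finset β) (f : α → γ) (g : β → δ)
    (p : α × β) : cl (S ×ˢ T) (fun p => (f p.1, g p.2)) p = cl S f p.1 ×ˢ cl T g p.2 := by
  ext ⟨a, b⟩
  simp only [mem_cl, mem_product, Prod.mk.injEq]
  tauto

theorem cl_prod_fst {α β γ : Type*} (S : Finset α) (T : Finset β) (f : α → γ)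
    {p : α × β} : cl (S ×ˢ T) (fun p => f p.1) p = cl S f p.1 ×ˢ T := by
  ext ⟨a, b⟩
  simp only [mem_cl, mem_product]
  tauto

theorem HH_step (A : Finset (ι → Γ)) (J : Finset ι) (i : ι) :
    HH A (insert i J) - HH A J = (∑ x ∈ A, h (cl A (tp J co) x) (co i)) / A.card := by
  rw [← chain, HH_pair]
  rfl

theorem eta_avg {A : Finset (ι → Γ)} (hA : A.Nonempty) (J : Finset ι) (i : ι) :
    eta A J i = (∑ y ∈ A, (∑ x ∈ A, dR (cl A (tp J co) x) (co i) (cl A (tp J co) y) (co i)) /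
      A.card) / A.card := by
  have hA0 : (0 : ℝ) < A.card := by exact_mod_cast card_pos.2 hA
  have h1 := chain (A ×ˢ A) (fun p : (ι → Γ) × (ι → Γ) => (tp J co p.1, tp J co p.2))
    (fun p => p.1 i - p.2 i)
  have hCe : h (A ×ˢ A) (fun p : (ι → Γ) × (ι → Γ) => (tp J co p.1, tp J co p.2)) =
      2 * HH A J := by
    have := h_prod hA hA (tp J co) (tp J co)
    rw [this]
    unfold HH
    ring
  have h2 : ∑ x ∈ A ×ˢ A, h (cl (A ×ˢ A) (fun p : (ι → Γ) × (ι → Γ) =>
      (tp J co p.1, tp J co p.2)) x) (fun p => p.1 i - p.2 i) =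
      ∑ y ∈ A, ∑ x ∈ A, hd (cl A (tp J co) x) (co i) (cl A (tp J co) y) (co i) := by
    rw [sum_product_right]
    refine sum_congr rfl fun y _ => sum_congr rfl fun x _ => ?_
    rw [cl_prod]
    rfl
  rw [h2, card_product, hCe] at h1
  unfold eta
  rw [h1, HH_step]
  unfold dR
  simp only [sum_sub_distrib, ← sum_div, sum_add_distrib, sum_const, nsmul_eq_mul, ← mul_sum]
  push_cast
  field_simp
  ring

/-- the choice of a typical class -/
theorem eta_choose {A : Finset (ι → Γ)} (hA : A.Nonempty) (J : Finset ι) (i : ι) :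
    ∃ F : Finset (ι → Γ), F.Nonempty ∧ F ⊆ A ∧
      (∑ x ∈ A, dR (cl A (tp J co) x) (co i) F (co i)) / A.card ≤ eta A J i := by
  have hA0 : (0 : ℝ) < A.card := by exact_mod_cast card_pos.2 hA
  have h1 := eta_avg hA J i
  rw [eq_div_iff hA0.ne', mul_comm, ← nsmul_eq_mul, ← sum_const] at h1
  obtain ⟨y, hy, h2⟩ := exists_le_of_sum_le hA h1.ge
  exact ⟨cl A (tp J co) y, ⟨y, mem_cl.2 ⟨hy, rfl⟩⟩, fun x hx => (mem_cl.1 hx).1, h2⟩

/-- typical classes have small doubling -/
theorem dR_self_le_eta {A : Finset (ι → Γ)} (hA : A.Nonempty) {J : Finset ι} {i : ι}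
    {F : Finset (ι → Γ)} (hF : F.Nonempty) {e : ℝ}
    (h : (∑ x ∈ A, dR (cl A (tp J co) x) (co i) F (co i)) / A.card ≤ e) :
    dR F (co i) F (co i) ≤ 2 * e := by
  have hA0 : (0 : ℝ) < A.card := by exact_mod_cast card_pos.2 hA
  rw [div_le_iff₀ hA0] at h
  have h1 : ∑ x ∈ A, dR F (co i) F (co i) ≤ ∑ x ∈ A, 2 * dR (cl A (tp J co) x) (co i) F (co i) := by
    refine sum_le_sum fun x hx => ?_
    rw [dR_comm (cl A (tp J co) x)]
    exact dR_self_le hF _ ⟨x, mem_cl.2 ⟨hx, rfl⟩⟩ _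
  rw [sum_const, nsmul_eq_mul, ← mul_sum] at h1
  have h2 : (A.card : ℝ) * dR F (co i) F (co i) ≤ A.card * (2 * e) := by linarith
  exact le_of_mul_le_mul_left h2 hA0

/-- **Half of the coordinates.** -/
theorem half_le {A : Finset (ι → Γ)} (hA : A.Nonempty) (J : Finset ι) (F : ι → Finset (ι → Γ))
    (hF : ∀ i, (F i).Nonempty) (e : ι → ℝ)
    (he : ∀ i ∈ Jᶜ, (∑ x ∈ A, dR (cl A (tp J co) x) (co i) (F i) (co i)) / A.card ≤ e i) :
    h (A ×ˢ Fintype.piFinset F) (tp Jᶜ (fun i (p : (ι → Γ) × (ι → ι → Γ)) => p.1 i - p.2 i i)) ≤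
      HH A J + HH A Jᶜ - HH A univ + ∑ i ∈ Jᶜ, e i +
        (∑ i ∈ Jᶜ, (HH A (insert i J) - HH A J)) / 2 + (∑ i ∈ Jᶜ, h (F i) (co i)) / 2 := by
  have hA0 : (0 : ℝ) < A.card := by exact_mod_cast card_pos.2 hA
  have hS : (Fintype.piFinset F).Nonempty := Fintype.piFinset_nonempty.2 hF
  set S := Fintype.piFinset F with hSdef
  set s : ι → (ι → Γ) × (ι → ι → Γ) → Γ := fun i p => p.1 i - p.2 i i with hs
  have h1 := h_data (S := A ×ˢ S) (fun p => (tp Jᶜ co p.1, p.2)) (tp Jᶜ s)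
    (fun p => tp J co p.1) (fun x _ y _ hxy => by
      rw [Prod.mk.injEq, tp_eq] at hxy
      rw [tp_eq]
      intro i hi
      have e1 := hxy.1 i hi
      simp only [co] at e1
      simp only [hs, e1, hxy.2])
  have h2 : h (A ×ˢ S) (fun p : (ι → Γ) × (ι → ι → Γ) => (tp Jᶜ co p.1, p.2)) =
      HH A Jᶜ + h S (fun w => w) := h_prod hA hS (tp Jᶜ co) (fun w => w)
  have h3 : h (A ×ˢ S) (fun p : (ι → Γ) × (ι → ι → Γ) => ((tp Jᶜ co p.1, p.2), tp J co p.1)) =
      HH A univ + h S (fun w => w) := by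
    have h4 := h_prod hA hS (tp univ co) (fun w => w)
    have h5 : h (A ×ˢ S) (fun p : (ι → Γ) × (ι → ι → Γ) => ((tp Jᶜ co p.1, p.2), tp J co p.1)) =
        h (A ×ˢ S) (fun p => (tp univ co p.1, p.2)) := by
      refine h_congr fun x _ y _ => ?_
      simp only [Prod.mk.injEq, tp_eq]
      constructor
      · rintro ⟨⟨a1, a2⟩, a3⟩
        refine ⟨fun i _ => ?_, a2⟩
        by_cases hi : i ∈ J
        · exact a3 i hi
        · exact a1 i (mem_compl.2 hi)
      · rintro ⟨a1, a2⟩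
        exact ⟨⟨fun i _ => a1 i (mem_univ i), a2⟩, fun i _ => a1 i (mem_univ i)⟩
    rw [h5, h4]
    rfl
  have h4 : h (A ×ˢ S) (fun p => (tp Jᶜ s p, tp J co p.1)) =
      h (A ×ˢ S) (fun p => (tp J co p.1, tp Jᶜ s p)) := h_congr fun x _ y _ => by
    rw [Prod.mk.injEq, Prod.mk.injEq]
    tauto
  have h5 := h_tp_le (A ×ˢ S) (fun p => tp J co p.1) s Jᶜ
  have h6 : h (A ×ˢ S) (fun p : (ι → Γ) × (ι → ι → Γ) => tp J co p.1) = HH A J := h_fst hS (tp J co)
  have h7 : ∀ i ∈ Jᶜ, h (A ×ˢ S) (fun p => (tp J co p.1, s i p)) - HH A J ≤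
      e i + (HH A (insert i J) - HH A J) / 2 + h (F i) (co i) / 2 := by
    intro i hi
    have hF0 : (0 : ℝ) < (F i).card := by exact_mod_cast card_pos.2 (hF i)
    have a1 : h (A ×ˢ S) (fun p => (tp J co p.1, s i p)) =
        h (A ×ˢ F i) (fun p => (tp J co p.1, p.1 i - p.2 i)) :=
      h_prod_pi_marg A F hF i (fun a t => (tp J co a, a i - t i))
    have a2 : HH A J = h (A ×ˢ F i) (fun p : (ι → Γ) × (ι → Γ) => tp J co p.1) :=
      (h_fst (hF i) (tp J co)).symm
    have a3 := chain (A ×ˢ F i) (fun p : (ι → Γ) × (ι → Γ) => tp J co p.1)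
      (fun p => p.1 i - p.2 i)
    have a4 : ∑ p ∈ A ×ˢ F i, h (cl (A ×ˢ F i) (fun p : (ι → Γ) × (ι → Γ) => tp J co p.1) p)
        (fun p => p.1 i - p.2 i) =
        (F i).card * ∑ x ∈ A, hd (cl A (tp J co) x) (co i) (F i) (co i) := by
      rw [sum_product, mul_sum]
      refine sum_congr rfl fun x _ => ?_
      have : ∀ t ∈ F i, h (cl (A ×ˢ F i) (fun p : (ι → Γ) × (ι → Γ) => tp J co p.1) (x, t))
          (fun p => p.1 i - p.2 i) = hd (cl A (tp J co) x) (co i) (F i) (co i) := by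
        intro t _
        rw [cl_prod_fst]
        rfl
      rw [sum_congr rfl this, sum_const, nsmul_eq_mul]
    have a5 : (∑ x ∈ A, hd (cl A (tp J co) x) (co i) (F i) (co i)) / A.card =
        (∑ x ∈ A, dR (cl A (tp J co) x) (co i) (F i) (co i)) / A.card +
        (HH A (insert i J) - HH A J) / 2 + h (F i) (co i) / 2 := by
      rw [HH_step]
      unfold dR
      simp only [sum_sub_distrib, ← sum_div, sum_add_distrib, sum_const, nsmul_eq_mul]
      field_simp
      ring
    have a6 := he i hi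
    rw [a1, a2, a3, a4, card_product]
    push_cast
    rw [← a2, mul_comm (A.card : ℝ), mul_div_mul_left _ _ hF0.ne', a5]
    linarith
  have h8 := sum_le_sum h7
  simp only [sum_add_distrib, ← sum_div] at h8
  rw [h6] at h5
  rw [h2, h3, h4] at h1
  linarith

end Pool.Agent.W5h20.Pr
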