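import Mathlib
import Pool.Agent.W5h20.Pr.Fib

/-!
# A product law close to a set with small doubling which is dense in its split hulls
-/

set_option autoImplicit false

namespace Pool.Agent.W5h20.Pr

open Finset Pool.Agent.Y359.PE
open scoped Classical

variable {ι Γ : Type*} [AddCommGroup Γ] [Fintype ι]

/-- the diagonal coordinates -/
def dg (w : ι → ι → Γ) : ι → Γ := fun i => w i i

theorem h_dg (F : ι → Finset (ι → Γ)) (hF : ∀ i, (F i).Nonempty) :
    h (Fintype.piFinset F) dg = ∑ i, h (F i) (co i) :=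
  h_pi F hF (fun i a => a i)

/-- **Independent coordinates.** -/
theorem near_indep {A : Finset (ι → Γ)} (hA : A.Nonempty) {L : ℝ}
    (hL : hd A (fun a => a) A (fun a => a) ≤ HH A univ + 2 * L)
    (hsplit : ∀ I : Finset ι, HH A I + HH A Iᶜ ≤ HH A univ + L) :
    ∃ F : ι → Finset (ι → Γ), (∀ i, (F i).Nonempty) ∧ (∀ i, F i ⊆ A) ∧
      dR A (fun a => a) (Fintype.piFinset F) dg ≤ 9 * L ∧
      ∑ i, dR (F i) (co i) (F i) (co i) ≤ 12 * L ∧
      ∀ i, ∃ J : Finset ι, i ∉ J ∧ dR (F i) (co i) (F i) (co i) ≤ 2 * eta A J i := by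
  obtain ⟨J, hJ⟩ := exists_split (HH A) (HH_empty A) (fun I J i hIJ _ => HH_submod A I J i hIJ)
    hsplit
  choose F1 hF1 hF1A hF1e using eta_choose hA J
  choose F2 hF2 hF2A hF2e using eta_choose hA Jᶜ
  set F : ι → Finset (ι → Γ) := fun i => if i ∈ J then F2 i else F1 i with hFdef
  have hF : ∀ i, (F i).Nonempty := by
    intro i
    simp only [hFdef]
    split_ifs
    · exact hF2 i
    · exact hF1 i
  have hFA : ∀ i, F i ⊆ A := by
    intro i
    simp only [hFdef]
    split_ifs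
    · exact hF2A i
    · exact hF1A i
  have hFin : ∀ i ∈ J, F i = F2 i := fun i hi => by simp only [hFdef, if_pos hi]
  have hFout : ∀ i ∈ Jᶜ, F i = F1 i := fun i hi => by
    simp only [hFdef, if_neg (mem_compl.1 hi)]
  have hA0 : (0 : ℝ) < A.card := by exact_mod_cast card_pos.2 hA
  have hS : (Fintype.piFinset F).Nonempty := Fintype.piFinset_nonempty.2 hF
  have a1 := half_le hA J F hF (eta A J) (fun i hi => by
    rw [hFout i hi]
    exact hF1e i)
  have a2 := half_le hA Jᶜ F hF (eta A Jᶜ) (fun i hi => by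
    rw [compl_compl] at hi
    rw [hFin i hi]
    exact hF2e i)
  rw [compl_compl] at a2
  have b1 := eta_sum hA hL J
  have b2 := eta_sum hA hL Jᶜ
  rw [compl_compl] at b2
  have t1 : ∑ i ∈ Jᶜ, (HH A (insert i J) - HH A J) = tau (HH A) J + (HH A univ - HH A J) := by
    unfold tau
    ring
  have t2 : ∑ i ∈ J, (HH A (insert i Jᶜ) - HH A Jᶜ) = tau (HH A) Jᶜ + (HH A univ - HH A Jᶜ) := by
    unfold tau
    rw [compl_compl]
    ring
  have s1 := hsplit J
  have s2 := HH_subadd A J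
  have hsum := sum_add_sum_compl J (fun i => h (F i) (co i))
  -- the two halves together
  have c1 := h_pair_le (A ×ˢ Fintype.piFinset F)
    (tp Jᶜ (fun i (p : (ι → Γ) × (ι → ι → Γ)) => p.1 i - p.2 i i))
    (tp J (fun i (p : (ι → Γ) × (ι → ι → Γ)) => p.1 i - p.2 i i))
  have c2 : hd A (fun a => a) (Fintype.piFinset F) dg = h (A ×ˢ Fintype.piFinset F)
      (fun p => (tp Jᶜ (fun i (p : (ι → Γ) × (ι → ι → Γ)) => p.1 i - p.2 i i) p,
        tp J (fun i (p : (ι → Γ) × (ι → ι → Γ)) => p.1 i - p.2 i i) p)) := by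
    unfold hd
    refine h_congr fun x _ y _ => ?_
    rw [Prod.mk.injEq, tp_eq, tp_eq, funext_iff]
    constructor
    · intro h
      exact ⟨fun i _ => h i, fun i _ => h i⟩
    · rintro ⟨h1, h2⟩ i
      by_cases hi : i ∈ J
      · exact h2 i hi
      · exact h1 i (mem_compl.2 hi)
  refine ⟨F, hF, hFA, ?_, ?_, ?_⟩
  · unfold dR
    rw [h_dg F hF, HH_univ, c2]
    rw [t1] at a1
    rw [t2] at a2
    linarith
  · rw [← sum_add_sum_compl J]
    have d1 : ∑ i ∈ J, dR (F i) (co i) (F i) (co i) ≤ ∑ i ∈ J, 2 * eta A Jᶜ i :=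
      sum_le_sum fun i hi => by
        rw [hFin i hi]
        exact dR_self_le_eta hA (hF2 i) (hF2e i)
    have d2 : ∑ i ∈ Jᶜ, dR (F i) (co i) (F i) (co i) ≤ ∑ i ∈ Jᶜ, 2 * eta A J i :=
      sum_le_sum fun i hi => by
        rw [hFout i hi]
        exact dR_self_le_eta hA (hF1 i) (hF1e i)
    rw [← mul_sum] at d1 d2
    linarith
  · intro i
    by_cases hi : i ∈ J
    · refine ⟨Jᶜ, by simpa using hi, ?_⟩
      rw [hFin i hi]
      exact dR_self_le_eta hA (hF2 i) (hF2e i)
    · refine ⟨J, hi, ?_⟩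
      rw [hFout i (mem_compl.2 hi)]
      exact dR_self_le_eta hA (hF1 i) (hF1e i)

end Pool.Agent.W5h20.Pr
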