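import Mathlib
import Pool.Agent.W5h20.Pr.Near

/-!
# Identically distributed coordinates
-/

set_option autoImplicit false

namespace Pool.Agent.W5h20.Pr

open Finset Pool.Agent.Y359.PE
open scoped Classical

variable {ι Γ : Type*} [AddCommGroup Γ] [Fintype ι]

/-- independent coordinates -/
def pr {Ω : Type*} (f : ι → Ω → Γ) (w : ι → Ω) : ι → Γ := fun i => f i (w i)

theorem h_pr {Ω : Type*} (F : ι → Finset Ω) (hF : ∀ i, (F i).Nonempty) (f : ι → Ω → Γ) :
    h (Fintype.piFinset F) (pr f) = ∑ i, h (F i) (f i) :=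
  h_pi F hF f

theorem hd_pr {Ω Ω' : Type*} (F : ι → Finset Ω) (hF : ∀ i, (F i).Nonempty) (f : ι → Ω → Γ)
    (F' : ι → Finset Ω') (hF' : ∀ i, (F' i).Nonempty) (f' : ι → Ω' → Γ) :
    hd (Fintype.piFinset F) (pr f) (Fintype.piFinset F') (pr f') =
      ∑ i, hd (F i) (f i) (F' i) (f' i) := by
  have h1 := h_pi (fun i => F i ×ˢ F' i) (fun i => (hF i).product (hF' i))
    (fun i (q : Ω × Ω') => f i q.1 - f' i q.2)
  have h2 := h_comp (S := Fintype.piFinset F ×ˢ Fintype.piFinset F')
    (T := Fintype.piFinset fun i => F i ×ˢ F' i)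
    (fun (p : (ι → Ω) × (ι → Ω')) i => (p.1 i, p.2 i)) 1 one_pos
    (by
      rintro ⟨a, b⟩ hp
      rw [mem_product, Fintype.mem_piFinset, Fintype.mem_piFinset] at hp
      rw [Fintype.mem_piFinset]
      exact fun i => mem_product.2 ⟨hp.1 i, hp.2 i⟩)
    (by
      intro t ht
      rw [Fintype.mem_piFinset] at ht
      refine ⟨{(fun i => (t i).1, fun i => (t i).2)}, card_singleton _, ?_⟩
      rintro ⟨a, b⟩
      rw [mem_singleton, Prod.mk.injEq, mem_product, Fintype.mem_piFinset, Fintype.mem_piFinset]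
      constructor
      · rintro ⟨rfl, rfl⟩
        exact ⟨⟨fun i => (mem_product.1 (ht i)).1, fun i => (mem_product.1 (ht i)).2⟩, rfl⟩
      · rintro ⟨-, rfl⟩
        exact ⟨rfl, rfl⟩)
    (fun (t : ι → Ω × Ω') i => f i (t i).1 - f' i (t i).2)
  rw [h1] at h2
  exact h2

theorem dR_pr {Ω Ω' : Type*} (F : ι → Finset Ω) (hF : ∀ i, (F i).Nonempty) (f : ι → Ω → Γ)
    (F' : ι → Finset Ω') (hF' : ∀ i, (F' i).Nonempty) (f' : ι → Ω' → Γ) :
    dR (Fintype.piFinset F) (pr f) (Fintype.piFinset F') (pr f') =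
      ∑ i, dR (F i) (f i) (F' i) (f' i) := by
  unfold dR
  rw [hd_pr F hF f F' hF' f', h_pr F hF f, h_pr F' hF' f', sum_sub_distrib, ← sum_div,
    sum_add_distrib]

/-- the permuted product law -/
theorem dR_perm (F : ι → Finset (ι → Γ)) (hF : ∀ i, (F i).Nonempty) (π : Equiv.Perm ι) :
    dR (Fintype.piFinset F) dg (Fintype.piFinset F) (fun w i => w (π i) (π i)) =
      ∑ i, dR (F i) (co i) (F (π i)) (co (π i)) := by
  have h1 := dR_pr F hF (fun i a => a i) (fun i => F (π i)) (fun i => hF (π i))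
    (fun i a => a (π i))
  have hmap : ∀ w ∈ Fintype.piFinset F, (fun i => w (π i)) ∈ Fintype.piFinset fun i => F (π i) := by
    intro w hw
    rw [Fintype.mem_piFinset] at hw ⊢
    exact fun i => hw (π i)
  have hfib : ∀ v ∈ Fintype.piFinset (fun i => F (π i)), ∀ w : ι → ι → Γ,
      w = (fun i => v (π.symm i)) ↔ w ∈ Fintype.piFinset F ∧ (fun i => w (π i)) = v := by
    intro v hv w
    rw [Fintype.mem_piFinset] at hv ⊢
    constructor
    · rintro rfl
      refine ⟨fun i => ?_, ?_⟩
      · have := hv (π.symm i)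
        rwa [Equiv.apply_symm_apply] at this
      · funext i
        show v (π.symm (π i)) = v i
        rw [Equiv.symm_apply_apply]
    · rintro ⟨-, rfl⟩
      funext i
      show w i = w (π (π.symm i))
      rw [Equiv.apply_symm_apply]
  have h2 : h (Fintype.piFinset F) (fun (w : ι → ι → Γ) i => w (π i) (π i)) =
      h (Fintype.piFinset fun i => F (π i)) (pr fun i a => a (π i)) := by
    refine h_comp (fun (w : ι → ι → Γ) i => w (π i)) 1 one_pos hmap ?_ (pr fun i a => a (π i))
    intro v hv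
    refine ⟨{fun i => v (π.symm i)}, card_singleton _, fun w => ?_⟩
    rw [mem_singleton]
    exact hfib v hv w
  have h3 : hd (Fintype.piFinset F) dg (Fintype.piFinset F) (fun w i => w (π i) (π i)) =
      hd (Fintype.piFinset F) (pr fun i a => a i) (Fintype.piFinset fun i => F (π i))
        (pr fun i a => a (π i)) := by
    unfold hd
    refine h_comp (S := Fintype.piFinset F ×ˢ Fintype.piFinset F)
      (T := Fintype.piFinset F ×ˢ Fintype.piFinset fun i => F (π i))
      (fun p : (ι → ι → Γ) × (ι → ι → Γ) => (p.1, fun i => p.2 (π i))) 1 one_pos ?_ ?_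
      (fun p => pr (fun i a => a i) p.1 - pr (fun i a => a (π i)) p.2)
    · rintro ⟨a, b⟩ hp
      rw [mem_product] at hp ⊢
      exact ⟨hp.1, hmap _ hp.2⟩
    · rintro ⟨a, b⟩ hp
      rw [mem_product] at hp
      refine ⟨{(a, fun i => b (π.symm i))}, card_singleton _, ?_⟩
      rintro ⟨x, y⟩
      rw [mem_singleton, Prod.mk.injEq, mem_product, Prod.mk.injEq]
      constructor
      · rintro ⟨rfl, hy⟩
        obtain ⟨h4, h5⟩ := (hfib b hp.2 y).1 hy
        exact ⟨⟨hp.1, h4⟩, rfl, h5⟩
      · rintro ⟨⟨-, h4⟩, rfl, h5⟩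
        exact ⟨rfl, (hfib b hp.2 y).2 ⟨h4, h5⟩⟩
  unfold dR at h1 ⊢
  rw [h3, h2]
  exact h1

theorem transitive_count (G : Subgroup (Equiv.Perm ι)) [Fintype G]
    (hG : ∀ i j : ι, ∃ π ∈ G, π i = j) (i : ι) (φ : ι → ℝ) :
    (Fintype.card ι : ℝ) * ∑ π : G, φ ((π : Equiv.Perm ι) i) = (Fintype.card G : ℝ) * ∑ j, φ j := by
  set m : ι → ℕ := fun j => (univ.filter fun π : G => (π : Equiv.Perm ι) i = j).card with hm
  have h1 : ∀ j k, m j = m k := by
    intro j k
    obtain ⟨σ, hσ, hσj⟩ := hG j k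
    refine card_bij' (fun π _ => (⟨σ, hσ⟩ : G) * π) (fun π _ => (⟨σ, hσ⟩ : G)⁻¹ * π) ?_ ?_ ?_ ?_
    · intro π hπ
      rw [mem_filter] at hπ ⊢
      refine ⟨mem_univ _, ?_⟩
      show σ ((π : Equiv.Perm ι) i) = k
      rw [hπ.2, hσj]
    · intro π hπ
      rw [mem_filter] at hπ ⊢
      refine ⟨mem_univ _, ?_⟩
      show σ⁻¹ ((π : Equiv.Perm ι) i) = j
      rw [hπ.2, Equiv.Perm.inv_eq_iff_eq]
      exact hσj.symm
    · intro π _
      rw [inv_mul_cancel_left]
    · intro π _
      rw [mul_inv_cancel_left]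
  have h2 : ∑ π : G, φ ((π : Equiv.Perm ι) i) = ∑ j, (m j : ℝ) * φ j := by
    rw [← sum_fiberwise_of_maps_to (fun π (_ : π ∈ (univ : Finset G)) =>
      mem_univ ((π : Equiv.Perm ι) i))]
    refine sum_congr rfl fun j _ => ?_
    have : ∑ π ∈ univ.filter (fun π : G => (π : Equiv.Perm ι) i = j), φ ((π : Equiv.Perm ι) i) =
        ∑ π ∈ univ.filter (fun π : G => (π : Equiv.Perm ι) i = j), φ j :=
      sum_congr rfl fun π hπ => by rw [(mem_filter.1 hπ).2]
    rw [this, sum_const, nsmul_eq_mul]
  have h3 : Fintype.card G = ∑ j, m j := by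
    rw [← card_univ, card_eq_sum_card_fiberwise (f := fun π : G => (π : Equiv.Perm ι) i)
      (t := univ) (fun π _ => mem_univ _)]
  have h4 : ∀ j, Fintype.card G = Fintype.card ι * m j := by
    intro j
    rw [h3, sum_congr rfl (fun k _ => h1 k j), sum_const, card_univ, smul_eq_mul]
  rw [h2, mul_sum, mul_sum]
  refine sum_congr rfl fun j _ => ?_
  rw [h4 j]
  push_cast
  ring

/-- **Identically distributed coordinates.** -/
theorem near_iid {A : Finset (ι → Γ)} (hA : A.Nonempty) [Nonempty ι] {L : ℝ}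
    (hL : hd A (fun a => a) A (fun a => a) ≤ HH A univ + 2 * L)
    (hsplit : ∀ I : Finset ι, HH A I + HH A Iᶜ ≤ HH A univ + L)
    (G : Subgroup (Equiv.Perm ι)) (hG : ∀ i j : ι, ∃ π ∈ G, π i = j)
    (hperm : ∀ π ∈ G, hd A (fun a => a) A (fun a i => a (π i)) ≤ HH A univ + 2 * L) :
    ∃ (F : Finset (ι → Γ)) (j : ι), F.Nonempty ∧
      dR A (fun a => a) (Fintype.piFinset fun _ : ι => F) (pr fun _ a => a j) ≤ 29 * L ∧
      (Fintype.card ι : ℝ) * dR F (co j) F (co j) ≤ 40 * L := by
  obtain ⟨F, hF, -, hd1, -, -⟩ := near_indep hA hL hsplit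
  have hS : (Fintype.piFinset F).Nonempty := Fintype.piFinset_nonempty.2 hF
  have := Fintype.ofFinite G
  -- distances of permuted laws
  have key : ∀ π ∈ G, ∑ i, dR (F i) (co i) (F (π i)) (co (π i)) ≤ 20 * L := by
    intro π hπ
    rw [← dR_perm F hF π]
    have e0 : h A (fun a i => a (π i)) = h A (fun a => a) := by
      refine h_congr fun x _ y _ => ?_
      constructor
      · intro h
        funext i
        have := congrFun h (π.symm i)
        simpa using this
      · rintro rfl
        rfl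
    have e1 : dR A (fun a => a) A (fun a i => a (π i)) ≤ 2 * L := by
      unfold dR
      rw [e0]
      have := hperm π hπ
      rw [← HH_univ] at this
      linarith
    have e2 : dR A (fun a i => a (π i)) (Fintype.piFinset F) (fun w i => w (π i) (π i)) =
        dR A (fun a => a) (Fintype.piFinset F) dg := by
      unfold dR
      rw [e0]
      congr 1
      · unfold hd
        refine h_congr fun x _ y _ => ?_
        constructor
        · intro h
          funext i
          have := congrFun h (π.symm i)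
          simpa [dg] using this
        · intro h
          funext i
          exact congrFun h (π i)
      · congr 2
        refine h_congr fun x _ y _ => ?_
        constructor
        · intro h
          funext i
          have := congrFun h (π.symm i)
          simpa [dg] using this
        · intro h
          funext i
          exact congrFun h (π i)
    have e3 := dR_tri hS dg hA (fun a => a) hS (fun (w : ι → ι → Γ) i => w (π i) (π i))
    have e4 := dR_tri hA (fun a => a) hA (fun a i => a (π i)) hS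
      (fun (w : ι → ι → Γ) i => w (π i) (π i))
    rw [dR_comm] at e3
    rw [dR_comm (Fintype.piFinset F) dg] at e3
    rw [dR_comm (Fintype.piFinset F)]
    rw [e2] at e4
    linarith
  -- a good coordinate
  have hn : (0 : ℝ) < Fintype.card ι := by exact_mod_cast Fintype.card_pos
  have hg : (0 : ℝ) < Fintype.card G := by exact_mod_cast Fintype.card_pos
  have hsum : ∑ j, ∑ i, dR (F i) (co i) (F j) (co j) ≤ ∑ _j : ι, 20 * L := by
    have h1 : ∑ π : G, ∑ i, dR (F i) (co i) (F ((π : Equiv.Perm ι) i)) (co ((π : Equiv.Perm ι) i)) ≤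
        ∑ _π : G, 20 * L := sum_le_sum fun π _ => key π π.2
    have h2 : (Fintype.card ι : ℝ) * ∑ π : G, ∑ i, dR (F i) (co i) (F ((π : Equiv.Perm ι) i))
        (co ((π : Equiv.Perm ι) i)) = (Fintype.card G : ℝ) *
        ∑ j, ∑ i, dR (F i) (co i) (F j) (co j) := by
      rw [sum_comm, mul_sum, sum_comm (s := univ (α := ι)) (t := univ (α := ι)), mul_sum]
      exact sum_congr rfl fun i _ =>
        transitive_count G hG i (fun j => dR (F i) (co i) (F j) (co j))
    rw [sum_const, nsmul_eq_mul, card_univ] at h1 ⊢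
    have h3 := mul_le_mul_of_nonneg_left h1 hn.le
    rw [h2] at h3
    have h4 : (Fintype.card G : ℝ) * ∑ j, ∑ i, dR (F i) (co i) (F j) (co j) ≤
        (Fintype.card G : ℝ) * ((Fintype.card ι : ℝ) * (20 * L)) := by linarith
    exact le_of_mul_le_mul_left h4 hg
  obtain ⟨j, -, hj⟩ := exists_le_of_sum_le univ_nonempty hsum
  refine ⟨F j, j, hF j, ?_, ?_⟩
  · have h1 := dR_tri hA (fun a => a) hS dg
      (Fintype.piFinset_nonempty.2 fun _ : ι => hF j) (pr fun (_ : ι) (a : ι → Γ) => a j)
    have h2 : dR (Fintype.piFinset F) dg (Fintype.piFinset fun _ : ι => F j)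
        (pr fun _ a => a j) = ∑ i, dR (F i) (co i) (F j) (co j) :=
      dR_pr F hF (fun i a => a i) (fun _ => F j) (fun _ => hF j) (fun _ a => a j)
    rw [h2] at h1
    linarith
  · have h1 : ∑ _i : ι, dR (F j) (co j) (F j) (co j) ≤
        ∑ i, 2 * dR (F i) (co i) (F j) (co j) := by
      refine sum_le_sum fun i _ => ?_
      rw [dR_comm (F i)]
      exact dR_self_le (hF j) _ (hF i) _
    rw [sum_const, nsmul_eq_mul, card_univ, ← mul_sum] at h1
    linarith

end Pool.Agent.W5h20.Pr
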