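import Mathlib
import Pool.Agent.W5h20.Pr.Symm

/-!
# Coordinates with one law in each orbit
-/

set_option autoImplicit false

namespace Pool.Agent.W5h20.Pr

open Finset Pool.Agent.Y359.PE
open scoped Classical

variable {ι Γ : Type*} [AddCommGroup Γ] [Fintype ι]

/-- the orbit of a coordinate -/
noncomputable def orb (G : Subgroup (Equiv.Perm ι)) (i : ι) : Finset ι :=
  univ.filter fun j => ∃ π ∈ G, π i = j

theorem mem_orb {G : Subgroup (Equiv.Perm ι)} {i j : ι} : j ∈ orb G i ↔ ∃ π ∈ G, π i = j := by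
  simp [orb]

theorem self_mem_orb (G : Subgroup (Equiv.Perm ι)) (i : ι) : i ∈ orb G i :=
  mem_orb.2 ⟨1, G.one_mem, rfl⟩

theorem orb_symm {G : Subgroup (Equiv.Perm ι)} {i j : ι} (h : j ∈ orb G i) : i ∈ orb G j := by
  obtain ⟨π, hπ, rfl⟩ := mem_orb.1 h
  exact mem_orb.2 ⟨π⁻¹, G.inv_mem hπ, by simp⟩

theorem orb_trans {G : Subgroup (Equiv.Perm ι)} {i j k : ι} (h : j ∈ orb G i) (h' : k ∈ orb G j) :
    k ∈ orb G i := by
  obtain ⟨π, hπ, rfl⟩ := mem_orb.1 h
  obtain ⟨σ, hσ, rfl⟩ := mem_orb.1 h'
  exact mem_orb.2 ⟨σ * π, G.mul_mem hσ hπ, rfl⟩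

theorem orb_eq {G : Subgroup (Equiv.Perm ι)} {i j : ι} (h : j ∈ orb G i) : orb G j = orb G i := by
  ext k
  exact ⟨fun hk => orb_trans h hk, fun hk => orb_trans (orb_symm h) hk⟩

theorem orb_pos (G : Subgroup (Equiv.Perm ι)) (i : ι) : (0 : ℝ) < (orb G i).card := by
  exact_mod_cast card_pos.2 ⟨i, self_mem_orb G i⟩

theorem orbit_count (G : Subgroup (Equiv.Perm ι)) [Fintype G] (i : ι) (φ : ι → ℝ) :
    ∑ π : G, φ ((π : Equiv.Perm ι) i) =
      (Fintype.card G : ℝ) * ((∑ j ∈ orb G i, φ j) / (orb G i).card) := by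
  set m : ι → ℕ := fun j => (univ.filter fun π : G => (π : Equiv.Perm ι) i = j).card with hm
  have h1 : ∀ j ∈ orb G i, m j = m i := by
    intro j hj
    obtain ⟨σ, hσ, hσj⟩ := mem_orb.1 (orb_symm hj)
    refine card_bij' (fun π _ => (⟨σ, hσ⟩ : G) * π) (fun π _ => (⟨σ, hσ⟩ : G)⁻¹ * π) ?_ ?_ ?_ ?_
    · intro π hπ
      rw [mem_filter] at hπ ⊢
      refine ⟨mem_univ _, ?_⟩
      show σ ((π : Equiv.Perm ι) i) = i
      rw [hπ.2, hσj]
    · intro π hπ
      rw [mem_filter] at hπ ⊢
      refine ⟨mem_univ _, ?_⟩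
      show σ⁻¹ ((π : Equiv.Perm ι) i) = j
      rw [hπ.2, Equiv.Perm.inv_eq_iff_eq]
      exact hσj.symm
    · intro π _
      rw [inv_mul_cancel_left]
    · intro π _
      rw [mul_inv_cancel_left]
  have h2 : ∑ π : G, φ ((π : Equiv.Perm ι) i) = ∑ j ∈ orb G i, (m j : ℝ) * φ j := by
    rw [← sum_fiberwise_of_maps_to (s := (univ : Finset G)) (t := orb G i)
      (g := fun π : G => (π : Equiv.Perm ι) i) (fun π _ => mem_orb.2 ⟨π, π.2, rfl⟩)]
    refine sum_congr rfl fun j _ => ?_
    have : ∑ π ∈ univ.filter (fun π : G => (π : Equiv.Perm ι) i = j), φ ((π : Equiv.Perm ι) i) =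
        ∑ π ∈ univ.filter (fun π : G => (π : Equiv.Perm ι) i = j), φ j :=
      sum_congr rfl fun π hπ => by rw [(mem_filter.1 hπ).2]
    rw [this, sum_const, nsmul_eq_mul]
  have h3 : (Fintype.card G : ℝ) = (orb G i).card * m i := by
    have h4 : Fintype.card G = ∑ j ∈ orb G i, m j := by
      rw [← card_univ, card_eq_sum_card_fiberwise (f := fun π : G => (π : Equiv.Perm ι) i)
        (t := orb G i) (fun π _ => mem_orb.2 ⟨π, π.2, rfl⟩)]
    rw [sum_congr rfl h1, sum_const, smul_eq_mul] at h4
    exact_mod_cast h4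
  have h5 := orb_pos G i
  rw [h2, sum_congr rfl (fun j hj => by rw [h1 j hj]), ← mul_sum, h3]
  field_simp

/-- averaging over the orbits -/
theorem orbit_avg (G : Subgroup (Equiv.Perm ι)) (φ : ι → ℝ) :
    ∑ i, (∑ k ∈ orb G i, φ k) / (orb G i).card = ∑ k, φ k := by
  have h1 : ∀ i, (∑ k ∈ orb G i, φ k) / (orb G i).card =
      ∑ k, if k ∈ orb G i then φ k / (orb G k).card else 0 := by
    intro i
    rw [sum_div, ← sum_filter]
    have : univ.filter (fun k => k ∈ orb G i) = orb G i := by ext; simp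
    rw [this]
    exact sum_congr rfl fun k hk => by rw [orb_eq hk]
  rw [sum_congr rfl fun i _ => h1 i, sum_comm]
  refine sum_congr rfl fun k _ => ?_
  rw [← sum_filter, sum_const, nsmul_eq_mul]
  have h2 : univ.filter (fun i => k ∈ orb G i) = orb G k := by
    ext i
    simp only [mem_filter, mem_univ, true_and]
    exact ⟨orb_symm, orb_symm⟩
  rw [h2]
  have h5 := orb_pos G k
  field_simp

/-- **A choice of one coordinate in each orbit.** -/
theorem orbit_choice (G : Subgroup (Equiv.Perm ι)) (d : ι → ι → ℝ) {M : ℝ}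
    (hM : ∀ π ∈ G, ∑ i, d i (π i) ≤ M) :
    ∃ j : ι → ι, (∀ i, j i ∈ orb G i) ∧ (∀ i, ∀ k ∈ orb G i, j k = j i) ∧
      ∑ i, d i (j i) ≤ M := by
  have := Fintype.ofFinite G
  -- a minimiser in each orbit
  set S : ι → ℝ := fun j => ∑ k ∈ orb G j, d k j with hS
  set R : Setoid ι := ⟨fun i k => k ∈ orb G i, fun i => self_mem_orb G i, fun h => orb_symm h,
    fun h h' => orb_trans h h'⟩ with hR
  have hmin : ∀ c : Quotient R, ∃ j ∈ orb G c.out, ∀ k ∈ orb G c.out, S j ≤ S k :=
    fun c => exists_min_image _ S ⟨_, self_mem_orb G _⟩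
  choose q hq1 hq2 using hmin
  have hout : ∀ i, orb G (Quotient.mk R i).out = orb G i := fun i => by
    have h1 : i ∈ orb G (Quotient.mk R i).out := Quotient.exact (Quotient.out_eq (Quotient.mk R i))
    exact (orb_eq h1).symm
  refine ⟨fun i => q (Quotient.mk R i), fun i => ?_, fun i k hk => ?_, ?_⟩
  · have := hq1 (Quotient.mk R i)
    rwa [hout i] at this
  · have h1 : Quotient.mk R i = Quotient.mk R k := Quotient.sound hk
    show q _ = q _
    rw [h1]
  · set j : ι → ι := fun i => q (Quotient.mk R i) with hj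
    have hj1 : ∀ i, j i ∈ orb G i := fun i => by
      have := hq1 (Quotient.mk R i)
      rwa [hout i] at this
    have hj2 : ∀ i, ∀ k ∈ orb G i, j k = j i := fun i k hk => by
      have h1 : Quotient.mk R i = Quotient.mk R k := Quotient.sound hk
      show q _ = q _
      rw [h1]
    have hj3 : ∀ i, S (j i) ≤ S i := fun i =>
      hq2 (Quotient.mk R i) i (by rw [hout i]; exact self_mem_orb G i)
    have h1 : ∑ i, d i (j i) ≤ ∑ i, S i / (orb G i).card := by
      rw [← orbit_avg G (fun i => d i (j i))]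
      refine sum_le_sum fun i _ => ?_
      have h2 : ∑ k ∈ orb G i, d k (j k) = S (j i) := by
        rw [hS]
        simp only
        rw [orb_eq (hj1 i)]
        exact sum_congr rfl fun k hk => by rw [hj2 i k hk]
      rw [h2]
      exact div_le_div_of_nonneg_right (hj3 i) (orb_pos G i).le
    have h2 : ∑ i, S i / (orb G i).card = ∑ i, (∑ k ∈ orb G i, d i k) / (orb G i).card := by
      have e1 : ∀ i, S i / (orb G i).card = ∑ k, if k ∈ orb G i then d k i / (orb G i).card else 0 := by
        intro i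
        rw [hS, sum_div, ← sum_filter]
        have : univ.filter (fun k => k ∈ orb G i) = orb G i := by ext; simp
        rw [this]
      have e2 : ∀ i, (∑ k ∈ orb G i, d i k) / (orb G i).card =
          ∑ k, if k ∈ orb G i then d i k / (orb G i).card else 0 := by
        intro i
        rw [sum_div, ← sum_filter]
        have : univ.filter (fun k => k ∈ orb G i) = orb G i := by ext; simp
        rw [this]
      rw [sum_congr rfl fun i _ => e1 i, sum_congr rfl fun i _ => e2 i, sum_comm]
      refine sum_congr rfl fun i _ => sum_congr rfl fun k _ => ?_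
      by_cases h : i ∈ orb G k
      · rw [if_pos h, if_pos (orb_symm h), orb_eq h]
      · rw [if_neg h, if_neg fun h' => h (orb_symm h')]
    have h3 : (Fintype.card G : ℝ) * ∑ i, (∑ k ∈ orb G i, d i k) / (orb G i).card ≤
        Fintype.card G * M := by
      rw [mul_sum]
      calc ∑ i, (Fintype.card G : ℝ) * ((∑ k ∈ orb G i, d i k) / (orb G i).card)
          = ∑ i, ∑ π : G, d i ((π : Equiv.Perm ι) i) :=
            sum_congr rfl fun i _ => (orbit_count G i (fun k => d i k)).symm
        _ = ∑ π : G, ∑ i, d i ((π : Equiv.Perm ι) i) := sum_comm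
        _ ≤ ∑ _π : G, M := sum_le_sum fun π _ => hM π π.2
        _ = Fintype.card G * M := by rw [sum_const, nsmul_eq_mul, card_univ]
    have hg : (0 : ℝ) < Fintype.card G := by exact_mod_cast Fintype.card_pos
    have h4 := le_of_mul_le_mul_left h3 hg
    rw [← h2] at h4
    exact h1.trans h4

/-- **One law in each orbit.** -/
theorem near_orbits {A : Finset (ι → Γ)} (hA : A.Nonempty) {L : ℝ}
    (hL : hd A (fun a => a) A (fun a => a) ≤ HH A univ + 2 * L)
    (hsplit : ∀ I : Finset ι, HH A I + HH A Iᶜ ≤ HH A univ + L)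
    (G : Subgroup (Equiv.Perm ι))
    (hperm : ∀ π ∈ G, hd A (fun a => a) A (fun a i => a (π i)) ≤ HH A univ + 2 * L) :
    ∃ (F : ι → Finset (ι → Γ)) (j : ι → ι), (∀ i, (F i).Nonempty) ∧
      dR A (fun a => a) (Fintype.piFinset fun i => F (j i)) (pr fun i a => a (j i)) ≤ 29 * L ∧
      ∑ i, dR (F (j i)) (co (j i)) (F (j i)) (co (j i)) ≤ 40 * L ∧
      (∀ i, ((orb G i).card : ℝ) * dR (F (j i)) (co (j i)) (F (j i)) (co (j i)) ≤ 40 * L) ∧
      (∀ i, j i ∈ orb G i) ∧
      ∀ i, ∃ J : Finset ι, i ∉ J ∧ dR (F i) (co i) (F i) (co i) ≤ 2 * eta A J i := by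
  obtain ⟨F, hF, -, hd1, -, hJ⟩ := near_indep hA hL hsplit
  have hS : (Fintype.piFinset F).Nonempty := Fintype.piFinset_nonempty.2 hF
  -- distances of permuted laws
  have key : ∀ π ∈ G, ∑ i, dR (F i) (co i) (F (π i)) (co (π i)) ≤ 20 * L := by
    intro π hπ
    rw [← dR_perm F hF π]
    have e0 : h A (fun a i => a (π i)) = h A (fun a => a) := by
      refine h_congr fun x _ y _ => ?_
      constructor
      · intro h
        funext i
        have := congrFun h (π.symm i)
        simpa using this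
      · rintro rfl
        rfl
    have e1 : dR A (fun a => a) A (fun a i => a (π i)) ≤ 2 * L := by
      unfold dR
      rw [e0]
      have := hperm π hπ
      rw [← HH_univ] at this
      linarith
    have e2 : dR A (fun a i => a (π i)) (Fintype.piFinset F) (fun w i => w (π i) (π i)) =
        dR A (fun a => a) (Fintype.piFinset F) dg := by
      unfold dR
      rw [e0]
      congr 1
      · unfold hd
        refine h_congr fun x _ y _ => ?_
        constructor
        · intro h
          funext i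
          have := congrFun h (π.symm i)
          simpa [dg] using this
        · intro h
          funext i
          exact congrFun h (π i)
      · congr 2
        refine h_congr fun x _ y _ => ?_
        constructor
        · intro h
          funext i
          have := congrFun h (π.symm i)
          simpa [dg] using this
        · intro h
          funext i
          exact congrFun h (π i)
    have e3 := dR_tri hS dg hA (fun a => a) hS (fun (w : ι → ι → Γ) i => w (π i) (π i))
    have e4 := dR_tri hA (fun a => a) hA (fun a i => a (π i)) hS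
      (fun (w : ι → ι → Γ) i => w (π i) (π i))
    rw [dR_comm] at e3
    rw [dR_comm (Fintype.piFinset F) dg] at e3
    rw [dR_comm (Fintype.piFinset F)]
    rw [e2] at e4
    linarith
  obtain ⟨j, hj1, hj2, hj3⟩ := orbit_choice G (fun i k => dR (F i) (co i) (F k) (co k)) key
  refine ⟨F, j, hF, ?_, ?_, ?_, hj1, hJ⟩
  · have h1 := dR_tri hA (fun a => a) hS dg
      (Fintype.piFinset_nonempty.2 fun i : ι => hF (j i)) (pr fun (i : ι) (a : ι → Γ) => a (j i))
    have h2 : dR (Fintype.piFinset F) dg (Fintype.piFinset fun i : ι => F (j i))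
        (pr fun i a => a (j i)) = ∑ i, dR (F i) (co i) (F (j i)) (co (j i)) :=
      dR_pr F hF (fun i a => a i) (fun i => F (j i)) (fun i => hF (j i)) (fun i a => a (j i))
    rw [h2] at h1
    linarith
  · have h1 : ∑ i : ι, dR (F (j i)) (co (j i)) (F (j i)) (co (j i)) ≤
        ∑ i, 2 * dR (F i) (co i) (F (j i)) (co (j i)) := by
      refine sum_le_sum fun i _ => ?_
      rw [dR_comm (F i)]
      exact dR_self_le (hF (j i)) _ (hF i) _
    rw [← mul_sum] at h1
    linarith
  · intro i
    have h1 : ∑ _k ∈ orb G i, dR (F (j i)) (co (j i)) (F (j i)) (co (j i)) ≤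
        ∑ k ∈ orb G i, 2 * dR (F k) (co k) (F (j k)) (co (j k)) := by
      refine sum_le_sum fun k hk => ?_
      rw [hj2 i k hk, dR_comm (F k)]
      exact dR_self_le (hF (j i)) _ (hF k) _
    have h2 : ∑ k ∈ orb G i, dR (F k) (co k) (F (j k)) (co (j k)) ≤
        ∑ k, dR (F k) (co k) (F (j k)) (co (j k)) :=
      sum_le_sum_of_subset_of_nonneg (subset_univ _) fun k _ _ => dR_nonneg (hF k) _ (hF (j k)) _
    rw [sum_const, nsmul_eq_mul, ← mul_sum] at h1
    linarith

end Pool.Agent.W5h20.Pr
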