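import Mathlib
import Pool.Agent.W5h20.Pr.Ruz
import Pool.Agent.H217R3.AK.Bsg

/-!
# Sets close to laws with small doubling
-/

set_option autoImplicit false

namespace Pool.Agent.W5h20.Pr

open Finset Pool.Agent.Y359.PE
open scoped Classical Pointwise

variable {α β V : Type*} [AddCommGroup V]

/-- the number of the pairs of elements of `S` with the given difference -/
noncomputable def rp (S : Finset α) (f : α → V) (v : V) : ℕ :=
  ((S ×ˢ S).filter fun p => f p.1 - f p.2 = v).card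

theorem rp_pos {S : Finset α} {f : α → V} {x y : α} (hx : x ∈ S) (hy : y ∈ S) :
    0 < rp S f (f x - f y) :=
  card_pos.2 ⟨(x, y), mem_filter.2 ⟨mem_product.2 ⟨hx, hy⟩, rfl⟩⟩

theorem fc_eq_rp (S : Finset α) (f : α → V) (p : α × α) :
    fc (S ×ˢ S) (fun p => f p.1 - f p.2) p = rp S f (f p.1 - f p.2) := rfl

theorem weight_le (S : Finset α) (f : α → V) (T : Finset β) (z : β → V) :
    ∑ b ∈ T, (rp S f (z b) : ℝ) / fc T z b ≤ (S.card : ℝ) ^ 2 := by
  have h1 : ∀ b ∈ T, (rp S f (z b) : ℝ) / fc T z b =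
      ∑ p ∈ S ×ˢ S, if z b = f p.1 - f p.2 then (1 : ℝ) / fc T z b else 0 := by
    intro b _
    rw [← sum_filter, sum_const, nsmul_eq_mul]
    unfold rp
    have : (S ×ˢ S).filter (fun p => f p.1 - f p.2 = z b) =
        (S ×ˢ S).filter (fun p => z b = f p.1 - f p.2) :=
      filter_congr fun p _ => eq_comm
    rw [this]
    ring
  rw [sum_congr rfl h1, sum_comm]
  calc ∑ p ∈ S ×ˢ S, ∑ b ∈ T, (if z b = f p.1 - f p.2 then (1 : ℝ) / fc T z b else 0)
      ≤ ∑ p ∈ S ×ˢ S, (1 : ℝ) := by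
        refine sum_le_sum fun p _ => ?_
        rw [← sum_filter]
        exact sum_inv_fc_fiber T z _
    _ = _ := by
        rw [sum_const, nsmul_eq_mul, card_product]
        push_cast
        ring

/-- **entropy is at most cross-entropy** -/
theorem cross {S : Finset α} (hS : S.Nonempty) (f : α → V) {T : Finset β} (hT : T.Nonempty)
    (z : β → V) (hpos : ∀ b ∈ T, 0 < rp S f (z b)) :
    h T z ≤ (∑ b ∈ T, (2 * Real.log S.card - Real.log (rp S f (z b)))) / T.card := by
  have hS0 : (0 : ℝ) < S.card := by exact_mod_cast card_pos.2 hS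
  have hT0 : (0 : ℝ) < T.card := by exact_mod_cast card_pos.2 hT
  unfold h
  refine div_le_div_of_nonneg_right ?_ hT0.le
  have h1 : ∀ b ∈ T, Real.log T.card - Real.log (fc T z b) ≤
      (2 * Real.log S.card - Real.log (rp S f (z b))) +
        ((rp S f (z b) : ℝ) / fc T z b * (T.card / (S.card : ℝ) ^ 2) - 1) := by
    intro b hb
    have a1 : (0 : ℝ) < rp S f (z b) := by exact_mod_cast hpos b hb
    have a2 := fc_posR (f := z) hb
    have a3 := Real.log_le_sub_one_of_pos
      (show (0 : ℝ) < (rp S f (z b) : ℝ) / fc T z b * (T.card / (S.card : ℝ) ^ 2) by positivity)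
    have a4 : Real.log ((rp S f (z b) : ℝ) / fc T z b * (T.card / (S.card : ℝ) ^ 2)) =
        Real.log (rp S f (z b)) - Real.log (fc T z b) + (Real.log T.card - 2 * Real.log S.card) := by
      rw [Real.log_mul (by positivity) (by positivity), Real.log_div a1.ne' a2.ne',
        Real.log_div hT0.ne' (by positivity), Real.log_pow]
      push_cast
      ring
    linarith
  refine (sum_le_sum h1).trans ?_
  rw [sum_add_distrib, sum_sub_distrib (f := fun b => (rp S f (z b) : ℝ) / fc T z b *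
    (T.card / (S.card : ℝ) ^ 2)), ← sum_mul, sum_const, nsmul_eq_mul, mul_one]
  have h2 := mul_le_mul_of_nonneg_right (weight_le S f T z)
    (show (0 : ℝ) ≤ T.card / (S.card : ℝ) ^ 2 by positivity)
  have h3 : (S.card : ℝ) ^ 2 * (T.card / (S.card : ℝ) ^ 2) = T.card := by
    field_simp
  rw [h3] at h2
  linarith

/-- the mean of the information of `f x - f y` over `x` -/
noncomputable def mi (S : Finset α) (f : α → V) (y : α) : ℝ :=
  (∑ x ∈ S, (2 * Real.log S.card - Real.log (rp S f (f x - f y)))) / S.card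

/-- the mean positive part -/
noncomputable def gg (S : Finset α) (f : α → V) (y : α) : ℝ :=
  (∑ x ∈ S, max (Real.log (fc S f y) - Real.log S.card +
    (2 * Real.log S.card - Real.log (rp S f (f x - f y)))) 0) / S.card

theorem mi_ge {S : Finset α} (f : α → V) {y : α} (hy : y ∈ S) : h S f ≤ mi S f y := by
  have h1 := cross ⟨y, hy⟩ f ⟨y, hy⟩ (fun x => f x - f y) (fun x hx => rp_pos hx hy)
  have h2 : h S (fun x => f x - f y) = h S f := h_congr fun x _ x' _ => by
    rw [sub_left_inj]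
  rw [h2] at h1
  exact h1

theorem mi_avg {S : Finset α} (hS : S.Nonempty) (f : α → V) :
    (∑ y ∈ S, mi S f y) / S.card = hd S f S f := by
  have hS0 : (0 : ℝ) < S.card := by exact_mod_cast card_pos.2 hS
  unfold hd h mi
  rw [← sum_div, div_div, sum_product_right, card_product]
  push_cast
  congr 1
  refine sum_congr rfl fun y _ => sum_congr rfl fun x _ => ?_
  rw [fc_eq_rp, Real.log_mul hS0.ne' hS0.ne']
  ring

theorem gg_nonneg (S : Finset α) (f : α → V) (y : α) : 0 ≤ gg S f y :=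
  div_nonneg (sum_nonneg fun _ _ => le_max_right _ _) (Nat.cast_nonneg _)

theorem gg_ge {S : Finset α} (f : α → V) {y : α} (hy : y ∈ S) :
    Real.log (fc S f y) - Real.log S.card + mi S f y ≤ gg S f y := by
  have hS0 : (0 : ℝ) < S.card := by exact_mod_cast card_pos.2 ⟨y, hy⟩
  unfold gg mi
  rw [le_div_iff₀ hS0, add_mul, div_mul_cancel₀ _ hS0.ne', mul_comm, ← nsmul_eq_mul, ← sum_const,
    ← sum_add_distrib]
  exact sum_le_sum fun x _ => le_max_left _ _

theorem gg_avg {S : Finset α} (hS : S.Nonempty) (f : α → V) :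
    (∑ y ∈ S, gg S f y) / S.card ≤ hd S f S f - h S f + 1 := by
  have hS0 : (0 : ℝ) < S.card := by exact_mod_cast card_pos.2 hS
  have h1 : ∀ y ∈ S, gg S f y ≤ Real.log (fc S f y) - Real.log S.card + mi S f y +
      (∑ x ∈ S, (rp S f (f x - f y) : ℝ) / (S.card * fc S f y)) / S.card := by
    intro y hy
    unfold gg mi
    rw [div_le_iff₀ hS0, add_mul, add_mul, div_mul_cancel₀ _ hS0.ne', div_mul_cancel₀ _ hS0.ne',
      mul_comm (Real.log (fc S f y) - Real.log S.card), ← nsmul_eq_mul, ← sum_const,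
      ← sum_add_distrib, ← sum_add_distrib]
    refine sum_le_sum fun x hx => ?_
    have a1 : (0 : ℝ) < rp S f (f x - f y) := by exact_mod_cast rp_pos hx hy
    have a2 := fc_posR (f := f) hy
    set t := Real.log (fc S f y) - Real.log S.card +
      (2 * Real.log S.card - Real.log (rp S f (f x - f y))) with ht
    have a3 : Real.exp (-t) = (rp S f (f x - f y) : ℝ) / (S.card * fc S f y) := by
      have : -t = Real.log ((rp S f (f x - f y) : ℝ) / (S.card * fc S f y)) := by
        rw [Real.log_div a1.ne' (by positivity), Real.log_mul hS0.ne' a2.ne', ht]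
        ring
      rw [this, Real.exp_log (by positivity)]
    rw [← a3]
    have a4 := Real.add_one_le_exp (-t)
    have a5 := Real.exp_pos (-t)
    rcases le_total t 0 with h0 | h0
    · rw [max_eq_right h0]
      linarith
    · rw [max_eq_left h0]
      linarith
  have h2 := sum_le_sum h1
  rw [sum_add_distrib, sum_add_distrib, ← sum_div] at h2
  have h3 : ∑ y ∈ S, ∑ x ∈ S, (rp S f (f x - f y) : ℝ) / (S.card * fc S f y) ≤
      (S.card : ℝ) ^ 2 := by
    rw [sum_comm]
    have h4 : ∀ x ∈ S, ∑ y ∈ S, (rp S f (f x - f y) : ℝ) / (S.card * fc S f y) ≤ S.card := by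
      intro x hx
      have h5 := weight_le S f S (fun y => f x - f y)
      have h6 : ∀ y ∈ S, fc S (fun y => f x - f y) y = fc S f y := by
        intro y hy
        unfold fc
        rw [cl_eq_of_iff (f := fun y => f x - f y) (g := f)
          (fun a _ b _ => by rw [sub_right_inj]) hy]
      have h7 : ∑ y ∈ S, (rp S f (f x - f y) : ℝ) / (S.card * fc S f y) =
          (∑ y ∈ S, (rp S f (f x - f y) : ℝ) / fc S (fun y => f x - f y) y) / S.card := by
        rw [sum_div]
        refine sum_congr rfl fun y hy => ?_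
        rw [h6 y hy, div_div, mul_comm]
      rw [h7, div_le_iff₀ hS0]
      linarith
    refine (sum_le_sum h4).trans ?_
    rw [sum_const, nsmul_eq_mul]
    linarith
  have h4 : (∑ y ∈ S, mi S f y) = hd S f S f * S.card := by
    rw [← mi_avg hS f, div_mul_cancel₀ _ hS0.ne']
  have h5 : ∑ y ∈ S, (Real.log (fc S f y) - Real.log S.card) = -(h S f * S.card) := by
    unfold h
    rw [div_mul_cancel₀ _ hS0.ne', ← sum_neg_distrib]
    exact sum_congr rfl fun y _ => by ring
  rw [h4, h5] at h2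
  rw [div_le_iff₀ hS0]
  have h6 : (∑ y ∈ S, ∑ x ∈ S, (rp S f (f x - f y) : ℝ) / (S.card * fc S f y)) / S.card ≤
      S.card := by
    rw [div_le_iff₀ hS0]
    linarith
  nlinarith

/-- **A set of typical values.** -/
theorem law_set {S : Finset α} (hS : S.Nonempty) (f : α → V) {δ : ℝ} (hδ0 : 0 ≤ δ)
    (hδ : hd S f S f ≤ h S f + δ) :
    ∃ Θ : Finset V, Θ.Nonempty ∧ Θ ⊆ S.image f ∧ h S f - 4 * (δ + 1) - 1 ≤ Real.log Θ.card ∧
      ∀ Θ' ⊆ Θ, Θ'.Nonempty → hd S f Θ' (fun t => t) ≤ h S f + 4 * (δ + 1) := by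
  have hS0 : (0 : ℝ) < S.card := by exact_mod_cast card_pos.2 hS
  set S0 := S.filter fun y => (mi S f y - h S f) + gg S f y ≤ 4 * (δ + 1) with hS0def
  -- Markov
  have hbig : (S.card : ℝ) ≤ 2 * S0.card := by
    set B := S.filter fun y => ¬ ((mi S f y - h S f) + gg S f y ≤ 4 * (δ + 1)) with hB
    have hcard : S0.card + B.card = S.card := card_filter_add_card_filter_not _
    have h1 : ∑ y ∈ S, ((mi S f y - h S f) + gg S f y) ≤ (2 * (δ + 1)) * S.card := by
      rw [sum_add_distrib, sum_sub_distrib, sum_const, nsmul_eq_mul]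
      have a1 : (∑ y ∈ S, mi S f y) = hd S f S f * S.card := by
        rw [← mi_avg hS f, div_mul_cancel₀ _ hS0.ne']
      have a2 := gg_avg hS f
      rw [div_le_iff₀ hS0] at a2
      rw [a1]
      nlinarith
    have h2 : (4 * (δ + 1)) * B.card ≤ ∑ y ∈ B, ((mi S f y - h S f) + gg S f y) := by
      rw [mul_comm, ← nsmul_eq_mul, ← sum_const]
      exact sum_le_sum fun y hy => (not_le.1 (mem_filter.1 hy).2).le
    have h3 : ∑ y ∈ B, ((mi S f y - h S f) + gg S f y) ≤
        ∑ y ∈ S, ((mi S f y - h S f) + gg S f y) :=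
      sum_le_sum_of_subset_of_nonneg (filter_subset _ _) fun y hy _ =>
        add_nonneg (sub_nonneg.2 (mi_ge f hy)) (gg_nonneg S f y)
    have h4 : (4 * (δ + 1)) * B.card ≤ (2 * (δ + 1)) * S.card := h2.trans (h3.trans h1)
    have h5 : (B.card : ℝ) * 2 ≤ S.card := by
      have : (2 * (δ + 1)) * ((B.card : ℝ) * 2) ≤ (2 * (δ + 1)) * S.card := by linarith
      exact le_of_mul_le_mul_left this (by linarith)
    have h6 : (S0.card : ℝ) + B.card = S.card := by exact_mod_cast hcard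
    linarith
  have hS0ne : S0.Nonempty := by
    rw [← card_pos]
    by_contra hcon
    have : S0.card = 0 := by omega
    rw [this] at hbig
    push_cast at hbig
    linarith
  have hmem : ∀ y ∈ S0, y ∈ S ∧ mi S f y ≤ h S f + 4 * (δ + 1) ∧
      Real.log (fc S f y) - Real.log S.card + h S f ≤ 4 * (δ + 1) := by
    intro y hy
    obtain ⟨h1, h2⟩ := mem_filter.1 hy
    have h3 := gg_nonneg S f y
    have h4 := gg_ge f h1
    have h5 := mi_ge f h1
    exact ⟨h1, by linarith, by linarith⟩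
  refine ⟨S0.image f, hS0ne.image f, image_subset_image (filter_subset _ _), ?_, ?_⟩
  · -- the number of typical values
    have h1 : (S0.card : ℝ) ≤ (S0.image f).card * (S.card * Real.exp (4 * (δ + 1) - h S f)) := by
      rw [card_eq_sum_card_image f S0]
      push_cast
      rw [← nsmul_eq_mul, ← sum_const]
      refine sum_le_sum fun t ht => ?_
      obtain ⟨y, hy, rfl⟩ := mem_image.1 ht
      obtain ⟨h2, -, h3⟩ := hmem y hy
      have h4 : (S0.filter fun x => f x = f y).card ≤ fc S f y := by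
        refine card_le_card fun x hx => ?_
        rw [mem_filter] at hx
        exact mem_cl.2 ⟨(mem_filter.1 hx.1).1, hx.2⟩
      have h5 : (fc S f y : ℝ) ≤ S.card * Real.exp (4 * (δ + 1) - h S f) := by
        rw [← Real.exp_log (fc_posR (f := f) h2)]
        have : (S.card : ℝ) = Real.exp (Real.log S.card) := (Real.exp_log hS0).symm
        rw [this, ← Real.exp_add]
        exact Real.exp_le_exp.2 (by linarith)
      exact (by exact_mod_cast h4 : (((S0.filter fun x => f x = f y).card : ℕ) : ℝ) ≤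
        fc S f y).trans h5
    have hΘ0 : (0 : ℝ) < (S0.image f).card := by exact_mod_cast card_pos.2 (hS0ne.image f)
    have h2 : (1 : ℝ) / 2 ≤ (S0.image f).card * Real.exp (4 * (δ + 1) - h S f) := by
      have h3 : (S.card : ℝ) * (1 / 2) ≤
          S.card * ((S0.image f).card * Real.exp (4 * (δ + 1) - h S f)) := by
        calc (S.card : ℝ) * (1 / 2) ≤ S0.card := by linarith
          _ ≤ _ := h1
          _ = _ := by ring
      exact le_of_mul_le_mul_left h3 hS0
    have h3 := Real.log_le_log (by norm_num) h2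
    rw [Real.log_mul hΘ0.ne' (Real.exp_pos _).ne', Real.log_exp, one_div, Real.log_inv] at h3
    have h4 := Real.log_two_lt_d9
    linarith
  · intro Θ' hΘ' hne
    have hΘ'0 : (0 : ℝ) < Θ'.card := by exact_mod_cast card_pos.2 hne
    have h1 := cross hS f (hS.product hne) (fun p : α × V => f p.1 - p.2) (by
      rintro ⟨x, t⟩ hp
      rw [mem_product] at hp
      obtain ⟨y, hy, rfl⟩ := mem_image.1 (hΘ' hp.2)
      exact rp_pos hp.1 (hmem y hy).1)
    refine h1.trans ?_
    rw [sum_product_right, card_product]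
    have h2 : ∀ t ∈ Θ', ∑ x ∈ S, (2 * Real.log S.card - Real.log (rp S f (f x - t))) ≤
        (h S f + 4 * (δ + 1)) * S.card := by
      intro t ht
      obtain ⟨y, hy, rfl⟩ := mem_image.1 (hΘ' ht)
      have h3 := (hmem y hy).2.1
      unfold mi at h3
      rwa [div_le_iff₀ hS0] at h3
    have h3 := sum_le_sum h2
    rw [sum_const, nsmul_eq_mul] at h3
    push_cast
    rw [div_le_iff₀ (mul_pos hS0 hΘ'0)]
    linarith

/-- **Energy.** -/
theorem energy_ge {Θ : Finset V} (hΘ : Θ.Nonempty) {E : ℝ}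
    (hE : hd Θ (fun t => t) Θ (fun t => t) ≤ Real.log Θ.card + E) :
    (Θ.card : ℝ) ^ 3 ≤ Real.exp E * (Θ.addEnergy Θ : ℕ) := by
  have h0 : (0 : ℝ) < Θ.card := by exact_mod_cast card_pos.2 hΘ
  have hne := hΘ.product hΘ
  have hcp : ((Θ ×ˢ Θ).card : ℝ) = (Θ.card : ℝ) ^ 2 := by
    rw [card_product]
    push_cast
    ring
  -- the energy as a sum
  have hen : ((Θ.addEnergy Θ : ℕ) : ℝ) =
      ∑ p ∈ Θ ×ˢ Θ, (fc (Θ ×ˢ Θ) (fun p : V × V => p.1 - p.2) p : ℝ) := by
    have h1 : ∑ p ∈ Θ ×ˢ Θ, fc (Θ ×ˢ Θ) (fun p : V × V => p.1 - p.2) p =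
        (((Θ ×ˢ Θ) ×ˢ (Θ ×ˢ Θ)).filter fun q => q.2.1 - q.2.2 = q.1.1 - q.1.2).card := by
      rw [card_filter, sum_product (s := Θ ×ˢ Θ) (t := Θ ×ˢ Θ)]
      refine sum_congr rfl fun p _ => ?_
      unfold fc cl
      rw [card_filter]
    have h2 : (((Θ ×ˢ Θ) ×ˢ (Θ ×ˢ Θ)).filter fun q : (V × V) × (V × V) =>
        q.2.1 - q.2.2 = q.1.1 - q.1.2).card = Θ.addEnergy Θ := by
      unfold Finset.addEnergy
      refine card_bij' (fun q _ => ((q.1.1, q.2.1), (q.2.2, q.1.2)))
        (fun q _ => ((q.1.1, q.2.2), (q.1.2, q.2.1))) ?_ ?_ ?_ ?_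
      · rintro ⟨⟨a, b⟩, ⟨c, d⟩⟩ hq
        simp only [mem_filter, mem_product] at hq ⊢
        obtain ⟨⟨⟨h1, h2⟩, h3, h4⟩, h5⟩ := hq
        refine ⟨⟨⟨h1, h3⟩, h4, h2⟩, ?_⟩
        rw [sub_eq_sub_iff_add_eq_add] at h5
        rw [← h5]
      · rintro ⟨⟨a, b⟩, ⟨c, d⟩⟩ hq
        simp only [mem_filter, mem_product] at hq ⊢
        obtain ⟨⟨⟨h1, h2⟩, h3, h4⟩, h5⟩ := hq
        refine ⟨⟨⟨h1, h4⟩, h2, h3⟩, ?_⟩
        rw [sub_eq_sub_iff_add_eq_add]
        rw [← h5]
      · rintro ⟨⟨a, b⟩, ⟨c, d⟩⟩ _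
        rfl
      · rintro ⟨⟨a, b⟩, ⟨c, d⟩⟩ _
        rfl
    rw [← h2, ← h1]
    push_cast
    rfl
  set Q : ℝ := ∑ p ∈ Θ ×ˢ Θ, (fc (Θ ×ˢ Θ) (fun p : V × V => p.1 - p.2) p : ℝ) with hQ
  have hQ0 : 0 < Q := sum_pos (fun p hp => fc_posR hp) hne
  -- the mean logarithm
  have h1 : (Real.log Θ.card - E) * (Θ.card : ℝ) ^ 2 ≤
      ∑ p ∈ Θ ×ˢ Θ, Real.log (fc (Θ ×ˢ Θ) (fun p : V × V => p.1 - p.2) p) := by
    unfold hd h at hE
    rw [sum_sub_distrib, sum_const, nsmul_eq_mul, hcp, div_le_iff₀ (by positivity),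
      Real.log_pow] at hE
    push_cast at hE
    nlinarith
  have h2 : ∀ p ∈ Θ ×ˢ Θ, Real.log (fc (Θ ×ˢ Θ) (fun p : V × V => p.1 - p.2) p) ≤
      Real.log (Q / (Θ.card : ℝ) ^ 2) +
      ((fc (Θ ×ˢ Θ) (fun p : V × V => p.1 - p.2) p : ℝ) * ((Θ.card : ℝ) ^ 2 / Q) - 1) := by
    intro p hp
    have a1 := fc_posR (f := fun p : V × V => p.1 - p.2) hp
    have a2 := Real.log_le_sub_one_of_pos (show (0 : ℝ) <
      (fc (Θ ×ˢ Θ) (fun p : V × V => p.1 - p.2) p : ℝ) * ((Θ.card : ℝ) ^ 2 / Q) by positivity)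
    rw [Real.log_mul a1.ne' (by positivity), Real.log_div (by positivity) hQ0.ne'] at a2
    rw [Real.log_div hQ0.ne' (by positivity)]
    linarith
  have h3 := h1.trans (sum_le_sum h2)
  rw [sum_add_distrib, sum_sub_distrib, ← sum_mul, ← hQ, sum_const, sum_const, nsmul_eq_mul,
    nsmul_eq_mul, mul_one, hcp] at h3
  have h4 : Q * ((Θ.card : ℝ) ^ 2 / Q) = (Θ.card : ℝ) ^ 2 := by field_simp
  rw [h4, sub_self, add_zero] at h3
  have h5 : Real.log Θ.card - E ≤ Real.log (Q / (Θ.card : ℝ) ^ 2) := by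
    have : (Θ.card : ℝ) ^ 2 * (Real.log Θ.card - E) ≤
        (Θ.card : ℝ) ^ 2 * Real.log (Q / (Θ.card : ℝ) ^ 2) := by linarith
    exact le_of_mul_le_mul_left this (by positivity)
  have h6 : (Θ.card : ℝ) * Real.exp (-E) ≤ Q / (Θ.card : ℝ) ^ 2 := by
    rw [← Real.log_le_log_iff (by positivity) (by positivity),
      Real.log_mul h0.ne' (Real.exp_pos _).ne', Real.log_exp]
    linarith
  rw [hen]
  rw [le_div_iff₀ (by positivity)] at h6
  have h7 : Real.exp E * Real.exp (-E) = 1 := by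
    rw [← Real.exp_add, add_neg_cancel, Real.exp_zero]
  calc (Θ.card : ℝ) ^ 3 = (Real.exp E * Real.exp (-E)) * (Θ.card : ℝ) ^ 3 := by rw [h7, one_mul]
    _ = Real.exp E * (Θ.card * Real.exp (-E) * (Θ.card : ℝ) ^ 2) := by ring
    _ ≤ Real.exp E * Q := mul_le_mul_of_nonneg_left h6 (Real.exp_pos _).le

end Pool.Agent.W5h20.Pr
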