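import Mathlib
import Pool.Agent.W5h20.Pr.Law
import Pool.Agent.H112R2.Final
import Pool.Agent.Y806.DF.D

/-!
# A coset progression close to a law with small doubling
-/

set_option autoImplicit false

namespace Pool.Agent.W5h20.Pr

open Finset Pool.Agent.Y359.PE Pool.Agent.Y806.DF
open scoped Classical Pointwise

variable {α β V : Type*} [AddCommGroup V]

/-- `P` is a dense subset of a translate of a coset progression. -/
def CP (M : ℝ) (P : Finset V) : Prop :=
  ∃ (d : ℕ) (X : Finset (Fin d → ℤ)) (ψ : (Fin d → ℤ) →+ V) (H : AddSubgroup V) (g : V),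
    X.Nonempty ∧ Finite H ∧ ((X + X).card : ℝ) ≤ M * X.card ∧ hull X ⊆ (X : Set (Fin d → ℤ)) ∧
    (X.card : ℝ) * Nat.card H ≤ M * P.card ∧ ∀ p ∈ P, ∃ x ∈ X, ∃ k ∈ H, p = g + ψ x + k

theorem CP.mono {M M' : ℝ} {P : Finset V} (h : CP M P) (hM : M ≤ M') : CP M' P := by
  obtain ⟨d, X, ψ, H, g, h1, h2, h3, h4, h5, h6⟩ := h
  exact ⟨d, X, ψ, H, g, h1, h2, h3.trans (mul_le_mul_of_nonneg_right hM (Nat.cast_nonneg _)), h4,
    h5.trans (mul_le_mul_of_nonneg_right hM (Nat.cast_nonneg _)), h6⟩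

theorem near_block {B : Finset V} (hB : B.Nonempty) {K κ : ℝ}
    (hK : ((B + B).card : ℝ) ≤ K * B.card) (hκ : Real.log (2 * K) ≤ κ) :
    ∃ P ⊆ B, P.Nonempty ∧
      (B.card : ℝ) ≤ Real.exp (13000 * κ * (1 + Real.log (1 + κ))) * P.card ∧
      CP (Real.exp (13000 * κ * (1 + Real.log (1 + κ)))) P := by
  have hK1 : 1 ≤ K := one_le_K hB hK
  have hl0 : 0 < Real.log (2 * K) := Real.log_pos (by linarith)
  have hκ0 : 0 < κ := lt_of_lt_of_le hl0 hκ
  obtain ⟨d, Bd, ψ, H, T, hd, hbody, hH, hvol, hT, hcov⟩ := H112.near_pfr hB hK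
  have hsym : Sym Bd := ⟨hbody.1, hbody.2.1, hbody.2.2.2, hbody.2.2.1.mono interior_subset⟩
  have hfin : (lat Bd).Finite := lat_finite hbody.2.1.isBounded
  have hlog1 : 0 ≤ Real.log (1 + κ) := Real.log_nonneg (by linarith)
  -- the number of translates
  have hT' : (T.card : ℝ) ≤ Real.exp (13000 * κ * (1 + Real.log (1 + κ))) := by
    refine hT.trans ?_
    rw [Real.rpow_def_of_pos (by linarith)]
    refine Real.exp_le_exp.2 ?_
    have h1 : Real.log (1 + Real.log (2 * K)) ≤ Real.log (1 + κ) :=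
      Real.log_le_log (by linarith) (by linarith)
    have h2 : 0 ≤ Real.log (1 + Real.log (2 * K)) := Real.log_nonneg (by linarith)
    calc Real.log (2 * K) * (13000 * (1 + Real.log (1 + Real.log (2 * K))))
        ≤ κ * (13000 * (1 + Real.log (1 + κ))) :=
          mul_le_mul hκ (by linarith) (by linarith) hκ0.le
      _ = _ := by ring
  -- the popular translate
  obtain ⟨t, ht, ht2⟩ := pigeon T B B hB (fun t a => ∃ x ∈ hfin.toFinset, ∃ h ∈ H, a = t + ψ x + h)
    subset_rfl (by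
      intro a ha
      obtain ⟨t, ht, x, hx, h, hh, e⟩ := hcov a ha
      exact ⟨t, ht, x, (Set.Finite.mem_toFinset _).2 hx, h, hh, e⟩)
  set P := B.filter fun a => ∃ x ∈ hfin.toFinset, ∃ h ∈ H, a = t + ψ x + h with hP
  have hbig : (B.card : ℝ) ≤ Real.exp (13000 * κ * (1 + Real.log (1 + κ))) * P.card := by
    calc (B.card : ℝ) ≤ T.card * P.card := by exact_mod_cast ht2
      _ ≤ _ := mul_le_mul_of_nonneg_right hT' (Nat.cast_nonneg _)
  have hB0 : (0 : ℝ) < B.card := by exact_mod_cast card_pos.2 hB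
  have hPne : P.Nonempty := by
    rw [← card_pos]
    by_contra hcon
    have h0 : P.card = 0 := by omega
    rw [h0, Nat.cast_zero, mul_zero] at hbig
    linarith
  refine ⟨P, filter_subset _ _, hPne, hbig, d, hfin.toFinset, ψ, H, t, ?_, hH, ?_, ?_, ?_, ?_⟩
  · refine ⟨0, ?_⟩
    rw [Set.Finite.mem_toFinset]
    show re 0 ∈ Bd
    have : re (0 : Fin d → ℤ) = 0 := by funext i; simp [re]
    rw [this]
    exact hsym.zero
  · have h1 : (hfin.toFinset + hfin.toFinset).card ≤ num Bd 2 := by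
      rw [num, Set.ncard_eq_toFinset_card _ (hsym.finite 2)]
      refine Finset.card_le_card ?_
      intro x hx
      obtain ⟨a, ha, b, hb, rfl⟩ := Finset.mem_add.1 hx
      rw [Set.Finite.mem_toFinset] at ha hb ⊢
      have ha' : a ∈ lat ((1 : ℝ) • Bd) := by rw [one_smul]; exact ha
      have hb' : b ∈ lat ((1 : ℝ) • Bd) := by rw [one_smul]; exact hb
      have h2 := hsym.add (by norm_num) (by norm_num) ha' hb'
      norm_num at h2
      exact h2
    have h2 : num Bd 2 ≤ 4 ^ d * hfin.toFinset.card := by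
      have h3 := num_double hsym (t := 1) (by norm_num)
      rw [mul_one] at h3
      have h4 : num Bd 1 = hfin.toFinset.card := by
        rw [num, one_smul]
        exact Set.ncard_eq_toFinset_card _ hfin
      rwa [h4] at h3
    have h3 : (4 : ℝ) ^ d ≤ Real.exp (13000 * κ * (1 + Real.log (1 + κ))) := by
      rw [← Real.exp_log (show (0 : ℝ) < (4 : ℝ) ^ d by positivity)]
      refine Real.exp_le_exp.2 ?_
      rw [Real.log_pow]
      have e2 : Real.log 4 ≤ 2 := by
        rw [show (4 : ℝ) = 2 ^ 2 by norm_num, Real.log_pow]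
        have := Real.log_two_lt_d9
        push_cast
        linarith
      have e3 : (0 : ℝ) ≤ Real.log 4 := Real.log_nonneg (by norm_num)
      have e4 : (d : ℝ) ≤ 300 * κ := hd.trans (by linarith)
      calc (d : ℝ) * Real.log 4 ≤ (300 * κ) * 2 := mul_le_mul e4 e2 e3 (by positivity)
        _ ≤ 13000 * κ * (1 + Real.log (1 + κ)) := by nlinarith
    calc ((hfin.toFinset + hfin.toFinset).card : ℝ) ≤ ((4 ^ d * hfin.toFinset.card : ℕ) : ℝ) := by
          exact_mod_cast h1.trans h2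
      _ = (4 : ℝ) ^ d * hfin.toFinset.card := by push_cast; rfl
      _ ≤ _ := mul_le_mul_of_nonneg_right h3 (Nat.cast_nonneg _)
  · intro v hv
    rw [Finset.mem_coe, Set.Finite.mem_toFinset]
    refine convexHull_min ?_ hsym.conv hv
    rintro _ ⟨x, hx, rfl⟩
    rw [Finset.mem_coe, Set.Finite.mem_toFinset] at hx
    exact hx
  · have h1 : (hfin.toFinset.card : ℝ) * Nat.card H ≤ B.card := by
      have h2 : (lat Bd).ncard * Nat.card H ≤ B.card := hvol
      rw [Set.ncard_eq_toFinset_card _ hfin] at h2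
      exact_mod_cast h2
    exact h1.trans hbig
  · intro p hp
    obtain ⟨x, hx, k, hk, e⟩ := (mem_filter.1 hp).2
    exact ⟨x, hx, k, hk, e⟩

/-- **The coset progression of a law.** -/
theorem block {S : Finset α} (hS : S.Nonempty) (f : α → V) {δ : ℝ} (hδ0 : 0 ≤ δ)
    (hδ : dR S f S f ≤ δ) :
    ∃ P : Finset V, P.Nonempty ∧ (∀ v ∈ P, ∃ s ∈ S, f s = v) ∧
      CP (Real.exp (30000000 * (δ + 1) * (1 + Real.log (1 + δ)))) P ∧
      dR S f P (fun t => t) ≤ 30000000 * (δ + 1) * (1 + Real.log (1 + δ)) := by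
  have hδ' : hd S f S f ≤ h S f + δ := by
    unfold dR at hδ
    linarith
  obtain ⟨Θ, hΘne, hΘS, hΘbig, hΘ⟩ := law_set hS f hδ0 hδ'
  have hlogθ : 0 ≤ Real.log (1 + δ) := Real.log_nonneg (by linarith)
  have hset : ∀ {Q : Finset V}, Q.Nonempty → h Q (fun t => t) = Real.log Q.card := fun hQ =>
    h_inj _ (fun _ _ _ _ h => h) hQ
  have hΘd : dR S f Θ (fun t => t) ≤ 4 * (δ + 1) + (h S f - Real.log Θ.card) / 2 := by
    unfold dR
    rw [hset hΘne]
    have := hΘ Θ subset_rfl hΘne
    linarith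
  -- energy
  have hE : hd Θ (fun t => t) Θ (fun t => t) ≤ Real.log Θ.card + 13 * (δ + 1) := by
    have h1 := dR_self_le hΘne (fun t : V => t) hS f
    have h2 := dR_comm Θ (fun t : V => t) S f
    rw [h2] at h1
    unfold dR at h1 hΘd
    rw [hset hΘne] at h1 hΘd
    linarith
  obtain ⟨B, hBΘ, hBne, hB1, hB2⟩ := Pool.Agent.H217R3.AK.bsg Θ hΘne (Real.exp (13 * (δ + 1)))
    (Real.exp_pos _) (energy_ge hΘne hE)
  have hB0 : (0 : ℝ) < B.card := by exact_mod_cast card_pos.2 hBne
  have hΘ0 : (0 : ℝ) < Θ.card := by exact_mod_cast card_pos.2 hΘne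
  set K1 : ℝ := 2 ^ 22 * Real.exp (13 * (δ + 1)) ^ 10 with hK1
  have hK1pos : 0 < K1 := by rw [hK1]; positivity
  have hplus : ((B + B).card : ℝ) ≤ K1 ^ 2 * B.card := by
    have h1 := pluennecke_ruzsa_inequality_nsmul_sub hBne B 2
    rw [two_nsmul] at h1
    have h2 : ((B + B).card : ℝ) ≤ (((B - B).card : ℝ) / B.card) ^ 2 * B.card := by
      have h3 := (NNRat.cast_le (K := ℝ)).2 h1
      push_cast at h3
      exact h3
    have h3 : ((B - B).card : ℝ) / B.card ≤ K1 := by
      rw [div_le_iff₀ hB0]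
      exact hB2
    refine h2.trans (mul_le_mul_of_nonneg_right ?_ hB0.le)
    exact pow_le_pow_left₀ (by positivity) h3 2
  have hκ : Real.log (2 * K1 ^ 2) ≤ 292 * (δ + 1) := by
    rw [Real.log_mul (by norm_num) (by positivity), Real.log_pow, hK1,
      Real.log_mul (by norm_num) (by positivity), Real.log_pow, Real.log_pow, Real.log_exp]
    have := Real.log_two_lt_d9
    push_cast
    linarith
  obtain ⟨P, hPB, hPne, hPbig, hCP⟩ := near_block hBne hplus hκ
  have hθ : 1 + Real.log (1 + 292 * (δ + 1)) ≤ 7 * (1 + Real.log (1 + δ)) := by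
    have h1 : 1 + 292 * (δ + 1) ≤ Real.exp 6 * (1 + δ) := by
      have e1 : (293 : ℝ) ≤ Real.exp 6 := by
        have e2 : Real.exp 6 = Real.exp 1 ^ 6 := by
          rw [← Real.exp_nat_mul]
          norm_num
        rw [e2]
        have e3 := Real.exp_one_gt_d9
        calc (293 : ℝ) ≤ 2.7 ^ 6 := by norm_num
          _ ≤ _ := pow_le_pow_left₀ (by norm_num) (by linarith) 6
      nlinarith
    have h2 := Real.log_le_log (by linarith) h1
    rw [Real.log_mul (Real.exp_pos _).ne' (by linarith), Real.log_exp] at h2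
    linarith
  have hexp : 13000 * (292 * (δ + 1)) * (1 + Real.log (1 + 292 * (δ + 1))) ≤
      26572000 * (δ + 1) * (1 + Real.log (1 + δ)) := by
    calc 13000 * (292 * (δ + 1)) * (1 + Real.log (1 + 292 * (δ + 1)))
        ≤ 13000 * (292 * (δ + 1)) * (7 * (1 + Real.log (1 + δ))) :=
          mul_le_mul_of_nonneg_left hθ (by positivity)
      _ = _ := by ring
  have hge : (δ + 1) ≤ (δ + 1) * (1 + Real.log (1 + δ)) := by nlinarith
  refine ⟨P, hPne, fun v hv => mem_image.1 (hΘS (hBΘ (hPB hv))),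
    hCP.mono (Real.exp_le_exp.2 ?_), ?_⟩
  · refine hexp.trans ?_
    nlinarith
  · -- the distance
    have hP0 : (0 : ℝ) < P.card := by exact_mod_cast card_pos.2 hPne
    have h1 := hΘ P (hPB.trans hBΘ) hPne
    have h2 := Real.log_le_log hB0 hPbig
    rw [Real.log_mul (Real.exp_pos _).ne' hP0.ne', Real.log_exp] at h2
    have h3 := Real.log_le_log hΘ0 hB1
    rw [Real.log_mul (by positivity) hB0.ne', Real.log_mul (by norm_num) (Real.exp_pos _).ne',
      Real.log_exp] at h3
    have h4 : Real.log 8 ≤ 2.1 := by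
      rw [show (8 : ℝ) = 2 ^ 3 by norm_num, Real.log_pow]
      have := Real.log_two_lt_d9
      push_cast
      linarith
    unfold dR
    rw [hset hPne]
    nlinarith

end Pool.Agent.W5h20.Pr
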