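import Mathlib
import Pool.Agent.W5h20.Pr.Block
import Pool.Agent.W5h20.Sym.Tors

/-!
# Products of coset progressions
-/

set_option autoImplicit false

namespace Pool.Agent.W5h20.Pr

open Finset Pool.Agent.Y359.PE Pool.Agent.Y806.DF
open scoped Classical Pointwise

variable {V : Type*} [AddCommGroup V]

theorem append_add {d1 d2 : ℕ} (a c : Fin d1 → ℤ) (b d : Fin d2 → ℤ) :
    (Fin.append a b + Fin.append c d : Fin (d1 + d2) → ℤ) = Fin.append (a + c) (b + d) := by
  funext i
  refine Fin.addCases (fun i => ?_) (fun i => ?_) i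
  · rw [Pi.add_apply, Fin.append_left, Fin.append_left, Fin.append_left, Pi.add_apply]
  · rw [Pi.add_apply, Fin.append_right, Fin.append_right, Fin.append_right, Pi.add_apply]

theorem CP.add {M1 M2 : ℝ} {P1 P2 : Finset V} (h1 : CP M1 P1) (h2 : CP M2 P2)
    (hc : (P1 + P2).card = P1.card * P2.card) : CP (M1 * M2) (P1 + P2) := by
  obtain ⟨d1, X1, ψ1, H1, g1, a1, a2, a3, a4, a5, a6⟩ := h1
  obtain ⟨d2, X2, ψ2, H2, g2, b1, b2, b3, b4, b5, b6⟩ := h2
  have hX1 : (0 : ℝ) < X1.card := by exact_mod_cast card_pos.2 a1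
  have hX2 : (0 : ℝ) < X2.card := by exact_mod_cast card_pos.2 b1
  have hM1 : 0 ≤ M1 := by
    by_contra hcon
    push Not at hcon
    have : M1 * X1.card < 0 := mul_neg_of_neg_of_pos hcon hX1
    have h0 : (0 : ℝ) ≤ (X1 + X1).card := Nat.cast_nonneg _
    linarith
  have hM2 : 0 ≤ M2 := by
    by_contra hcon
    push Not at hcon
    have : M2 * X2.card < 0 := mul_neg_of_neg_of_pos hcon hX2
    have h0 : (0 : ℝ) ≤ (X2 + X2).card := Nat.cast_nonneg _
    linarith
  set ap : (Fin d1 → ℤ) × (Fin d2 → ℤ) → (Fin (d1 + d2) → ℤ) := fun q => Fin.append q.1 q.2 with hap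
  have hapinj : Function.Injective ap := by
    rintro ⟨a, b⟩ ⟨c, d⟩ h
    rw [hap] at h
    rw [Prod.mk.injEq]
    constructor
    · funext i
      have := congrFun h (Fin.castAdd d2 i)
      simpa only [Fin.append_left] using this
    · funext i
      have := congrFun h (Fin.natAdd d1 i)
      simpa only [Fin.append_right] using this
  set X := (X1 ×ˢ X2).image ap with hX
  have hXcard : X.card = X1.card * X2.card := by
    rw [hX, card_image_of_injective _ hapinj, card_product]
  have hfin : Finite (H1 ⊔ H2 : AddSubgroup V) := Pool.Agent.W5h20.Sym.finite_sup a2 b2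
  refine ⟨d1 + d2, X, AddMonoidHom.mk' (fun v => ψ1 (fun i => v (Fin.castAdd d2 i)) +
    ψ2 (fun i => v (Fin.natAdd d1 i))) ?_, H1 ⊔ H2, g1 + g2, ?_, hfin, ?_, ?_, ?_, ?_⟩
  · intro a b
    have e1 : (fun i => (a + b) (Fin.castAdd d2 i)) =
      (fun i => a (Fin.castAdd d2 i)) + fun i => b (Fin.castAdd d2 i) := rfl
    have e2 : (fun i => (a + b) (Fin.natAdd d1 i)) =
      (fun i => a (Fin.natAdd d1 i)) + fun i => b (Fin.natAdd d1 i) := rfl
    rw [e1, e2, map_add, map_add]
    abel
  · exact (a1.product b1).image _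
  · have e1 : X + X ⊆ ((X1 + X1) ×ˢ (X2 + X2)).image ap := by
      intro v hv
      obtain ⟨x, hx, y, hy, rfl⟩ := mem_add.1 hv
      obtain ⟨⟨a, b⟩, hab, rfl⟩ := mem_image.1 hx
      obtain ⟨⟨c, d⟩, hcd, rfl⟩ := mem_image.1 hy
      rw [mem_product] at hab hcd
      exact mem_image.2 ⟨(a + c, b + d), mem_product.2 ⟨add_mem_add hab.1 hcd.1,
        add_mem_add hab.2 hcd.2⟩, (append_add a c b d).symm⟩
    have e2 := (card_le_card e1).trans card_image_le
    rw [card_product] at e2
    calc ((X + X).card : ℝ) ≤ (X1 + X1).card * (X2 + X2).card := by exact_mod_cast e2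
      _ ≤ (M1 * X1.card) * (M2 * X2.card) :=
        mul_le_mul a3 b3 (Nat.cast_nonneg _) (by positivity)
      _ = M1 * M2 * X.card := by
        rw [hXcard]
        push_cast
        ring
  · intro v hv
    have hv' : re v ∈ convexHull ℝ (re '' (X : Set (Fin (d1 + d2) → ℤ))) := hv
    have k1 : (fun i => v (Fin.castAdd d2 i)) ∈ X1 := by
      refine mem_coe.1 (a4 ?_)
      show re (fun i => v (Fin.castAdd d2 i)) ∈ convexHull ℝ (re '' (X1 : Set (Fin d1 → ℤ)))
      have e1 : re (fun i => v (Fin.castAdd d2 i)) =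
        LinearMap.funLeft ℝ ℝ (Fin.castAdd d2) (re v) := rfl
      have e2 := Set.mem_image_of_mem (LinearMap.funLeft ℝ ℝ (Fin.castAdd d2)) hv'
      rw [LinearMap.image_convexHull] at e2
      rw [e1]
      refine convexHull_mono ?_ e2
      rintro _ ⟨_, ⟨x, hx, rfl⟩, rfl⟩
      obtain ⟨⟨a, b⟩, hab, rfl⟩ := mem_image.1 (mem_coe.1 hx)
      refine ⟨a, mem_coe.2 (mem_product.1 hab).1, ?_⟩
      funext i
      simp [re, hap, LinearMap.funLeft_apply, Fin.append_left]
    have k2 : (fun i => v (Fin.natAdd d1 i)) ∈ X2 := by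
      refine mem_coe.1 (b4 ?_)
      show re (fun i => v (Fin.natAdd d1 i)) ∈ convexHull ℝ (re '' (X2 : Set (Fin d2 → ℤ)))
      have e1 : re (fun i => v (Fin.natAdd d1 i)) =
        LinearMap.funLeft ℝ ℝ (Fin.natAdd d1) (re v) := rfl
      have e2 := Set.mem_image_of_mem (LinearMap.funLeft ℝ ℝ (Fin.natAdd d1)) hv'
      rw [LinearMap.image_convexHull] at e2
      rw [e1]
      refine convexHull_mono ?_ e2
      rintro _ ⟨_, ⟨x, hx, rfl⟩, rfl⟩
      obtain ⟨⟨a, b⟩, hab, rfl⟩ := mem_image.1 (mem_coe.1 hx)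
      refine ⟨b, mem_coe.2 (mem_product.1 hab).2, ?_⟩
      funext i
      simp [re, hap, LinearMap.funLeft_apply, Fin.append_right]
    rw [hX, coe_image]
    exact ⟨(fun i => v (Fin.castAdd d2 i), fun i => v (Fin.natAdd d1 i)),
      mem_coe.2 (mem_product.2 ⟨k1, k2⟩), Fin.append_castAdd_natAdd⟩
  · have e1 : Nat.card (H1 ⊔ H2 : AddSubgroup V) ≤ Nat.card H1 * Nat.card H2 := by
      have e2 := Pool.Agent.W5h20.Sym.card_inf_mul_card_sup H1 H2
      have e3 : Finite (H1 ⊓ H2 : AddSubgroup V) := Pool.Agent.W5h20.Sym.finite_inf a2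
      have e4 : 0 < Nat.card (H1 ⊓ H2 : AddSubgroup V) := Nat.card_pos
      rw [← e2]
      exact Nat.le_mul_of_pos_left _ e4
    calc (X.card : ℝ) * Nat.card (H1 ⊔ H2 : AddSubgroup V)
        ≤ (X1.card * X2.card) * (Nat.card H1 * Nat.card H2) := by
          rw [hXcard]
          push_cast
          exact mul_le_mul_of_nonneg_left (by exact_mod_cast e1) (by positivity)
      _ = (X1.card * Nat.card H1) * (X2.card * Nat.card H2) := by ring
      _ ≤ (M1 * P1.card) * (M2 * P2.card) := mul_le_mul a5 b5 (by positivity) (by positivity)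
      _ = M1 * M2 * (P1 + P2).card := by
        rw [hc]
        push_cast
        ring
  · intro p hp
    obtain ⟨p1, hp1, p2, hp2, rfl⟩ := mem_add.1 hp
    obtain ⟨x1, hx1, k1, hk1, e1⟩ := a6 p1 hp1
    obtain ⟨x2, hx2, k2, hk2, e2⟩ := b6 p2 hp2
    refine ⟨ap (x1, x2), mem_image_of_mem _ (mem_product.2 ⟨hx1, hx2⟩), k1 + k2,
      AddSubgroup.add_mem_sup hk1 hk2, ?_⟩
    have e3 : (fun i => ap (x1, x2) (Fin.castAdd d2 i)) = x1 := by
      funext i
      exact Fin.append_left _ _ i
    have e4 : (fun i => ap (x1, x2) (Fin.natAdd d1 i)) = x2 := by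
      funext i
      exact Fin.append_right _ _ i
    rw [AddMonoidHom.mk'_apply, e3, e4, e1, e2]
    abel

theorem CP.zero : CP 1 ({0} : Finset V) := by
  refine ⟨0, {0}, 0, ⊥, 0, singleton_nonempty _, inferInstance, ?_, ?_, ?_, ?_⟩
  · rw [singleton_add_singleton, card_singleton, card_singleton, Nat.cast_one, mul_one]
  · intro v _
    rw [mem_coe, mem_singleton]
    exact Subsingleton.elim _ _
  · have : Nat.card (⊥ : AddSubgroup V) = 1 := by simp
    rw [this, card_singleton, card_singleton]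
    norm_num
  · intro p hp
    rw [mem_singleton] at hp
    exact ⟨0, mem_singleton_self _, 0, AddSubgroup.zero_mem _, by simp [hp]⟩

section blocks

variable {ι Γ β : Type*} [AddCommGroup Γ]

/-- restriction to a block -/
noncomputable def rb (blk : ι → β) (b : β) (v : ι → Γ) : ι → Γ :=
  fun i => if blk i = b then v i else 0

theorem rb_add (blk : ι → β) (b : β) (v w : ι → Γ) : rb blk b (v + w) = rb blk b v + rb blk b w := by
  funext i
  unfold rb
  rw [Pi.add_apply, Pi.add_apply]
  split_ifs <;> simp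

theorem rb_sub (blk : ι → β) (b : β) (v w : ι → Γ) : rb blk b (v - w) = rb blk b v - rb blk b w := by
  funext i
  unfold rb
  rw [Pi.sub_apply, Pi.sub_apply]
  split_ifs <;> simp

theorem rb_zero (blk : ι → β) (b : β) : rb blk b (0 : ι → Γ) = 0 := by
  funext i
  unfold rb
  simp

theorem rb_sum (blk : ι → β) (b : β) {κ : Type*} (s : Finset κ) (v : κ → ι → Γ) :
    rb blk b (∑ k ∈ s, v k) = ∑ k ∈ s, rb blk b (v k) := by
  induction s using Finset.induction_on with
  | empty => rw [sum_empty, sum_empty, rb_zero]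
  | insert a s ha ih => rw [sum_insert ha, sum_insert ha, rb_add, ih]

theorem rb_other {blk : ι → β} {b c : β} (hbc : b ≠ c) {v : ι → Γ} (hv : rb blk b v = v) :
    rb blk c v = 0 := by
  rw [← hv]
  funext i
  unfold rb
  by_cases h : blk i = c
  · rw [if_pos h, if_neg (fun h' => hbc (h'.symm.trans h))]
    rfl
  · rw [if_neg h]
    rfl

theorem sum_rb [Fintype β] (blk : ι → β) (v : ι → Γ) : ∑ b, rb blk b v = v := by
  funext i
  rw [Finset.sum_apply]
  unfold rb
  rw [Finset.sum_ite_eq]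
  simp

/-- **The product of the blocks.** -/
theorem exists_Q (blk : ι → β) (P : β → Finset (ι → Γ))
    (hsupp : ∀ b, ∀ v ∈ P b, rb blk b v = v) (M : β → ℝ) (hCP : ∀ b, CP (M b) (P b))
    (s : Finset β) : ∃ Q : Finset (ι → Γ),
      (∀ v, v ∈ Q ↔ ∃ w : β → ι → Γ, (∀ b ∈ s, w b ∈ P b) ∧ v = ∑ b ∈ s, w b) ∧
      Q.card = ∏ b ∈ s, (P b).card ∧ CP (∏ b ∈ s, M b) Q := by
  induction s using Finset.induction_on with
  | empty =>
    refine ⟨{0}, fun v => ?_, ?_, ?_⟩
    · rw [mem_singleton]
      constructor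
      · rintro rfl
        exact ⟨fun _ => 0, by simp⟩
      · rintro ⟨w, -, rfl⟩
        rw [sum_empty]
    · rw [card_singleton, prod_empty]
    · rw [prod_empty]
      exact CP.zero
  | insert b s hb ih =>
    obtain ⟨Q, hQ, hQc, hQCP⟩ := ih
    have hQ0 : ∀ q ∈ Q, rb blk b q = 0 := by
      intro q hq
      obtain ⟨w, hw, rfl⟩ := (hQ q).1 hq
      rw [rb_sum]
      exact sum_eq_zero fun c hc => rb_other (ne_of_mem_of_not_mem hc hb) (hsupp c _ (hw c hc))
    have hcard : (P b + Q).card = (P b).card * Q.card := by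
      rw [card_add_iff]
      rintro ⟨p, q⟩ hpq ⟨p', q'⟩ hpq' h
      rw [Set.mem_prod] at hpq hpq'
      simp only [mem_coe] at hpq hpq'
      have e1 := congrArg (rb blk b) h
      simp only [rb_add, hQ0 q hpq.2, hQ0 q' hpq'.2, add_zero, hsupp b p hpq.1,
        hsupp b p' hpq'.1] at e1
      subst e1
      simp only [add_right_inj] at h
      rw [h]
    refine ⟨P b + Q, fun v => ?_, ?_, ?_⟩
    · rw [mem_add]
      constructor
      · rintro ⟨p, hp, q, hq, rfl⟩
        obtain ⟨w, hw, rfl⟩ := (hQ q).1 hq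
        refine ⟨Function.update w b p, ?_, ?_⟩
        · intro c hc
          rcases mem_insert.1 hc with rfl | hc'
          · rwa [Function.update_self]
          · rw [Function.update_of_ne (ne_of_mem_of_not_mem hc' hb)]
            exact hw c hc'
        · rw [sum_insert hb, Function.update_self]
          congr 1
          refine sum_congr rfl fun c hc => ?_
          rw [Function.update_of_ne (ne_of_mem_of_not_mem hc hb)]
      · rintro ⟨w, hw, rfl⟩
        rw [sum_insert hb]
        exact ⟨w b, hw b (mem_insert_self b s), _,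
          (hQ _).2 ⟨w, fun c hc => hw c (mem_insert_of_mem hc), rfl⟩, rfl⟩
    · rw [hcard, prod_insert hb, hQc]
    · rw [prod_insert hb]
      exact (hCP b).add hQCP hcard

end blocks

end Pool.Agent.W5h20.Pr
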