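import Mathlib
import Pool.Agent.W5h20.Pr.Cpa
import Pool.Agent.W5h20.Pr.Symm
import Pool.Agent.R92.Star.Pfr

/-!
# Assembly of the blocks
-/

set_option autoImplicit false

namespace Pool.Agent.W5h20.Pr

open Finset Pool.Agent.Y359.PE Pool.Agent.Y806.DF
open scoped Classical Pointwise

/-- subadditivity -/
theorem h_tp_le' {α γ ι : Type*} (S : Finset α) (s : ι → α → γ) (I : Finset ι) :
    h S (tp I s) ≤ ∑ i ∈ I, h S (s i) := by
  have h1 := h_tp_le S (fun _ => ()) s I
  have h2 : h S (fun _ : α => ()) = 0 := h_const S _ (fun _ _ _ _ => rfl)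
  have h3 : h S (fun x => ((), tp I s x)) = h S (tp I s) := h_congr fun x _ y _ => by simp
  have h4 : ∀ i, h S (fun x => ((), s i x)) = h S (s i) := fun i => h_congr fun x _ y _ => by simp
  rw [h2, h3] at h1
  simp_rw [h4, sub_zero] at h1
  exact h1

section entropy

variable {ι Γ β Ω : Type*} [AddCommGroup Γ] [Fintype ι] [Fintype β]

/-- sum of the blocks -/
noncomputable def sm (p : β → ι → Γ) : ι → Γ := ∑ b, p b

theorem rb_sm {blk : ι → β} {P : β → Finset (ι → Γ)} (hsupp : ∀ b, ∀ v ∈ P b, rb blk b v = v)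
    {p : β → ι → Γ} (hp : p ∈ Fintype.piFinset P) (b : β) : rb blk b (sm p) = p b := by
  rw [Fintype.mem_piFinset] at hp
  unfold sm
  rw [rb_sum, sum_eq_single b]
  · exact hsupp b _ (hp b)
  · intro c _ hc
    exact rb_other hc (hsupp c _ (hp c))
  · intro h
    exact absurd (mem_univ b) h

theorem h_sm {blk : ι → β} {P : β → Finset (ι → Γ)} (hsupp : ∀ b, ∀ v ∈ P b, rb blk b v = v)
    (hP : ∀ b, (P b).Nonempty) :
    h (Fintype.piFinset P) sm = ∑ b, h (P b) (fun t => t) := by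
  have h1 := h_pi P hP (fun b (t : ι → Γ) => t)
  rw [← h1]
  refine h_congr fun x hx y hy => ?_
  constructor
  · intro h
    funext b
    rw [← rb_sm hsupp hx b, ← rb_sm hsupp hy b, h]
  · intro h
    have : x = y := h
    rw [this]

theorem rb_pr (blk : ι → β) (b : β) (f : ι → Ω → Γ) (w : ι → Ω) :
    rb blk b (pr f w) = pr (fun i x => if blk i = b then f i x else 0) w := rfl

theorem h_rb (F : ι → Finset Ω) (hF : ∀ i, (F i).Nonempty) (f : ι → Ω → Γ) (blk : ι → β) (b : β) :
    h (Fintype.piFinset F) (fun w => rb blk b (pr f w)) =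
      ∑ i, if blk i = b then h (F i) (f i) else 0 := by
  have h1 := h_pr F hF (fun i x => if blk i = b then f i x else 0)
  have h2 : h (Fintype.piFinset F) (fun w => rb blk b (pr f w)) =
      h (Fintype.piFinset F) (pr (fun i x => if blk i = b then f i x else 0)) := rfl
  rw [h2, h1]
  refine sum_congr rfl fun i _ => ?_
  by_cases h : blk i = b
  · simp only [if_pos h]
  · simp only [if_neg h]
    exact h_const _ _ fun _ _ _ _ => rfl

/-- the blocks of the law have small doubling -/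
theorem dR_rb_self_le (F : ι → Finset Ω) (hF : ∀ i, (F i).Nonempty) (f : ι → Ω → Γ)
    (blk : ι → β) (b : β) {D : ℝ} (hD : ∀ d : ι → ℝ, (∀ i, blk i = b →
      d i = dR (F i) (f i) (F i) (f i)) → (∀ i, blk i ≠ b → d i = 0) → ∑ i, d i ≤ D) :
    dR (Fintype.piFinset F) (fun w => rb blk b (pr f w))
      (Fintype.piFinset F) (fun w => rb blk b (pr f w)) ≤ D := by
  have h1 := dR_pr F hF (fun i x => if blk i = b then f i x else 0) F hF
    (fun i x => if blk i = b then f i x else 0)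
  have h2 : dR (Fintype.piFinset F) (fun w => rb blk b (pr f w))
      (Fintype.piFinset F) (fun w => rb blk b (pr f w)) =
      dR (Fintype.piFinset F) (pr (fun i x => if blk i = b then f i x else 0))
      (Fintype.piFinset F) (pr (fun i x => if blk i = b then f i x else 0)) := rfl
  rw [h2, h1]
  refine hD _ (fun i h => ?_) (fun i h => ?_)
  · simp only [if_pos h]
  · simp only [if_neg h]
    unfold dR hd
    rw [h_const _ _ fun _ _ _ _ => rfl, h_const _ _ fun _ _ _ _ => rfl]
    ring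

/-- **The distance of a product law from the product of the blocks.** -/
theorem dR_blocks (F : ι → Finset Ω) (hF : ∀ i, (F i).Nonempty) (f : ι → Ω → Γ) (blk : ι → β)
    {P : β → Finset (ι → Γ)} (hsupp : ∀ b, ∀ v ∈ P b, rb blk b v = v)
    (hP : ∀ b, (P b).Nonempty) :
    dR (Fintype.piFinset F) (pr f) (Fintype.piFinset P) sm ≤
      ∑ b, dR (Fintype.piFinset F) (fun w => rb blk b (pr f w)) (P b) (fun t => t) := by
  set S := Fintype.piFinset F with hS
  have h1 : hd S (pr f) (Fintype.piFinset P) sm ≤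
      ∑ b, hd S (fun w => rb blk b (pr f w)) (P b) (fun t => t) := by
    have e1 := h_tp_le' (S ×ˢ Fintype.piFinset P)
      (fun b (q : (ι → Ω) × (β → ι → Γ)) => rb blk b (pr f q.1) - q.2 b) univ
    have e2 : hd S (pr f) (Fintype.piFinset P) sm ≤ h (S ×ˢ Fintype.piFinset P)
        (tp univ (fun b (q : (ι → Ω) × (β → ι → Γ)) => rb blk b (pr f q.1) - q.2 b)) := by
      unfold hd
      refine h_mono fun x _ y _ hxy => ?_
      rw [tp_eq] at hxy
      have e3 : ∀ q : (ι → Ω) × (β → ι → Γ), pr f q.1 - sm q.2 =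
          ∑ b, (rb blk b (pr f q.1) - q.2 b) := by
        intro q
        rw [sum_sub_distrib, sum_rb]
        rfl
      rw [e3, e3]
      exact sum_congr rfl fun b hb => hxy b hb
    refine e2.trans (e1.trans (le_of_eq ?_))
    refine sum_congr rfl fun b _ => ?_
    unfold hd
    exact h_prod_pi_marg S P hP b (fun w t => rb blk b (pr f w) - t)
  have h2 : h S (pr f) = ∑ b, h S (fun w => rb blk b (pr f w)) := by
    rw [hS, h_pr F hF f, sum_congr rfl (fun b _ => h_rb F hF f blk b), sum_comm]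
    refine sum_congr rfl fun i _ => ?_
    rw [Finset.sum_ite_eq]
    simp
  have h3 := h_sm hsupp hP
  unfold dR
  rw [sum_sub_distrib, ← sum_div, sum_add_distrib, ← h2, ← h3]
  linarith

end entropy

/-- **A popular translate.** -/
theorem popular {α V : Type*} [AddCommGroup V] {A : Finset V} (hA : A.Nonempty) {S : Finset α}
    (hS : S.Nonempty) (f : α → V) (hf : ∀ x ∈ S, ∀ y ∈ S, f x = f y → x = y) {M : ℝ}
    (hM : dR A (fun a => a) S f ≤ M) :
    (S.card : ℝ) ≤ Real.exp (2 * M) * A.card ∧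
      ∃ (v : V) (A' : Finset V), A' ⊆ A ∧ (∀ a ∈ A', ∃ s ∈ S, a = v + f s) ∧
        (A.card : ℝ) ≤ Real.exp (2 * M) * A'.card := by
  have hA0 : (0 : ℝ) < A.card := by exact_mod_cast card_pos.2 hA
  have hS0 : (0 : ℝ) < S.card := by exact_mod_cast card_pos.2 hS
  have hhA : h A (fun a => a) = Real.log A.card := h_inj _ (fun _ _ _ _ h => h) hA
  have hhS : h S f = Real.log S.card := h_inj f hf hS
  have h1 := h_le_hd_left (S := A) (fun a => a) hS f
  have h2 := h_le_hd_right hA (fun a => a) (T := S) f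
  unfold dR at hM
  rw [hhA] at h1 hM
  rw [hhS] at h2 hM
  constructor
  · rw [← Real.exp_log hS0, ← Real.exp_log hA0, ← Real.exp_add]
    exact Real.exp_le_exp.2 (by linarith)
  · -- a popular difference
    have hne := hA.product hS
    have h3 : hd A (fun a => a) S f ≤ (Real.log A.card + Real.log S.card) / 2 + M := by linarith
    obtain ⟨p, hp, hp2⟩ : ∃ p ∈ A ×ˢ S, Real.log (A ×ˢ S).card -
        Real.log (fc (A ×ˢ S) (fun p => p.1 - f p.2) p) ≤ hd A (fun a => a) S f := by
      by_contra hcon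
      push Not at hcon
      have h4 := sum_lt_sum_of_nonempty hne hcon
      rw [sum_const, nsmul_eq_mul] at h4
      have hc : (0 : ℝ) < (A ×ˢ S).card := by exact_mod_cast card_pos.2 hne
      have h5 : hd A (fun a => a) S f * (A ×ˢ S).card = ∑ x ∈ A ×ˢ S,
          (Real.log (A ×ˢ S).card - Real.log (fc (A ×ˢ S) (fun p => p.1 - f p.2) x)) := by
        unfold hd h
        rw [div_mul_cancel₀ _ hc.ne']
      rw [← h5] at h4
      linarith
    have h6 : fc (A ×ˢ S) (fun p => p.1 - f p.2) p ≤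
        (A.filter fun a => ∃ s ∈ S, a = (p.1 - f p.2) + f s).card := by
      unfold fc
      refine card_le_card_of_injOn (fun q => q.1) ?_ ?_
      · rintro ⟨a, s⟩ hq
        rw [mem_coe, mem_cl, mem_product] at hq
        rw [mem_coe, mem_filter]
        refine ⟨hq.1.1, s, hq.1.2, ?_⟩
        rw [← hq.2]
        simp
      · rintro ⟨a, s⟩ hq ⟨a', s'⟩ hq' h
        rw [mem_coe, mem_cl, mem_product] at hq hq'
        simp only at h hq hq'
        subst h
        have h7 : f s = f s' := sub_right_injective (hq.2.trans hq'.2.symm)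
        rw [hf s hq.1.2 s' hq'.1.2 h7]
    refine ⟨p.1 - f p.2, A.filter fun a => ∃ s ∈ S, a = (p.1 - f p.2) + f s, filter_subset _ _,
      fun a ha => (mem_filter.1 ha).2, ?_⟩
    have h7 := fc_posR (f := fun p : V × α => p.1 - f p.2) hp
    have h8 : (fc (A ×ˢ S) (fun p => p.1 - f p.2) p : ℝ) ≤
        (A.filter fun a => ∃ s ∈ S, a = (p.1 - f p.2) + f s).card := by exact_mod_cast h6
    have h9 := Real.log_le_log h7 h8
    have h10 : Real.log (A ×ˢ S).card = Real.log A.card + Real.log S.card := by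
      rw [card_product]
      push_cast
      rw [Real.log_mul hA0.ne' hS0.ne']
    rw [h10] at hp2
    have h11 : (0 : ℝ) < (A.filter fun a => ∃ s ∈ S, a = (p.1 - f p.2) + f s).card := by linarith
    rw [← Real.exp_log hA0, ← Real.exp_log h11, ← Real.exp_add]
    exact Real.exp_le_exp.2 (by linarith)

/-- **Coset progressions from a product of blocks.** -/
theorem data_of_blocks {ι Γ β : Type*} [AddCommGroup Γ] [Fintype ι] [Fintype β]
    {A : Finset (ι → Γ)} (hA : A.Nonempty) (blk : ι → β) {P : β → Finset (ι → Γ)}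
    (hsupp : ∀ b, ∀ v ∈ P b, rb blk b v = v) (hP : ∀ b, (P b).Nonempty) (m : β → ℝ)
    (hm : ∀ b, 0 ≤ m b) (hCP : ∀ b, CP (Real.exp (m b)) (P b)) {M : ℝ} (hM0 : 0 ≤ M)
    (hM : dR A (fun a => a) (Fintype.piFinset P) sm ≤ M) :
    ∃ (d : ℕ) (X : Finset (Fin d → ℤ)) (ψ : (Fin d → ℤ) →+ (ι → Γ)) (H : AddSubgroup (ι → Γ))
      (g : ι → Γ), Data (Real.exp (∑ b, m b + 2 * M)) A X ψ H g := by
  obtain ⟨Q, hQ, hQc, hQCP⟩ := exists_Q blk P hsupp (fun b => Real.exp (m b)) hCP univ
  rw [← Real.exp_sum] at hQCP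
  obtain ⟨d, X, ψ, H, g, a1, a2, a3, a4, a5, a6⟩ := hQCP
  have hSne : (Fintype.piFinset P).Nonempty := Fintype.piFinset_nonempty.2 hP
  obtain ⟨h1, v, A', hA'A, hA'S, h2⟩ := popular hA hSne sm (fun x hx y hy h => by
    funext b
    rw [← rb_sm hsupp hx b, ← rb_sm hsupp hy b, h]) hM
  have hmsum : 0 ≤ ∑ b, m b := sum_nonneg fun b _ => hm b
  have hQc' : Q.card = (Fintype.piFinset P).card := by
    rw [hQc, Fintype.card_piFinset]
  have e1 : Real.exp (∑ b, m b) ≤ Real.exp (∑ b, m b + 2 * M) := Real.exp_le_exp.2 (by linarith)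
  have e2 : Real.exp (2 * M) ≤ Real.exp (∑ b, m b + 2 * M) := Real.exp_le_exp.2 (by linarith)
  have e3 : (1 : ℝ) ≤ Real.exp (∑ b, m b + 2 * M) := Real.one_le_exp (by linarith)
  refine ⟨d, X, ψ, H, v + g, a1, a2, ?_, ?_, ?_, ?_⟩
  · have : ((X + X).card : ℝ) ≤ Real.exp (∑ b, m b + 2 * M) * X.card :=
      a3.trans (mul_le_mul_of_nonneg_right e1 (Nat.cast_nonneg _))
    exact this
  · have h3 := Set.ncard_le_ncard a4 (Finset.finite_toSet _)
    rw [Set.ncard_coe_finset] at h3
    calc ((hull X).ncard : ℝ) ≤ 1 * X.card := by rw [one_mul]; exact_mod_cast h3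
      _ ≤ _ := mul_le_mul_of_nonneg_right e3 (Nat.cast_nonneg _)
  · rw [hQc'] at a5
    calc (X.card : ℝ) * Nat.card H ≤ Real.exp (∑ b, m b) * (Fintype.piFinset P).card := a5
      _ ≤ Real.exp (∑ b, m b) * (Real.exp (2 * M) * A.card) :=
        mul_le_mul_of_nonneg_left h1 (Real.exp_pos _).le
      _ = _ := by rw [Real.exp_add]; ring
  · have h3 : (A' : Set (ι → Γ)) ⊆
        {a | a ∈ A ∧ ∃ x ∈ X, ∃ k ∈ H, a = v + g + ψ x + k} := by
      intro a ha
      rw [mem_coe] at ha
      obtain ⟨p, hp, e⟩ := hA'S a ha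
      have h4 : sm p ∈ Q := (hQ _).2 ⟨p, fun b _ => Fintype.mem_piFinset.1 hp b, rfl⟩
      obtain ⟨x, hx, k, hk, e'⟩ := a6 _ h4
      refine ⟨hA'A ha, x, hx, k, hk, ?_⟩
      rw [e, e']
      abel
    have h4 := Set.ncard_le_ncard h3 (A.finite_toSet.subset fun a ha => ha.1)
    rw [Set.ncard_coe_finset] at h4
    calc (A.card : ℝ) ≤ Real.exp (2 * M) * A'.card := h2
      _ ≤ Real.exp (∑ b, m b + 2 * M) *
          ({a | a ∈ A ∧ ∃ x ∈ X, ∃ k ∈ H, a = v + g + ψ x + k}.ncard : ℝ) :=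
        mul_le_mul e2 (by exact_mod_cast h4) (Nat.cast_nonneg _) (Real.exp_pos _).le

/-- **Blocks of coordinates with bounded sums.** -/
theorem exists_blocks {ι : Type*} [Fintype ι] (δ : ι → ℝ) (hδ : ∀ i, 0 ≤ δ i) {Δ : ℝ}
    (hΔ : ∀ i, δ i ≤ Δ) (hΔ0 : 0 ≤ Δ) : ∃ (N : ℕ) (blk : ι → Fin (N + 1)), (N : ℝ) ≤ ∑ i, δ i ∧
      ∀ b, (∑ i, if blk i = b then δ i else 0) ≤ Δ + 1 := by
  set e := Fintype.equivFin ι with he
  set n := Fintype.card ι with hn
  set D : Fin n → ℝ := fun k => δ (e.symm k) with hD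
  have hD0 : ∀ k, 0 ≤ D k := fun k => hδ _
  have hDsum : ∑ k, D k = ∑ i, δ i := Equiv.sum_comp e.symm δ
  set pre : Fin n → ℝ := fun k => ∑ j ∈ Iio k, D j with hpre
  have hpre0 : ∀ k, 0 ≤ pre k := fun k => sum_nonneg fun j _ => hD0 j
  have hprele : ∀ k, pre k ≤ ∑ i, δ i := by
    intro k
    rw [← hDsum]
    exact sum_le_sum_of_subset_of_nonneg (subset_univ _) fun j _ _ => hD0 j
  set N := ⌊∑ i, δ i⌋₊ with hN
  have hN1 : (N : ℝ) ≤ ∑ i, δ i := Nat.floor_le (sum_nonneg fun i _ => hδ i)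
  have hfl : ∀ k, ⌊pre k⌋₊ < N + 1 := fun k => Nat.lt_succ_of_le (Nat.floor_le_floor (hprele k))
  refine ⟨N, fun i => ⟨⌊pre (e i)⌋₊, hfl _⟩, hN1, fun b => ?_⟩
  have h1 : (∑ i, if (⟨⌊pre (e i)⌋₊, hfl _⟩ : Fin (N + 1)) = b then δ i else 0) =
      ∑ k ∈ univ.filter (fun k => ⌊pre k⌋₊ = (b : ℕ)), D k := by
    rw [sum_filter, ← Equiv.sum_comp e]
    refine sum_congr rfl fun i _ => ?_
    simp only [Fin.ext_iff, hD, Equiv.symm_apply_apply]
  rw [h1]
  set B := univ.filter (fun k => ⌊pre k⌋₊ = (b : ℕ)) with hB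
  rcases B.eq_empty_or_nonempty with h0 | h0
  · rw [h0, sum_empty]
    linarith
  · set a := B.min' h0 with ha
    set c := B.max' h0 with hc
    have haB : a ∈ B := B.min'_mem h0
    have hcB : c ∈ B := B.max'_mem h0
    have h2 : ∑ k ∈ B, D k ≤ ∑ k ∈ Icc a c, D k :=
      sum_le_sum_of_subset_of_nonneg (fun k hk => mem_Icc.2 ⟨B.min'_le k hk, B.le_max' k hk⟩)
        fun j _ _ => hD0 j
    have hac : a ≤ c := B.min'_le c hcB
    have h3 : ∑ k ∈ Iio a, D k + ∑ k ∈ Icc a c, D k = ∑ k ∈ Iio c, D k + D c := by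
      have e1 : Disjoint (Iio a) (Icc a c) := by
        rw [disjoint_left]
        intro k hk hk'
        rw [mem_Iio] at hk
        rw [mem_Icc] at hk'
        exact absurd hk'.1 (not_le.2 hk)
      have e2 : c ∉ Iio c := by simp
      rw [← sum_union e1, add_comm (∑ k ∈ Iio c, D k), ← sum_insert e2]
      congr 1
      ext k
      simp only [mem_union, mem_Iio, mem_Icc, mem_insert]
      constructor
      · rintro (h | ⟨_, h⟩)
        · exact Or.inr (h.trans_le hac)
        · rcases eq_or_lt_of_le h with h | h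
          · exact Or.inl h
          · exact Or.inr h
      · rintro (h | h)
        · rw [h]
          exact Or.inr ⟨hac, le_rfl⟩
        · rcases lt_or_ge k a with h' | h'
          · exact Or.inl h'
          · exact Or.inr ⟨h', h.le⟩
    have h4 : ((b : ℕ) : ℝ) ≤ pre a := by
      have := (mem_filter.1 haB).2
      rw [← this]
      exact Nat.floor_le (hpre0 a)
    have h5 : pre c < (b : ℕ) + 1 := by
      have := (mem_filter.1 hcB).2
      rw [← this]
      exact Nat.lt_floor_add_one _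
    have h6 : D c ≤ Δ := hΔ _
    have h7 : pre a = ∑ k ∈ Iio a, D k := rfl
    have h8 : pre c = ∑ k ∈ Iio c, D k := rfl
    linarith

end Pool.Agent.W5h20.Pr
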