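import Mathlib
import Pool.Agent.W5h20.Pr.Asm
import Pool.Agent.W5h20.Sym.Ent

/-!
# The conclusion of Q1 for near products
-/

set_option autoImplicit false

namespace Pool.Agent.W5h20.Pr

open Finset Pool.Agent.Y359.PE Pool.Agent.Y806.DF Pool.Agent.R92.Star
open scoped Classical Pointwise

section general

variable {ι Γ Ω : Type*} [AddCommGroup Γ] [Fintype ι]

theorem assemble_aux {β : Type*} [Fintype β] {A : Finset (ι → Γ)} (hA : A.Nonempty)
    (F : ι → Finset Ω) (hF : ∀ i, (F i).Nonempty) (f : ι → Ω → Γ) {M Δ : ℝ}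
    (hM : dR A (fun a => a) (Fintype.piFinset F) (pr f) ≤ M)
    (hsum : ∑ i, dR (F i) (f i) (F i) (f i) ≤ M) (hΔ0 : 0 ≤ Δ) (blk : ι → β)
    (hcard : (Fintype.card β : ℝ) ≤ M + 1)
    (hblk : ∀ b, (∑ i, if blk i = b then dR (F i) (f i) (F i) (f i) else 0) ≤ Δ + 1) :
    ∃ (d : ℕ) (X : Finset (Fin d → ℤ)) (ψ : (Fin d → ℤ) →+ (ι → Γ)) (H : AddSubgroup (ι → Γ))
      (g : ι → Γ), Data (Real.exp (210000000 * (M + 1) * (1 + Real.log (2 + Δ)))) A X ψ H g := by
  have hδ0 : ∀ i, 0 ≤ dR (F i) (f i) (F i) (f i) := fun i => dR_nonneg (hF i) _ (hF i) _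
  have hS : (Fintype.piFinset F).Nonempty := Fintype.piFinset_nonempty.2 hF
  set δ : β → ℝ := fun b => ∑ i, if blk i = b then dR (F i) (f i) (F i) (f i) else 0
    with hδ
  have hδb0 : ∀ b, 0 ≤ δ b := by
    intro b
    refine sum_nonneg fun i _ => ?_
    split_ifs
    · exact hδ0 i
    · exact le_rfl
  have hex : ∀ b, ∃ P : Finset (ι → Γ), P.Nonempty ∧
      (∀ v ∈ P, ∃ w ∈ Fintype.piFinset F, rb blk b (pr f w) = v) ∧
      CP (Real.exp (30000000 * (δ b + 1) * (1 + Real.log (1 + δ b)))) P ∧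
      dR (Fintype.piFinset F) (fun w => rb blk b (pr f w)) P (fun t => t) ≤
        30000000 * (δ b + 1) * (1 + Real.log (1 + δ b)) :=
    fun b => block hS _ (hδb0 b) (dR_rb_self_le F hF f blk b (fun d h1 h2 => by
      refine le_of_eq (sum_congr rfl fun i _ => ?_)
      by_cases h : blk i = b
      · rw [if_pos h, h1 i h]
      · rw [if_neg h, h2 i h]))
  choose P hPne hPsub hPCP hPd using hex
  obtain ⟨θ, hθ⟩ : ∃ θ : ℝ, θ = 1 + Real.log (2 + Δ) := ⟨_, rfl⟩
  have hθ1 : 1 ≤ θ := by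
    have := Real.log_nonneg (show (1 : ℝ) ≤ 2 + Δ by linarith)
    linarith
  have hm : ∀ b, 30000000 * (δ b + 1) * (1 + Real.log (1 + δ b)) ≤ 30000000 * (δ b + 1) * θ := by
    intro b
    refine mul_le_mul_of_nonneg_left ?_ (by have := hδb0 b; positivity)
    have h1 : Real.log (1 + δ b) ≤ Real.log (2 + Δ) :=
      Real.log_le_log (by have := hδb0 b; linarith) (by have := hblk b; linarith)
    linarith
  have hsumδ : ∑ b, δ b = ∑ i, dR (F i) (f i) (F i) (f i) := by
    rw [hδ, sum_comm]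
    refine sum_congr rfl fun i _ => ?_
    rw [Finset.sum_ite_eq]
    simp
  have hM0 : 0 ≤ M := (sum_nonneg fun i _ => hδ0 i).trans hsum
  obtain ⟨m, hm'⟩ : ∃ m : β → ℝ, m = fun b => 30000000 * (δ b + 1) * θ := ⟨_, rfl⟩
  obtain ⟨R, hR⟩ : ∃ R : ℝ, R = 30000000 * (2 * M + 1) * θ := ⟨_, rfl⟩
  have htot : ∑ b, m b ≤ R := by
    rw [hm', hR, ← sum_mul, ← mul_sum, sum_add_distrib, hsumδ, sum_const, card_univ,
      nsmul_eq_mul, mul_one]
    refine mul_le_mul_of_nonneg_right ?_ (by linarith)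
    linarith
  have hsupp : ∀ b, ∀ v ∈ P b, rb blk b v = v := by
    intro b v hv
    obtain ⟨w, -, rfl⟩ := hPsub b v hv
    funext i
    unfold rb
    by_cases h : blk i = b
    · rw [if_pos h]
    · rw [if_neg h, if_neg h]
  have hd1 := dR_blocks F hF f blk hsupp hPne
  have hd2 := dR_tri hA (fun a => a) hS (pr f) (Fintype.piFinset_nonempty.2 hPne) sm
  have hd3 : ∑ b, dR (Fintype.piFinset F) (fun w => rb blk b (pr f w)) (P b) (fun t => t) ≤ R := by
    refine (sum_le_sum fun b _ => ?_).trans htot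
    rw [hm']
    exact (hPd b).trans (hm b)
  have hR0 : 0 ≤ R := by
    rw [hR]
    positivity
  have hM' : 0 ≤ M + R := by linarith
  have hm0 : ∀ b, 0 ≤ m b := by
    intro b
    rw [hm']
    have := hδb0 b
    positivity
  have hCP : ∀ b, CP (Real.exp (m b)) (P b) := by
    intro b
    rw [hm']
    exact (hPCP b).mono (Real.exp_le_exp.2 (hm b))
  obtain ⟨d, X, ψ, H, g, hD⟩ := data_of_blocks hA blk hsupp hPne m hm0 hCP hM'
    (hd2.trans (add_le_add hM (hd1.trans hd3)))
  refine ⟨d, X, ψ, H, g, hD.mono (Real.exp_le_exp.2 ?_)⟩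
  rw [← hθ]
  have h1 : M ≤ M * θ := le_mul_of_one_le_right hM0 hθ1
  have h2 : ∑ b, m b + 2 * (M + R) ≤ 3 * R + 2 * (M * θ) := by linarith
  refine h2.trans ?_
  rw [hR]
  have h3 : 0 ≤ M * θ := by positivity
  linarith

/-- **Assembly.** -/
theorem assemble {A : Finset (ι → Γ)} (hA : A.Nonempty) (F : ι → Finset Ω)
    (hF : ∀ i, (F i).Nonempty) (f : ι → Ω → Γ) {M Δ : ℝ}
    (hM : dR A (fun a => a) (Fintype.piFinset F) (pr f) ≤ M)
    (hsum : ∑ i, dR (F i) (f i) (F i) (f i) ≤ M) (hΔ0 : 0 ≤ Δ)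
    (hΔ : ∀ i, dR (F i) (f i) (F i) (f i) ≤ Δ) :
    ∃ (d : ℕ) (X : Finset (Fin d → ℤ)) (ψ : (Fin d → ℤ) →+ (ι → Γ)) (H : AddSubgroup (ι → Γ))
      (g : ι → Γ), Data (Real.exp (210000000 * (M + 1) * (1 + Real.log (2 + Δ)))) A X ψ H g := by
  have hδ0 : ∀ i, 0 ≤ dR (F i) (f i) (F i) (f i) := fun i => dR_nonneg (hF i) _ (hF i) _
  obtain ⟨N, blk, hN, hblk⟩ := exists_blocks (fun i => dR (F i) (f i) (F i) (f i)) hδ0 hΔ hΔ0
  refine assemble_aux hA F hF f hM hsum hΔ0 blk ?_ ?_
  · rw [Fintype.card_fin]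
    push_cast
    linarith
  · intro b
    refine le_trans (le_of_eq (sum_congr rfl fun i _ => ?_)) (hblk b)
    by_cases h : blk i = b
    · rw [if_pos h, if_pos h]
    · rw [if_neg h, if_neg h]

theorem HH_ind (A : Finset (ι → Γ)) (I : Finset ι) :
    HH A I = h A (Set.indicator (I : Set ι)) := by
  refine h_congr fun x _ y _ => ?_
  rw [tp_eq]
  constructor
  · intro h
    funext i
    by_cases hi : i ∈ (I : Set ι)
    · rw [Set.indicator_of_mem hi, Set.indicator_of_mem hi]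
      exact h i hi
    · rw [Set.indicator_of_notMem hi, Set.indicator_of_notMem hi]
  · intro h i hi
    have := congrFun h i
    rwa [Set.indicator_of_mem (mem_coe.2 hi), Set.indicator_of_mem (mem_coe.2 hi)] at this

theorem HH_le_log [DecidableEq (ι → Γ)] {A : Finset (ι → Γ)} (hA : A.Nonempty) (I : Finset ι) :
    HH A I ≤ Real.log (A.image (Set.indicator (I : Set ι))).card := by
  rw [HH_ind]
  exact Pool.Agent.W5h20.Sym.h_le_log' hA _

theorem HH_card {A : Finset (ι → Γ)} (hA : A.Nonempty) : HH A univ = Real.log A.card := by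
  rw [← HH_univ]
  exact h_inj _ (fun _ _ _ _ h => h) hA

/-- the density in the products of two projections -/
theorem split_of_card [DecidableEq (ι → Γ)] {A : Finset (ι → Γ)} (hA : A.Nonempty) {K : ℝ}
    (hK : 0 < K) (hsplit : ∀ I : Set ι,
      ((A.image I.indicator).card : ℝ) * (A.image Iᶜ.indicator).card ≤ K * A.card)
    (I : Finset ι) : HH A I + HH A Iᶜ ≤ HH A univ + Real.log K := by
  have hA0 : (0 : ℝ) < A.card := by exact_mod_cast card_pos.2 hA
  have h0 := hsplit (I : Set ι)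
  rw [← coe_compl] at h0
  have h1 : (0 : ℝ) < (A.image (Set.indicator (I : Set ι))).card := by
    exact_mod_cast card_pos.2 (hA.image _)
  have h2 : (0 : ℝ) < (A.image (Set.indicator ((Iᶜ : Finset ι) : Set ι))).card := by
    exact_mod_cast card_pos.2 (hA.image _)
  have h3 := Real.log_le_log (mul_pos h1 h2) h0
  rw [Real.log_mul h1.ne' h2.ne', Real.log_mul hK.ne' hA0.ne'] at h3
  have h4 := HH_le_log hA I
  have h5 := HH_le_log hA Iᶜ
  rw [HH_card hA]
  linarith

end general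

section cards

variable {V : Type*} [AddCommGroup V]

/-- sums and differences -/
theorem card_sub_le [DecidableEq V] {A B : Finset V} (hA : A.Nonempty) (hB : B.Nonempty) {K : ℝ}
    (hK1 : 1 ≤ K) (hAA : ((A + A).card : ℝ) ≤ K * A.card) (hAB : ((A + B).card : ℝ) ≤ K * A.card) :
    Real.log (A - B).card ≤ Real.log A.card + 2 * Real.log K := by
  have hA0 : (0 : ℝ) < A.card := by exact_mod_cast card_pos.2 hA
  have hK0 : 0 < K := by linarith
  have h1 := ruzsa_triangle_inequality_sub_add_add A A B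
  have h2 : ((A - B).card : ℝ) * A.card ≤ (K * A.card) * (K * A.card) := by
    calc ((A - B).card : ℝ) * A.card ≤ (A + A).card * (B + A).card := by exact_mod_cast h1
      _ ≤ _ := by
        rw [add_comm B A]
        exact mul_le_mul hAA hAB (Nat.cast_nonneg _) (by positivity)
  have h3 : ((A - B).card : ℝ) ≤ A.card * K ^ 2 := by
    have : ((A - B).card : ℝ) * A.card ≤ (A.card * K ^ 2) * A.card := by
      calc ((A - B).card : ℝ) * A.card ≤ (K * A.card) * (K * A.card) := h2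
        _ = _ := by ring
    exact le_of_mul_le_mul_right this hA0
  have h4 : (0 : ℝ) < (A - B).card := by exact_mod_cast card_pos.2 (hA.sub hB)
  have h5 := Real.log_le_log h4 h3
  rw [Real.log_mul hA0.ne' (by positivity), Real.log_pow] at h5
  push_cast at h5
  exact h5

theorem hd_image_le [DecidableEq V] {A : Finset V} (hA : A.Nonempty) (g : V → V) :
    hd A (fun a => a) A g ≤ Real.log (A - A.image g).card := by
  refine (Pool.Agent.W5h20.Sym.h_le_log' (hA.product hA) (fun p : V × V => p.1 - g p.2)).trans ?_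
  refine Real.log_le_log ?_ ?_
  · exact_mod_cast card_pos.2 ((hA.product hA).image _)
  · have : (A ×ˢ A).image (fun p : V × V => p.1 - g p.2) ⊆ A - A.image g := by
      intro v hv
      obtain ⟨⟨a, b⟩, hab, rfl⟩ := mem_image.1 hv
      rw [mem_product] at hab
      exact sub_mem_sub hab.1 (mem_image_of_mem _ hab.2)
    exact_mod_cast card_le_card this

theorem data_inst {d1 d2 : DecidableEq V} {K : ℝ} {A : Finset V} {d : ℕ}
    {X : Finset (Fin d → ℤ)} {ψ : (Fin d → ℤ) →+ V} {H : AddSubgroup V} {g : V}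
    (h : @Data V _ d1 K A d X ψ H g) : @Data V _ d2 K A d X ψ H g := by
  have e : d1 = d2 := Subsingleton.elim _ _
  subst e
  exact h

end cards

/-- from `Data` with a constant which is a power, to the conclusion of Q1 -/
theorem concl_of_exp.{w} (c : ℝ) : ∃ C : ℝ, ∀ (V : Type w) [AddCommGroup V] [DecidableEq V]
    (K' : ℝ) (A : Finset V), A.Nonempty → ((A + A).card : ℝ) ≤ K' * A.card →
    (∃ (d : ℕ) (X : Finset (Fin d → ℤ)) (ψ : (Fin d → ℤ) →+ V) (H : AddSubgroup V) (g : V)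
      (M : ℝ) (d' : DecidableEq V), M ≤ c * Real.log K' ∧ @Data V _ d' (Real.exp M) A d X ψ H g) →
    Concl C K' A := by
  obtain ⟨n, hn1, hn, -⟩ := nat_const c
  refine ⟨((5000 * n ^ 5000 : ℕ) : ℝ), ?_⟩
  intro V _ inst K' A hA hK' hD
  obtain ⟨d, X, ψ, H, g, M, d', hM, hD⟩ := hD
  have e : d' = inst := Subsingleton.elim _ _
  subst e
  have hK1 := one_le_K hA hK'
  have hK0 : 0 < K' := by linarith
  refine concl_of_data hn1 hA hK' (hD.mono ?_)
  have h1 : Real.exp M ≤ K' ^ n := by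
    rw [← Real.exp_log (show (0 : ℝ) < K' ^ n by positivity), Real.log_pow]
    exact Real.exp_le_exp.2 (hM.trans (mul_le_mul_of_nonneg_right hn (Real.log_nonneg hK1)))
  have hn1r : (1 : ℝ) ≤ n := by exact_mod_cast hn1
  calc Real.exp M ≤ K' ^ n := h1
    _ = 1 * K' ^ n := (one_mul _).symm
    _ ≤ n * K' ^ n := mul_le_mul_of_nonneg_right hn1r (by positivity)

/-- the numbers of the two theorems -/
theorem numbers {L ℓ x Δ : ℝ} (hL0 : 0 ≤ L) (hℓ : L + 0.69 ≤ ℓ) (hx : 0 ≤ x) (hΔ0 : 0 ≤ Δ)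
    (hΔ : Δ ≤ 40 * x) :
    210000000 * (40 * L + 1) * (1 + Real.log (2 + Δ)) ≤
      50000000000 * ((1 + Real.log (1 + x)) * ℓ) := by
  have h1 : Real.log (2 + Δ) ≤ 4 + Real.log (1 + x) := by
    have h2 : 2 + Δ ≤ Real.exp 4 * (1 + x) := by
      have e1 : (40 : ℝ) ≤ Real.exp 4 := by
        have e2 : Real.exp 4 = Real.exp 1 ^ 4 := by
          rw [← Real.exp_nat_mul]
          norm_num
        rw [e2]
        have e3 := Real.exp_one_gt_d9
        calc (40 : ℝ) ≤ 2.7 ^ 4 := by norm_num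
          _ ≤ _ := pow_le_pow_left₀ (by norm_num) (by linarith) 4
      nlinarith
    have h3 := Real.log_le_log (by linarith) h2
    rw [Real.log_mul (Real.exp_pos _).ne' (by linarith), Real.log_exp] at h3
    exact h3
  have h2 : 0 ≤ Real.log (1 + x) := Real.log_nonneg (by linarith)
  have h3 : 1 + Real.log (2 + Δ) ≤ 5 * (1 + Real.log (1 + x)) := by linarith
  have h4 : 0 ≤ 1 + Real.log (2 + Δ) := by
    have := Real.log_nonneg (show (1 : ℝ) ≤ 2 + Δ by linarith)
    linarith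
  have h5 : 40 * L + 1 ≤ 40 * ℓ := by linarith
  calc 210000000 * (40 * L + 1) * (1 + Real.log (2 + Δ))
      ≤ 210000000 * (40 * ℓ) * (5 * (1 + Real.log (1 + x))) :=
        mul_le_mul (by linarith) h3 h4 (by nlinarith)
    _ = 42000000000 * ((1 + Real.log (1 + x)) * ℓ) := by ring
    _ ≤ _ := by
      refine mul_le_mul_of_nonneg_right (by norm_num) ?_
      have : 0 ≤ ℓ := by linarith
      positivity

end Pool.Agent.W5h20.Pr
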