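import Mathlib
import Pool.Agent.W5h20.Pr.Fin

/-!
# Near products with small sums with the single coordinates
-/

set_option autoImplicit false

namespace Pool.Agent.W5h20.Pr

open Finset Pool.Agent.Y359.PE Pool.Agent.Y806.DF Pool.Agent.R92.Star
open scoped Pointwise

section

variable {ι Γ : Type*} [AddCommGroup Γ] [Fintype ι]

open scoped Classical in
/-- **Small sums with the coordinate `i` make the conditional laws of this coordinate close.** -/
theorem eta_le {A : Finset (ι → Γ)} (hA : A.Nonempty) {i : ι} {lam : ℝ}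
    (hlam : h (A ×ˢ A) (fun p => p.1 + Set.indicator {i} p.2) ≤ HH A univ + lam)
    {J : Finset ι} (hiJ : i ∉ J) : eta A J i ≤ 3 * lam := by
  set R : Finset ι := univ.erase i with hR
  have hJR : J ⊆ R := fun j hj => mem_erase.2 ⟨fun h => hiJ (h ▸ hj), mem_univ _⟩
  have hins : insert i R = univ := insert_erase (mem_univ i)
  have h0 := HH_submod A J R i hJR
  rw [hins] at h0
  -- the sum with the coordinate
  have e1 : h (A ×ˢ A) (fun p => p.1 + Set.indicator {i} p.2) =
      h (A ×ˢ A) (fun p => (tp R co p.1, p.1 i + p.2 i)) := by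
    refine h_congr fun x _ y _ => ?_
    rw [Prod.mk.injEq, tp_eq, funext_iff]
    constructor
    · intro h
      constructor
      · intro j hj
        have hji : j ∉ ({i} : Set ι) := fun h' => (mem_erase.1 hj).1 h'
        have := h j
        simp only [Pi.add_apply, Set.indicator_of_notMem hji, add_zero] at this
        exact this
      · have := h i
        simp only [Pi.add_apply, Set.indicator_of_mem (Set.mem_singleton i)] at this
        exact this
    · rintro ⟨h1, h2⟩ j
      by_cases hj : j = i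
      · subst hj
        simp only [Pi.add_apply, Set.indicator_of_mem (Set.mem_singleton j)]
        exact h2
      · have hji : j ∉ ({i} : Set ι) := hj
        simp only [Pi.add_apply, Set.indicator_of_notMem hji, add_zero]
        exact h1 j (mem_erase.2 ⟨hj, mem_univ _⟩)
  rw [e1] at hlam
  have e2 : h (A ×ˢ A) (fun p => (p.1, p.1 i + p.2 i)) = HH A univ + h A (co i) := by
    have h1 := h_prod hA hA (fun a => a) (co i)
    rw [HH_univ] at h1
    rw [← h1]
    refine h_congr fun x _ y _ => ?_
    simp only [Prod.mk.injEq, co]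
    constructor
    · rintro ⟨h1, h2⟩
      rw [h1] at h2
      exact ⟨h1, add_left_cancel h2⟩
    · rintro ⟨h1, h2⟩
      rw [h1, h2]
      exact ⟨rfl, rfl⟩
  -- the coordinate given the others
  have a1 : h A (co i) ≤ HH A univ - HH A R + lam := by
    have h1 := submod (A ×ˢ A) (fun p => tp R co p.1) (fun p => p.1) (fun p => p.1 i + p.2 i)
      (fun x _ y _ hxy => by
        have hxy' : x.1 = y.1 := hxy
        rw [hxy'])
    have h2 : h (A ×ˢ A) (fun p : (ι → Γ) × (ι → Γ) => p.1) = HH A univ := by
      rw [h_fst hA (fun a => a), HH_univ]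
    have h3 : h (A ×ˢ A) (fun p : (ι → Γ) × (ι → Γ) => tp R co p.1) = HH A R := h_fst hA (tp R co)
    rw [e2, h2, h3] at h1
    linarith
  -- the sum of two independent copies of the coordinate
  have a2 : h (A ×ˢ A) (fun p => p.1 i + p.2 i) ≤ h A (co i) + lam := by
    have h1 := h_data (S := A ×ˢ A) (fun p => (co i p.1, co i p.2)) (fun p => p.1 i + p.2 i)
      (fun p => tp R co p.1) (fun x _ y _ hxy => by
        simp only [Prod.mk.injEq, co] at hxy
        rw [hxy.1, hxy.2])
    have h2 : h (A ×ˢ A) (fun p => (co i p.1, co i p.2)) = h A (co i) + h A (co i) :=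
      h_prod hA hA (co i) (co i)
    have h3 : h (A ×ˢ A) (fun p => ((co i p.1, co i p.2), tp R co p.1)) =
        HH A univ + h A (co i) := by
      have h4 := h_prod hA hA (fun a => a) (co i)
      rw [HH_univ] at h4
      rw [← h4]
      refine h_congr fun x _ y _ => ?_
      simp only [Prod.mk.injEq, tp_eq]
      constructor
      · rintro ⟨⟨h1, h2⟩, h3⟩
        refine ⟨?_, h2⟩
        funext j
        by_cases hj : j = i
        · subst hj
          exact h1
        · exact h3 j (mem_erase.2 ⟨hj, mem_univ _⟩)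
      · rintro ⟨h1, h2⟩
        rw [h1]
        exact ⟨⟨rfl, h2⟩, fun _ _ => rfl⟩
    have h4 : h (A ×ˢ A) (fun p => (p.1 i + p.2 i, tp R co p.1)) =
        h (A ×ˢ A) (fun p => (tp R co p.1, p.1 i + p.2 i)) := h_congr fun x _ y _ => by
      rw [Prod.mk.injEq, Prod.mk.injEq]
      tauto
    rw [h2, h3, h4] at h1
    linarith
  -- from sums to differences
  have a3 : dR A (co i) A (co i) ≤ 2 * lam := by
    have h1 := dR_self_le hA (co i) hA (fun a : ι → Γ => -a i)
    have h2 : hd A (co i) A (fun a : ι → Γ => -a i) = h (A ×ˢ A) (fun p => p.1 i + p.2 i) := by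
      unfold hd
      refine h_congr fun x _ y _ => ?_
      simp only [co, sub_neg_eq_add]
    have h3 : h A (fun a : ι → Γ => -a i) = h A (co i) := h_congr fun x _ y _ => by
      rw [neg_inj]
      rfl
    have h4 : dR A (co i) A (fun a : ι → Γ => -a i) ≤ lam := by
      unfold dR
      rw [h2, h3]
      linarith
    linarith
  -- the bound
  have a4 : h (A ×ˢ A) (fun p => ((tp J co p.1, tp J co p.2), p.1 i - p.2 i)) ≤
      2 * HH A J + hd A (co i) A (co i) := by
    have h1 := h_pair_le (A ×ˢ A) (fun p : (ι → Γ) × (ι → Γ) => (tp J co p.1, tp J co p.2))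
      (fun p => p.1 i - p.2 i)
    have h2 : h (A ×ˢ A) (fun p : (ι → Γ) × (ι → Γ) => (tp J co p.1, tp J co p.2)) =
        HH A J + HH A J := h_prod hA hA (tp J co) (tp J co)
    have h3 : hd A (co i) A (co i) = h (A ×ˢ A) (fun p => p.1 i - p.2 i) := rfl
    rw [h3]
    linarith
  unfold dR at a3
  unfold eta
  linarith

end

/-- the numbers -/
theorem numbers' {L ℓ x : ℝ} (hL0 : 0 ≤ L) (hℓ : L + 0.69 ≤ ℓ) (hx : 0 ≤ x) :
    210000000 * (12 * L + 1) * (1 + Real.log (2 + 6 * x)) ≤
      50000000000 * ((1 + Real.log (1 + x)) * ℓ) := by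
  have h2 : 0 ≤ Real.log (1 + x) := Real.log_nonneg (by linarith)
  have h0 : 0 ≤ 1 + Real.log (2 + 6 * x) := by
    have := Real.log_nonneg (show (1 : ℝ) ≤ 2 + 6 * x by linarith)
    linarith
  refine le_trans ?_ (numbers hL0 hℓ hx (Δ := 6 * x) (by linarith) (by linarith))
  refine mul_le_mul_of_nonneg_right ?_ h0
  linarith

universe u v

/-- **Small sums with the single coordinates.** -/
theorem local_case : ∃ C : ℝ, ∀ (ι : Type u) [Fintype ι] (Γ : Type v)
    [AddCommGroup Γ] [DecidableEq (ι → Γ)] (K κ : ℝ) (A : Finset (ι → Γ)), A.Nonempty → 1 ≤ κ →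
    ((A + A).card : ℝ) ≤ K * A.card →
    (∀ I : Set ι, ((A.image I.indicator).card : ℝ) * (A.image Iᶜ.indicator).card ≤ K * A.card) →
    (∀ i : ι, ((A + A.image (Set.indicator {i})).card : ℝ) ≤ κ * A.card) →
    Concl C ((2 * K) ^ (1 + Real.log (1 + Real.log κ))) A := by
  obtain ⟨C, hC⟩ := concl_of_exp.{max u v} 50000000000
  refine ⟨C, ?_⟩
  intro ι _ Γ _ _ K κ A hA hκ hAA hsplit hloc
  have hK1 : 1 ≤ K := one_le_K hA hAA
  have hA0 : (0 : ℝ) < A.card := by exact_mod_cast card_pos.2 hA
  set L := Real.log K with hL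
  set ℓ := Real.log (2 * K) with hℓ
  have hL0 : 0 ≤ L := Real.log_nonneg hK1
  have hℓL : ℓ = Real.log 2 + L := by
    rw [hℓ, Real.log_mul (by norm_num) (by linarith)]
  have hlog2 := Real.log_two_gt_d9
  have hx0 : 0 ≤ Real.log κ := Real.log_nonneg hκ
  have hid : A.image (fun a => a) = A := image_id'
  obtain ⟨F, hF, -, h1, h2, h3⟩ := near_indep hA (L := L)
    (by
      rw [HH_card hA]
      have := hd_image_le hA (fun a => a)
      rw [hid] at this
      exact this.trans (card_sub_le hA hA hK1 hAA hAA))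
    (split_of_card hA (by linarith) hsplit)
  have hΔ : ∀ i, dR (F i) (co i) (F i) (co i) ≤ 6 * Real.log κ := by
    intro i
    obtain ⟨J, hiJ, hJ⟩ := h3 i
    have h4 := eta_le hA (i := i) (lam := Real.log κ) (by
      rw [HH_card hA]
      have e1 := Pool.Agent.W5h20.Sym.h_le_log' (hA.product hA)
        (fun p : (ι → Γ) × (ι → Γ) => p.1 + Set.indicator {i} p.2)
      refine e1.trans ?_
      have e2 : (A ×ˢ A).image (fun p : (ι → Γ) × (ι → Γ) => p.1 + Set.indicator {i} p.2) ⊆
          A + A.image (Set.indicator {i}) := by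
        intro v hv
        obtain ⟨⟨a, b⟩, hab, rfl⟩ := mem_image.1 hv
        rw [mem_product] at hab
        exact add_mem_add hab.1 (mem_image_of_mem _ hab.2)
      have e3 : (((A ×ˢ A).image (fun p : (ι → Γ) × (ι → Γ) =>
          p.1 + Set.indicator {i} p.2)).card : ℝ) ≤ κ * A.card :=
        le_trans (by exact_mod_cast card_le_card e2) (hloc i)
      have e4 : (0 : ℝ) < ((A ×ˢ A).image (fun p : (ι → Γ) × (ι → Γ) =>
          p.1 + Set.indicator {i} p.2)).card := by
        exact_mod_cast card_pos.2 ((hA.product hA).image _)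
      have e5 := Real.log_le_log e4 e3
      rw [Real.log_mul (by linarith) hA0.ne'] at e5
      linarith) hiJ
    linarith
  obtain ⟨d, X, ψ, H, g, hD⟩ := assemble hA F hF (fun i a => a i)
    (M := 12 * L) (Δ := 6 * Real.log κ) (h1.trans (by linarith)) h2 (by linarith) hΔ
  have hK' : K ≤ (2 * K) ^ (1 + Real.log (1 + Real.log κ)) := by
    have e1 : 0 ≤ Real.log (1 + Real.log κ) := Real.log_nonneg (by linarith)
    calc K ≤ (2 * K) ^ (1 : ℝ) := by rw [Real.rpow_one]; linarith
      _ ≤ _ := Real.rpow_le_rpow_of_exponent_le (by linarith) (by linarith)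
  refine hC (ι → Γ) _ A hA (hAA.trans (mul_le_mul_of_nonneg_right hK' (Nat.cast_nonneg _)))
    ⟨d, X, ψ, H, g, _, _, ?_, hD⟩
  rw [Real.log_rpow (by linarith)]
  exact numbers' hL0 (by linarith) hx0

end Pool.Agent.W5h20.Pr
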