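import Mathlib
import Pool.Agent.W5h20.Pr.Fin

/-!
# Transitive groups of permutations of the coordinates
-/

set_option autoImplicit false

namespace Pool.Agent.W5h20.Pr

open Finset Pool.Agent.Y359.PE Pool.Agent.Y806.DF Pool.Agent.R92.Star
open scoped Pointwise

universe u v

/-- **Transitive groups of permutations of the coordinates.** -/
theorem transitive_case : ∃ C : ℝ, ∀ (ι : Type u) [Fintype ι] [Nonempty ι] (Γ : Type v)
    [AddCommGroup Γ] [DecidableEq (ι → Γ)] (G : Subgroup (Equiv.Perm ι)) (K : ℝ)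
    (A : Finset (ι → Γ)), (∀ i j : ι, ∃ π ∈ G, π i = j) → A.Nonempty →
    ((A + A).card : ℝ) ≤ K * A.card →
    (∀ I : Set ι, ((A.image I.indicator).card : ℝ) * (A.image Iᶜ.indicator).card ≤ K * A.card) →
    (∀ π ∈ G, ((A + A.image (fun a i => a (π i))).card : ℝ) ≤ K * A.card) →
    Concl C ((2 * K) ^ (1 + Real.log (1 + Real.log (2 * K) / Fintype.card ι))) A := by
  obtain ⟨C, hC⟩ := concl_of_exp.{max u v} 50000000000
  refine ⟨C, ?_⟩
  intro ι _ _ Γ _ _ G K A hG hA hAA hsplit hperm
  have hK1 : 1 ≤ K := one_le_K hA hAA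
  have hA0 : (0 : ℝ) < A.card := by exact_mod_cast card_pos.2 hA
  have hn : (0 : ℝ) < Fintype.card ι := by exact_mod_cast Fintype.card_pos
  set L := Real.log K with hL
  set ℓ := Real.log (2 * K) with hℓ
  have hL0 : 0 ≤ L := Real.log_nonneg hK1
  have hℓL : ℓ = Real.log 2 + L := by
    rw [hℓ, Real.log_mul (by norm_num) (by linarith)]
  have hlog2 := Real.log_two_gt_d9
  set x := ℓ / Fintype.card ι with hx
  have hx0 : 0 ≤ x := by
    rw [hx]
    exact div_nonneg (by linarith) hn.le
  have hid : A.image (fun a => a) = A := image_id'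
  obtain ⟨F, j, hF, h1, h2⟩ := near_iid hA (L := L)
    (by
      rw [HH_card hA]
      have := hd_image_le hA (fun a => a)
      rw [hid] at this
      exact this.trans (card_sub_le hA hA hK1 hAA hAA))
    (split_of_card hA (by linarith) hsplit) G hG (by
      intro π hπ
      rw [HH_card hA]
      exact (hd_image_le hA (fun a i => a (π i))).trans
        (card_sub_le hA (hA.image _) hK1 hAA (hperm π hπ)))
  have hdR0 : 0 ≤ dR F (co j) F (co j) := dR_nonneg hF _ hF _
  have hΔ : dR F (co j) F (co j) ≤ 40 * x := by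
    rw [hx, mul_div_assoc', le_div_iff₀ hn]
    linarith
  obtain ⟨d, X, ψ, H, g, hD⟩ := assemble hA (fun _ : ι => F) (fun _ => hF) (fun _ a => a j)
    (M := 40 * L) (by linarith) (by
      have e1 : ∑ _i : ι, dR F (fun a => a j) F (fun a => a j) =
          (Fintype.card ι : ℝ) * dR F (co j) F (co j) := by
        rw [sum_const, nsmul_eq_mul, card_univ]
        rfl
      rw [e1]
      exact h2) hdR0 (fun _ => le_rfl)
  have hK' : K ≤ (2 * K) ^ (1 + Real.log (1 + x)) := by
    have e1 : 0 ≤ Real.log (1 + x) := Real.log_nonneg (by linarith)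
    calc K ≤ (2 * K) ^ (1 : ℝ) := by rw [Real.rpow_one]; linarith
      _ ≤ _ := Real.rpow_le_rpow_of_exponent_le (by linarith) (by linarith)
  refine hC (ι → Γ) _ A hA (hAA.trans (mul_le_mul_of_nonneg_right hK' (Nat.cast_nonneg _)))
    ⟨d, X, ψ, H, g, _, _, ?_, hD⟩
  rw [Real.log_rpow (by linarith)]
  exact numbers hL0 (by linarith) hx0 hdR0 hΔ

end Pool.Agent.W5h20.Pr
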