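import Mathlib
import Pool.Agent.W5h20.Pr.Trans
import Pool.Agent.W5h20.Pr.Local

/-!
# Explicit forms of the conclusion, and sign changes
-/

set_option autoImplicit false

namespace Pool.Agent.W5h20.Pr

open Finset Pool.Agent.Y359.PE Pool.Agent.Y806.DF Pool.Agent.R92.Star
open scoped Pointwise

universe u v w

/-- The conclusion of Q1 with all exponents multiplied by `θ`: the set `A` is covered by at most
`(2 K) ^ (C θ)` translates of a centred convex coset progression of dimension at most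
`C θ log (2 K)` and volume at most `|A|`. -/
def ConclX {Γ : Type*} [AddCommGroup Γ] (C θ K : ℝ) (A : Finset Γ) : Prop :=
  ∃ (d : ℕ) (B : Set (Fin d → ℝ)) (ψ : (Fin d → ℤ) →+ Γ) (H : AddSubgroup Γ) (T : Finset Γ),
    (d : ℝ) ≤ C * θ * Real.log (2 * K) ∧
    Convex ℝ B ∧ IsCompact B ∧ (interior B).Nonempty ∧ (∀ x ∈ B, -x ∈ B) ∧
    Finite H ∧
    {x : Fin d → ℤ | (fun i => (x i : ℝ)) ∈ B}.ncard * Nat.card H ≤ A.card ∧
    (T.card : ℝ) ≤ (2 * K) ^ (C * θ) ∧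
    ∀ a ∈ A, ∃ t ∈ T, ∃ x : Fin d → ℤ, (fun i => (x i : ℝ)) ∈ B ∧
      ∃ h ∈ H, a = t + ψ x + h

/-- from powers to the explicit form -/
theorem conclX_of (C : ℝ) {Γ : Type*} [AddCommGroup Γ] {K θ : ℝ} {A : Finset Γ} (hK : 1 ≤ K)
    (hθ : 1 ≤ θ) (h : Concl C ((2 * K) ^ θ) A) : ConclX (3 * |C|) θ K A := by
  obtain ⟨d, B, ψ, H, T, hd, hB, hH, hvol, hT, hcov⟩ := h
  have h2K : (1 : ℝ) ≤ 2 * K := by linarith
  have h2K0 : (0 : ℝ) < 2 * K := by linarith
  have hlog2 := Real.log_two_gt_d9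
  have hl2 : Real.log 2 ≤ Real.log (2 * K) := Real.log_le_log (by norm_num) (by linarith)
  have hl0 : 0 ≤ Real.log (2 * K) := Real.log_nonneg h2K
  have hC0 : 0 ≤ |C| := abs_nonneg C
  refine ⟨d, B, ψ, H, T, ?_, hB.1, hB.2.1, hB.2.2.1, hB.2.2.2, hH, hvol, ?_, hcov⟩
  · have e1 : Real.log (2 * (2 * K) ^ θ) = Real.log 2 + θ * Real.log (2 * K) := by
      rw [Real.log_mul (by norm_num) (Real.rpow_pos_of_pos h2K0 θ).ne', Real.log_rpow h2K0]
    rw [e1] at hd
    have e2 : Real.log (2 * K) ≤ θ * Real.log (2 * K) := by nlinarith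
    have e3 : 0 ≤ Real.log 2 + θ * Real.log (2 * K) := by linarith
    calc (d : ℝ) ≤ C * (Real.log 2 + θ * Real.log (2 * K)) := hd
      _ ≤ |C| * (Real.log 2 + θ * Real.log (2 * K)) :=
        mul_le_mul_of_nonneg_right (le_abs_self C) e3
      _ ≤ |C| * (3 * (θ * Real.log (2 * K))) := by
        refine mul_le_mul_of_nonneg_left ?_ hC0
        linarith
      _ = 3 * |C| * θ * Real.log (2 * K) := by ring
  · have e0 : (1 : ℝ) ≤ (2 * K) ^ θ := Real.one_le_rpow h2K (by linarith)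
    have e1 : |C| ≤ (2 * K) ^ (2 * |C|) := by
      have h1 : Real.exp (2 * |C| * Real.log 2) ≤ (2 * K) ^ (2 * |C|) := by
        rw [Real.rpow_def_of_pos h2K0]
        refine Real.exp_le_exp.2 ?_
        rw [mul_comm (Real.log (2 * K))]
        exact mul_le_mul_of_nonneg_left hl2 (by positivity)
      have h2 := Real.add_one_le_exp (2 * |C| * Real.log 2)
      have h3 : |C| ≤ 2 * |C| * Real.log 2 := by nlinarith
      linarith
    have e2 : ((2 * K) ^ θ) ^ C ≤ (2 * K) ^ (θ * |C|) := by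
      rw [Real.rpow_mul h2K0.le]
      exact Real.rpow_le_rpow_of_exponent_le e0 (le_abs_self C)
    have e3 : 0 < ((2 * K) ^ θ) ^ C := Real.rpow_pos_of_pos (by linarith) _
    calc (T.card : ℝ) ≤ C * ((2 * K) ^ θ) ^ C := hT
      _ ≤ |C| * ((2 * K) ^ θ) ^ C := mul_le_mul_of_nonneg_right (le_abs_self C) e3.le
      _ ≤ (2 * K) ^ (2 * |C|) * (2 * K) ^ (θ * |C|) := by
        refine mul_le_mul e1 e2 e3.le (by positivity)
      _ = (2 * K) ^ (2 * |C| + θ * |C|) := by rw [Real.rpow_add h2K0]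
      _ ≤ (2 * K) ^ (3 * |C| * θ) := by
        refine Real.rpow_le_rpow_of_exponent_le h2K ?_
        nlinarith

/-- **Transitive groups of permutations of the coordinates**, explicit form. -/
theorem transitive_explicit : ∃ C : ℝ, ∀ (ι : Type u) [Fintype ι] [Nonempty ι] (Γ : Type v)
    [AddCommGroup Γ] [DecidableEq (ι → Γ)] (G : Subgroup (Equiv.Perm ι)) (K : ℝ)
    (A : Finset (ι → Γ)), (∀ i j : ι, ∃ π ∈ G, π i = j) → A.Nonempty →
    ((A + A).card : ℝ) ≤ K * A.card →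
    (∀ I : Set ι, ((A.image I.indicator).card : ℝ) * (A.image Iᶜ.indicator).card ≤ K * A.card) →
    (∀ π ∈ G, ((A + A.image (fun a i => a (π i))).card : ℝ) ≤ K * A.card) →
    ConclX C (1 + Real.log (1 + Real.log (2 * K) / Fintype.card ι)) K A := by
  obtain ⟨C, hC⟩ := transitive_case.{u, v}
  refine ⟨3 * |C|, ?_⟩
  intro ι _ _ Γ _ _ G K A hG hA hAA hsplit hperm
  have hK1 : 1 ≤ K := one_le_K hA hAA
  have hn : (0 : ℝ) < Fintype.card ι := by exact_mod_cast Fintype.card_pos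
  refine conclX_of C hK1 ?_ (hC ι Γ G K A hG hA hAA hsplit hperm)
  have h1 : 0 ≤ Real.log (2 * K) / Fintype.card ι :=
    div_nonneg (Real.log_nonneg (by linarith)) hn.le
  have h2 := Real.log_nonneg (show (1 : ℝ) ≤ 1 + Real.log (2 * K) / Fintype.card ι by linarith)
  linarith

/-- **Small sums with the single coordinates**, explicit form. -/
theorem local_explicit : ∃ C : ℝ, ∀ (ι : Type u) [Fintype ι] (Γ : Type v)
    [AddCommGroup Γ] [DecidableEq (ι → Γ)] (K κ : ℝ) (A : Finset (ι → Γ)), A.Nonempty → 1 ≤ κ →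
    ((A + A).card : ℝ) ≤ K * A.card →
    (∀ I : Set ι, ((A.image I.indicator).card : ℝ) * (A.image Iᶜ.indicator).card ≤ K * A.card) →
    (∀ i : ι, ((A + A.image (Set.indicator {i})).card : ℝ) ≤ κ * A.card) →
    ConclX C (1 + Real.log (1 + Real.log κ)) K A := by
  obtain ⟨C, hC⟩ := local_case.{u, v}
  refine ⟨3 * |C|, ?_⟩
  intro ι _ Γ _ _ K κ A hA hκ hAA hsplit hloc
  have hK1 : 1 ≤ K := one_le_K hA hAA
  refine conclX_of C hK1 ?_ (hC ι Γ K κ A hA hκ hAA hsplit hloc)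
  have h1 : 0 ≤ Real.log κ := Real.log_nonneg hκ
  have h2 := Real.log_nonneg (show (1 : ℝ) ≤ 1 + Real.log κ by linarith)
  linarith

/-- with a bounded `θ` this is the conclusion of Q1 -/
theorem concl_of_conclX (C θ₀ : ℝ) : ∃ C' : ℝ, ∀ (Γ : Type u) [AddCommGroup Γ] (K θ : ℝ)
    (A : Finset Γ), 1 ≤ K → 0 ≤ θ → θ ≤ θ₀ → ConclX C θ K A → Concl C' K A := by
  refine ⟨|C| * |θ₀| + 2 ^ (|C| * |θ₀|), ?_⟩
  intro Γ _ K θ A hK hθ0 hθ h
  obtain ⟨d, B, ψ, H, T, hd, hB1, hB2, hB3, hB4, hH, hvol, hT, hcov⟩ := h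
  have h2K : (1 : ℝ) ≤ 2 * K := by linarith
  have hl0 : 0 ≤ Real.log (2 * K) := Real.log_nonneg h2K
  set D := |C| * |θ₀| with hD
  have hD0 : 0 ≤ D := by positivity
  have hCD : C * θ ≤ D := by
    calc C * θ ≤ |C| * θ := mul_le_mul_of_nonneg_right (le_abs_self C) hθ0
      _ ≤ |C| * |θ₀| := mul_le_mul_of_nonneg_left (hθ.trans (le_abs_self _)) (abs_nonneg C)
  have h2D : (0 : ℝ) < 2 ^ D := Real.rpow_pos_of_pos (by norm_num) D
  refine ⟨d, B, ψ, H, T, ?_, ⟨hB1, hB2, hB3, hB4⟩, hH, hvol, ?_, hcov⟩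
  · refine hd.trans (mul_le_mul_of_nonneg_right ?_ hl0)
    linarith
  · calc (T.card : ℝ) ≤ (2 * K) ^ (C * θ) := hT
      _ ≤ (2 * K) ^ D := Real.rpow_le_rpow_of_exponent_le h2K hCD
      _ = 2 ^ D * K ^ D := Real.mul_rpow (by norm_num) (by linarith)
      _ ≤ (D + 2 ^ D) * K ^ (D + 2 ^ D) := by
        refine mul_le_mul (by linarith) ?_ (by positivity) (by linarith)
        exact Real.rpow_le_rpow_of_exponent_le hK (by linarith)

end Pool.Agent.W5h20.Pr
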