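import Mathlib
import Pool.Agent.W5h20.Pr.Expl

/-!
# Sign changes of the coordinates, and coordinate projections
-/

set_option autoImplicit false

namespace Pool.Agent.W5h20.Pr

open Finset Pool.Agent.Y359.PE Pool.Agent.Y806.DF Pool.Agent.R92.Star
open scoped Pointwise

universe u v

section

variable {ι Γ : Type*} [AddCommGroup Γ] [DecidableEq (ι → Γ)]

/-- A set with a small sum with a multiple of a coordinate projection is nearly a product. -/
theorem near_of_mul (A : Finset (ι → Γ)) (I : Set ι) (m : ℕ)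
    (hm : ∀ x : Γ, m • x = 0 → x = 0) :
    (A.image I.indicator).card * (A.image Iᶜ.indicator).card ≤
      (A + A.image (fun a => m • I.indicator a)).card := by
  classical
  -- a lift of the points of the second image
  have hl : ∀ x ∈ A.image Iᶜ.indicator, ∃ a ∈ A, Iᶜ.indicator a = x := fun x hx => by
    obtain ⟨a, ha, h⟩ := mem_image.1 hx
    exact ⟨a, ha, h⟩
  set f : (ι → Γ) → (ι → Γ) := fun x =>
    if hx : x ∈ A.image Iᶜ.indicator then (hl x hx).choose else 0 with hf
  have hf1 : ∀ x ∈ A.image Iᶜ.indicator, f x ∈ A ∧ Iᶜ.indicator (f x) = x := fun x hx => by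
    have h1 := (hl x hx).choose_spec
    rw [hf]
    simp only [dif_pos hx]
    exact h1
  rw [← card_product]
  refine card_le_card_of_injOn (fun p => f p.2 + m • p.1) ?_ ?_
  · rintro ⟨y, x⟩ hp
    rw [mem_coe, mem_product] at hp
    obtain ⟨b, hb, rfl⟩ := mem_image.1 hp.1
    exact add_mem_add (hf1 x hp.2).1 (mem_image_of_mem (fun a => m • I.indicator a) hb)
  · rintro ⟨y, x⟩ hp ⟨y', x'⟩ hp' he
    rw [mem_coe, mem_product] at hp hp'
    obtain ⟨b, hb, hb'⟩ := mem_image.1 hp.1
    obtain ⟨c, hc, hc'⟩ := mem_image.1 hp'.1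
    simp only at hb' hc' he
    have hx : x = x' := by
      have h1 := congrArg Iᶜ.indicator he
      rw [← (hf1 x hp.2).2, ← (hf1 x' hp'.2).2]
      have h2 : ∀ (z w : ι → Γ), Iᶜ.indicator (z + m • I.indicator w) = Iᶜ.indicator z := by
        intro z w
        funext i
        by_cases hi : i ∈ I
        · simp [hi]
        · simp [hi]
      rw [← hb', ← hc', h2, h2] at h1
      exact h1
    subst hx
    have hy : m • y = m • y' := add_left_cancel he
    have hyy : y = y' := by
      funext i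
      have h1 := congrFun hy i
      simp only [Pi.smul_apply] at h1
      have h2 : m • (y i - y' i) = 0 := by rw [smul_sub, h1, sub_self]
      exact sub_eq_zero.1 (hm _ h2)
    rw [hyy]

/-- Small sums with the coordinate projections. -/
theorem near_of_proj {A : Finset (ι → Γ)} {K : ℝ} (I : Set ι)
    (h : ((A + A.image I.indicator).card : ℝ) ≤ K * A.card) :
    ((A.image I.indicator).card : ℝ) * (A.image Iᶜ.indicator).card ≤ K * A.card := by
  refine le_trans ?_ h
  have h1 := near_of_mul A I 1 (fun x hx => by simpa using hx)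
  simp only [one_smul] at h1
  exact_mod_cast h1

/-- Small sums with the sign changes. -/
theorem near_of_signs {A : Finset (ι → Γ)} (hA : A.Nonempty) {K : ℝ} (hΓ : ∀ x : Γ, 2 • x = 0 → x = 0)
    (hAA : ((A + A).card : ℝ) ≤ K * A.card) (I : Set ι)
    (h : ((A + A.image (fun a => I.indicator a - Iᶜ.indicator a)).card : ℝ) ≤ K * A.card) :
    ((A.image I.indicator).card : ℝ) * (A.image Iᶜ.indicator).card ≤ 54 * K ^ 3 * A.card := by
  have hK1 : 1 ≤ K := one_le_K hA hAA
  set s : (ι → Γ) → (ι → Γ) := fun a => I.indicator a - Iᶜ.indicator a with hs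
  have hsadd : ∀ a b, s (a + b) = s a + s b := by
    intro a b
    rw [hs]
    simp only [Set.indicator_add']
    abel
  have hsinj : Function.Injective s := by
    intro a b hab
    funext i
    have h1 := congrFun hab i
    by_cases hi : i ∈ I
    · simpa [hs, hi] using h1
    · simpa [hs, hi] using h1
  have h2I : ∀ a, a + s a = 2 • I.indicator a := by
    intro a
    funext i
    by_cases hi : i ∈ I
    · simp [hs, hi, two_smul]
    · simp [hs, hi]
  set B := A ∪ A.image s with hB
  have hAB : A ⊆ B := subset_union_left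
  have hBB : ((B + B).card : ℝ) ≤ (3 * K) * B.card := by
    have e1 : B + B ⊆ (A + A) ∪ (A + A.image s) ∪ (A + A).image s := by
      intro x hx
      obtain ⟨a, ha, b, hb, rfl⟩ := mem_add.1 hx
      rw [hB, mem_union] at ha hb
      rw [mem_union, mem_union]
      rcases ha with ha | ha <;> rcases hb with hb | hb
      · exact Or.inl (Or.inl (add_mem_add ha hb))
      · exact Or.inl (Or.inr (add_mem_add ha hb))
      · exact Or.inl (Or.inr (by rw [add_comm a b]; exact add_mem_add hb ha))
      · obtain ⟨a', ha', rfl⟩ := mem_image.1 ha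
        obtain ⟨b', hb', rfl⟩ := mem_image.1 hb
        exact Or.inr (mem_image.2 ⟨a' + b', add_mem_add ha' hb', hsadd a' b'⟩)
    have e2 : ((B + B).card : ℝ) ≤ (A + A).card + (A + A.image s).card + (A + A).card := by
      have h1 := card_le_card e1
      have h2 := card_union_le ((A + A) ∪ (A + A.image s)) ((A + A).image s)
      have h3 := card_union_le (A + A) (A + A.image s)
      have h4 : ((A + A).image s).card ≤ (A + A).card := card_image_le
      have h5 : (B + B).card ≤ (A + A).card + (A + A.image s).card + (A + A).card := by omega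
      exact_mod_cast h5
    have e3 : (A.card : ℝ) ≤ B.card := by exact_mod_cast card_le_card hAB
    calc ((B + B).card : ℝ) ≤ K * A.card + K * A.card + K * A.card := by linarith
      _ = 3 * K * A.card := by ring
      _ ≤ _ := mul_le_mul_of_nonneg_left e3 (by linarith)
  have hB2 : (B.card : ℝ) ≤ 2 * A.card := by
    have h1 := card_union_le A (A.image s)
    rw [← hB] at h1
    have h2 : (A.image s).card ≤ A.card := card_image_le
    have h3 : B.card ≤ 2 * A.card := by omega
    exact_mod_cast h3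
  have h3B : ((3 • B).card : ℝ) ≤ (3 * K) ^ 3 * B.card := by
    have h1 := pluennecke_ruzsa_inequality_nsmul_sub_nsmul_add (A := B) (B := B)
      (hA.mono hAB) 3 0
    have hBc : (0 : ℝ) < B.card := by
      exact_mod_cast card_pos.2 (hA.mono hAB)
    have h2 : ((3 • B - 0 • B).card : ℝ) ≤ (((B + B).card : ℝ) / B.card) ^ (3 + 0) * B.card := by
      have h3 := (NNRat.cast_le (K := ℝ)).2 h1
      push_cast at h3
      exact h3
    rw [zero_nsmul, sub_zero, add_zero] at h2
    refine h2.trans (mul_le_mul_of_nonneg_right ?_ hBc.le)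
    refine pow_le_pow_left₀ (by positivity) ?_ 3
    rw [div_le_iff₀ hBc]
    exact hBB
  have hsub : A + A.image (fun a => 2 • I.indicator a) ⊆ 3 • B := by
    intro x hx
    obtain ⟨a, ha, y, hy, rfl⟩ := mem_add.1 hx
    obtain ⟨b, hb, rfl⟩ := mem_image.1 hy
    have e1 : (3 : ℕ) • B = B + (B + B) := by
      rw [show (3 : ℕ) = 1 + 1 + 1 from rfl, add_nsmul, add_nsmul, one_nsmul, add_assoc]
    rw [e1, ← h2I b]
    exact add_mem_add (hAB ha) (add_mem_add (hAB hb)
      (mem_union_right _ (mem_image_of_mem s hb)))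
  calc ((A.image I.indicator).card : ℝ) * (A.image Iᶜ.indicator).card
      ≤ ((A + A.image (fun a => 2 • I.indicator a)).card : ℝ) := by
        exact_mod_cast near_of_mul A I 2 hΓ
    _ ≤ ((3 • B).card : ℝ) := by exact_mod_cast card_le_card hsub
    _ ≤ (3 * K) ^ 3 * B.card := h3B
    _ ≤ (3 * K) ^ 3 * (2 * A.card) := mul_le_mul_of_nonneg_left hB2 (by positivity)
    _ = 54 * K ^ 3 * A.card := by ring

end

/-- change of the constants -/
theorem ConclX.mono {Γ : Type*} [AddCommGroup Γ] {C θ θ' K K' : ℝ} {A : Finset Γ} (hC : 0 ≤ C)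
    (hK : 1 ≤ K) (hK' : 1 ≤ K') (hKK : 2 * K' ≤ (2 * K) ^ (7 : ℕ)) (hθ0 : 0 ≤ θ')
    (hθ : θ' ≤ 3 * θ) (h : ConclX C θ' K' A) : ConclX (21 * C) θ K A := by
  obtain ⟨d, B, ψ, H, T, hd, hB1, hB2, hB3, hB4, hH, hvol, hT, hcov⟩ := h
  have hθ1 : 0 ≤ θ := by linarith
  have hl0 : 0 ≤ Real.log (2 * K) := Real.log_nonneg (by linarith)
  have hl : Real.log (2 * K') ≤ 7 * Real.log (2 * K) := by
    have h1 := Real.log_le_log (by linarith) hKK
    rwa [Real.log_pow] at h1
  have hl' : 0 ≤ Real.log (2 * K') := Real.log_nonneg (by linarith)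
  refine ⟨d, B, ψ, H, T, ?_, hB1, hB2, hB3, hB4, hH, hvol, ?_, hcov⟩
  · calc (d : ℝ) ≤ C * θ' * Real.log (2 * K') := hd
      _ ≤ C * (3 * θ) * (7 * Real.log (2 * K)) :=
        mul_le_mul (mul_le_mul_of_nonneg_left hθ hC) hl hl' (by positivity)
      _ = 21 * C * θ * Real.log (2 * K) := by ring
  · calc (T.card : ℝ) ≤ (2 * K') ^ (C * θ') := hT
      _ ≤ ((2 * K) ^ (7 : ℕ)) ^ (C * θ') :=
        Real.rpow_le_rpow (by linarith) hKK (by positivity)
      _ = (2 * K) ^ (7 * (C * θ')) := by
        rw [← Real.rpow_natCast, ← Real.rpow_mul (by linarith)]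
        norm_num
      _ ≤ (2 * K) ^ (21 * C * θ) := by
        refine Real.rpow_le_rpow_of_exponent_le (by linarith) ?_
        have := mul_le_mul_of_nonneg_left hθ hC
        linarith

/-- numbers -/
theorem pow7 {K : ℝ} (hK : 1 ≤ K) : 2 * (54 * K ^ 3) ≤ (2 * K) ^ (7 : ℕ) := by
  have h1 : K ^ 3 ≤ K ^ 7 := pow_le_pow_right₀ hK (by norm_num)
  have h2 : (0 : ℝ) ≤ K ^ 7 := by positivity
  calc 2 * (54 * K ^ 3) = 108 * K ^ 3 := by ring
    _ ≤ 128 * K ^ 7 := by linarith
    _ = (2 * K) ^ (7 : ℕ) := by ring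

theorem log7 {x y : ℝ} (hx : 0 ≤ x) (hy : 0 ≤ y) (hxy : y ≤ 7 * x) :
    1 + Real.log (1 + y) ≤ 3 * (1 + Real.log (1 + x)) := by
  have h0 : 0 ≤ Real.log (1 + x) := Real.log_nonneg (by linarith)
  have h1 : Real.log (1 + y) ≤ Real.log 7 + Real.log (1 + x) := by
    rw [← Real.log_mul (by norm_num) (by linarith)]
    exact Real.log_le_log (by linarith) (by linarith)
  have h2 : Real.log 7 ≤ 2 := by
    rw [Real.log_le_iff_le_exp (by norm_num)]
    have h3 := Real.exp_one_gt_d9
    have h4 : Real.exp 2 = Real.exp 1 * Real.exp 1 := by rw [← Real.exp_add]; norm_num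
    rw [h4]
    nlinarith
  linarith

/-- **Signed permutations.** Sets with small sums with their images under sign changes and under a
transitive group of permutations of the coordinates. -/
theorem signed_explicit : ∃ C : ℝ, ∀ (ι : Type u) [Fintype ι] [Nonempty ι] (Γ : Type v)
    [AddCommGroup Γ] [DecidableEq (ι → Γ)] (G : Subgroup (Equiv.Perm ι)) (K : ℝ)
    (A : Finset (ι → Γ)), (∀ x : Γ, 2 • x = 0 → x = 0) → (∀ i j : ι, ∃ π ∈ G, π i = j) →
    A.Nonempty →
    (∀ I : Set ι, ((A + A.image (fun a => I.indicator a - Iᶜ.indicator a)).card : ℝ) ≤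
      K * A.card) →
    (∀ π ∈ G, ((A + A.image (fun a i => a (π i))).card : ℝ) ≤ K * A.card) →
    ConclX C (1 + Real.log (1 + Real.log (2 * K) / Fintype.card ι)) K A := by
  obtain ⟨C, hC⟩ := transitive_case.{u, v}
  refine ⟨21 * (3 * |C|), ?_⟩
  intro ι _ _ Γ _ _ G K A hΓ hG hA hsign hperm
  have hAA : ((A + A).card : ℝ) ≤ K * A.card := by
    have h1 := hperm 1 G.one_mem
    simpa using h1
  have hK1 : 1 ≤ K := one_le_K hA hAA
  have hn : (0 : ℝ) < Fintype.card ι := by exact_mod_cast Fintype.card_pos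
  have hA0 : (0 : ℝ) ≤ A.card := Nat.cast_nonneg _
  have hK3 : K ≤ 54 * K ^ 3 := by nlinarith [pow_le_pow_right₀ hK1 (show 1 ≤ 3 by norm_num)]
  have hK3' : 1 ≤ 54 * K ^ 3 := by linarith
  have hstep := hC ι Γ G (54 * K ^ 3) A hG hA (hAA.trans (mul_le_mul_of_nonneg_right hK3 hA0))
    (fun I => near_of_signs hA hΓ hAA I (hsign I))
    (fun π hπ => (hperm π hπ).trans (mul_le_mul_of_nonneg_right hK3 hA0))
  have hl' : 0 ≤ Real.log (2 * (54 * K ^ 3)) := Real.log_nonneg (by linarith)
  have hx' : 0 ≤ Real.log (2 * (54 * K ^ 3)) / Fintype.card ι := div_nonneg hl' hn.le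
  have hlog := Real.log_nonneg (show (1 : ℝ) ≤ 1 + Real.log (2 * (54 * K ^ 3)) / Fintype.card ι by
    linarith)
  refine ConclX.mono (by positivity) hK1 hK3' (pow7 hK1) (by linarith) ?_
    (conclX_of C hK3' (by linarith) hstep)
  refine log7 (div_nonneg (Real.log_nonneg (by linarith)) hn.le) hx' ?_
  rw [mul_div_assoc']
  refine div_le_div_of_nonneg_right ?_ hn.le
  have h1 := Real.log_le_log (by linarith) (pow7 hK1)
  rwa [Real.log_pow] at h1

end Pool.Agent.W5h20.Pr
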