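import Mathlib
import Pool.Agent.W5h20.Pr.Orb
import Pool.Agent.W5h20.Pr.Signs

/-!
# Near products whose coordinates lie in large orbits or have small sums
-/

set_option autoImplicit false

namespace Pool.Agent.W5h20.Pr

open Finset Pool.Agent.Y359.PE Pool.Agent.Y806.DF Pool.Agent.R92.Star
open scoped Pointwise

universe u v

theorem orb_card {ι : Type*} [Fintype ι] (G : Subgroup (Equiv.Perm ι)) (i : ι) :
    (orb G i).card = {j | ∃ π ∈ G, π i = j}.ncard := by
  classical
  rw [← Set.ncard_coe_finset]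
  congr 1
  ext j
  simp [mem_orb]

/-- **Coordinates in large orbits or with small sums.** -/
theorem orbit_case : ∃ C : ℝ, ∀ (ι : Type u) [Fintype ι] (Γ : Type v)
    [AddCommGroup Γ] [DecidableEq (ι → Γ)] (G : Subgroup (Equiv.Perm ι)) (K κ : ℝ)
    (A : Finset (ι → Γ)), A.Nonempty → 1 ≤ κ →
    ((A + A).card : ℝ) ≤ K * A.card →
    (∀ I : Set ι, ((A.image I.indicator).card : ℝ) * (A.image Iᶜ.indicator).card ≤ K * A.card) →
    (∀ π ∈ G, ((A + A.image (fun a i => a (π i))).card : ℝ) ≤ K * A.card) →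
    (∀ i : ι, ((A + A.image (Set.indicator {i})).card : ℝ) ≤ κ * A.card ∨
      2 * K ≤ κ ^ {j | ∃ π ∈ G, π i = j}.ncard) →
    Concl C ((2 * K) ^ (1 + Real.log (1 + Real.log κ))) A := by
  obtain ⟨C, hC⟩ := concl_of_exp.{max u v} 50000000000
  refine ⟨C, ?_⟩
  intro ι _ Γ _ _ G K κ A hA hκ hAA hsplit hperm hloc
  have hK1 : 1 ≤ K := one_le_K hA hAA
  have hA0 : (0 : ℝ) < A.card := by exact_mod_cast card_pos.2 hA
  set L := Real.log K with hL
  set ℓ := Real.log (2 * K) with hℓ
  have hL0 : 0 ≤ L := Real.log_nonneg hK1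
  have hℓL : ℓ = Real.log 2 + L := by
    rw [hℓ, Real.log_mul (by norm_num) (by linarith)]
  have hlog2 := Real.log_two_gt_d9
  have hx0 : 0 ≤ Real.log κ := Real.log_nonneg hκ
  have hid : A.image (fun a => a) = A := image_id'
  obtain ⟨F, j, hF, h1, h2, h3, h4, h5⟩ := near_orbits hA (L := L)
    (by
      rw [HH_card hA]
      have := hd_image_le hA (fun a => a)
      rw [hid] at this
      exact this.trans (card_sub_le hA hA hK1 hAA hAA))
    (split_of_card hA (by linarith) hsplit) G (by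
      intro π hπ
      rw [HH_card hA]
      exact (hd_image_le hA (fun a i => a (π i))).trans
        (card_sub_le hA (hA.image _) hK1 hAA (hperm π hπ)))
  have hΔ : ∀ i, dR (F (j i)) (co (j i)) (F (j i)) (co (j i)) ≤ 40 * Real.log κ := by
    intro i
    rcases hloc (j i) with hl | hl
    · obtain ⟨J, hiJ, hJ⟩ := h5 (j i)
      have h6 := eta_le hA (i := j i) (lam := Real.log κ) (by
        rw [HH_card hA]
        have e1 := Pool.Agent.W5h20.Sym.h_le_log' (hA.product hA)
          (fun p : (ι → Γ) × (ι → Γ) => p.1 + Set.indicator {j i} p.2)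
        refine e1.trans ?_
        have e2 : (A ×ˢ A).image (fun p : (ι → Γ) × (ι → Γ) => p.1 + Set.indicator {j i} p.2) ⊆
            A + A.image (Set.indicator {j i}) := by
          intro v hv
          obtain ⟨⟨a, b⟩, hab, rfl⟩ := mem_image.1 hv
          rw [mem_product] at hab
          exact add_mem_add hab.1 (mem_image_of_mem _ hab.2)
        have e3 : (((A ×ˢ A).image (fun p : (ι → Γ) × (ι → Γ) =>
            p.1 + Set.indicator {j i} p.2)).card : ℝ) ≤ κ * A.card :=
          le_trans (by exact_mod_cast card_le_card e2) hl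
        have e4 : (0 : ℝ) < ((A ×ˢ A).image (fun p : (ι → Γ) × (ι → Γ) =>
            p.1 + Set.indicator {j i} p.2)).card := by
          exact_mod_cast card_pos.2 ((hA.product hA).image _)
        have e5 := Real.log_le_log e4 e3
        rw [Real.log_mul (by linarith) hA0.ne'] at e5
        linarith) hiJ
      linarith
    · have h6 := h3 i
      rw [← orb_card, orb_eq (h4 i)] at hl
      have h7 := Real.log_le_log (by linarith) hl
      rw [Real.log_pow, ← hℓ] at h7
      have h8 := orb_pos G i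
      have h9 : ((orb G i).card : ℝ) * dR (F (j i)) (co (j i)) (F (j i)) (co (j i)) ≤
          (orb G i).card * (40 * Real.log κ) := by
        refine h6.trans ?_
        linarith
      exact le_of_mul_le_mul_left h9 h8
  obtain ⟨d, X, ψ, H, g, hD⟩ := assemble hA (fun i => F (j i)) (fun i => hF (j i))
    (fun i a => a (j i)) (M := 40 * L) (Δ := 40 * Real.log κ) (h1.trans (by linarith)) h2
    (by linarith) hΔ
  have hK' : K ≤ (2 * K) ^ (1 + Real.log (1 + Real.log κ)) := by
    have e1 : 0 ≤ Real.log (1 + Real.log κ) := Real.log_nonneg (by linarith)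
    calc K ≤ (2 * K) ^ (1 : ℝ) := by rw [Real.rpow_one]; linarith
      _ ≤ _ := Real.rpow_le_rpow_of_exponent_le (by linarith) (by linarith)
  refine hC (ι → Γ) _ A hA (hAA.trans (mul_le_mul_of_nonneg_right hK' (Nat.cast_nonneg _)))
    ⟨d, X, ψ, H, g, _, _, ?_, hD⟩
  rw [Real.log_rpow (by linarith)]
  exact numbers hL0 (by linarith) hx0 (by linarith) le_rfl

/-- the two alternatives, explicit form -/
theorem mixed_explicit : ∃ C : ℝ, ∀ (ι : Type u) [Fintype ι] (Γ : Type v)
    [AddCommGroup Γ] [DecidableEq (ι → Γ)] (G : Subgroup (Equiv.Perm ι)) (K κ : ℝ)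
    (A : Finset (ι → Γ)), A.Nonempty → 1 ≤ κ →
    (∀ π ∈ G, ((A + A.image (fun a i => a (π i))).card : ℝ) ≤ K * A.card) →
    ((∀ I : Set ι, ((A.image I.indicator).card : ℝ) * (A.image Iᶜ.indicator).card ≤ K * A.card) ∨
      ((∀ x : Γ, 2 • x = 0 → x = 0) ∧
        ∀ I : Set ι, ((A + A.image (fun a => I.indicator a - Iᶜ.indicator a)).card : ℝ) ≤
          K * A.card)) →
    (∀ i : ι, ((A + A.image (Set.indicator {i})).card : ℝ) ≤ κ * A.card ∨
      2 * K ≤ κ ^ {j | ∃ π ∈ G, π i = j}.ncard) →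
    ConclX C (1 + Real.log (1 + Real.log κ)) K A := by
  obtain ⟨C, hC⟩ := orbit_case.{u, v}
  refine ⟨21 * (3 * |C|), ?_⟩
  intro ι _ Γ _ _ G K κ A hA hκ hperm hsplit hloc
  have hAA : ((A + A).card : ℝ) ≤ K * A.card := by
    have h1 := hperm 1 G.one_mem
    simpa using h1
  have hK1 : 1 ≤ K := one_le_K hA hAA
  have hA0 : (0 : ℝ) ≤ A.card := Nat.cast_nonneg _
  have hx0 : 0 ≤ Real.log κ := Real.log_nonneg hκ
  have hlog0 := Real.log_nonneg (show (1 : ℝ) ≤ 1 + Real.log κ by linarith)
  rcases hsplit with hsplit | ⟨hΓ, hsign⟩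
  · refine ConclX.mono (by positivity) hK1 hK1 ?_ (by linarith) (by linarith)
      (conclX_of C hK1 (by linarith) (hC ι Γ G K κ A hA hκ hAA hsplit hperm hloc))
    calc 2 * K = (2 * K) ^ 1 := (pow_one _).symm
      _ ≤ (2 * K) ^ 7 := pow_le_pow_right₀ (by linarith) (by norm_num)
  · have hK3 : K ≤ 54 * K ^ 3 := by nlinarith [pow_le_pow_right₀ hK1 (show 1 ≤ 3 by norm_num)]
    have hK3' : 1 ≤ 54 * K ^ 3 := by linarith
    have hκ7 : κ ≤ κ ^ 7 := by
      calc κ = κ ^ 1 := (pow_one _).symm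
        _ ≤ κ ^ 7 := pow_le_pow_right₀ hκ (by norm_num)
    have hstep := hC ι Γ G (54 * K ^ 3) (κ ^ 7) A hA (hκ.trans hκ7)
      (hAA.trans (mul_le_mul_of_nonneg_right hK3 hA0))
      (fun I => near_of_signs hA hΓ hAA I (hsign I))
      (fun π hπ => (hperm π hπ).trans (mul_le_mul_of_nonneg_right hK3 hA0))
      (fun i => (hloc i).imp (fun h => h.trans (mul_le_mul_of_nonneg_right hκ7 hA0)) fun h =>
        (pow7 hK1).trans ((pow_le_pow_left₀ (show (0 : ℝ) ≤ 2 * K by linarith) h 7).trans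
          (le_of_eq (pow_right_comm _ _ _))))
    have hx' : 0 ≤ Real.log (κ ^ 7) := Real.log_nonneg (hκ.trans hκ7)
    have hlog := Real.log_nonneg (show (1 : ℝ) ≤ 1 + Real.log (κ ^ 7) by linarith)
    refine ConclX.mono (by positivity) hK1 hK3' (pow7 hK1) (by linarith) ?_
      (conclX_of C hK3' (by linarith) hstep)
    refine log7 hx0 hx' ?_
    rw [Real.log_pow]
    norm_num

end Pool.Agent.W5h20.Pr
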